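import Mathlib

/-!
# Exponent pairs: definitions
-/

set_option autoImplicit false

namespace Pool.Agent.H502.XP

/-- `f` is admissible at scale `N` with the parameter `F` and the constants `c`, `C`. -/
def Admissible (c C : ℕ → ℝ) (N F : ℝ) (f : ℝ → ℝ) : Prop :=
  ContDiffOn ℝ (⊤ : ℕ∞) f (Set.Icc N (2 * N)) ∧
  ∀ j : ℕ, ∀ x ∈ Set.Icc N (2 * N),
    c j * F / N ^ j ≤ |iteratedDerivWithin j f (Set.Icc N (2 * N)) x| ∧
    |iteratedDerivWithin j f (Set.Icc N (2 * N)) x| ≤ C j * F / N ^ j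

/-- The sum of `e(f(n))` over the integers `N ≤ n ≤ N'`, where `e(x) = exp(2πix)`. -/
noncomputable def expSum (f : ℝ → ℝ) (N N' : ℝ) : ℂ :=
  ∑ n ∈ Finset.Icc ⌈N⌉₊ ⌊N'⌋₊, Complex.exp (2 * (Real.pi : ℂ) * Complex.I * ((f (n : ℝ) : ℝ) : ℂ))

/-- `(p, q)` is an exponent pair (the case `0 ≤ p, q ≤ 1/2` is the definition of the problem). -/
def IsExponentPair (p q : ℝ) : Prop :=
  ∀ ε : ℝ, 0 < ε → ∀ c C : ℕ → ℝ, (∀ j, 0 < c j) → (∀ j, 0 < C j) → ∃ K : ℝ,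
    ∀ N N' F : ℝ, ∀ f : ℝ → ℝ, 2 ≤ N → N ≤ N' → N' ≤ 2 * N → N ≤ F → Admissible c C N F f →
      ‖expSum f N N'‖ ≤ K * F ^ p * N ^ (q - p + 1 / 2) * F ^ ε

end Pool.Agent.H502.XP
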