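import Mathlib
import Pool.Graph.R_pool_sql_team_seeded_3997aac3.Q237.EP.D5

/-!
# The local phase of `2 (x / 3)^(3/2) / √b` at a stationary point `3 b m²`
-/

set_option autoImplicit false

open Finset
open Pool.Agent.H469R2.NK (e norm_e e_add e_zero e_nat)
open Pool.Agent.Q237.EP

namespace Pool.Agent.H502.XP

/-- the scaled local phase -/
noncomputable def gb (b m h : ℝ) : ℝ := b * g m (h / b)

lemma g_step {m h δ : ℝ} (hm : 0 < m) (hδ : 0 < δ) (hh : 0 ≤ m ^ 2 + h / 3) :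
    δ * (s m h - m) ≤ g m (h + δ) - g m h ∧ g m (h + δ) - g m h ≤ δ * (s m (h + δ) - m) := by
  set a := s m h with ha
  set b := s m (h + δ) with hb
  have ha0 : 0 ≤ a := s_nonneg _ _
  have hab : a ≤ b := s_mono (by linarith)
  have ha2 : a ^ 2 = m ^ 2 + h / 3 := s_sq hh
  have hb2 : b ^ 2 = m ^ 2 + (h + δ) / 3 := s_sq (by linarith)
  have hb0 : 0 < b := Real.sqrt_pos.mpr (by linarith)
  have h1 : g m (h + δ) - g m h = 2 * (b ^ 3 - a ^ 3) - m * δ := by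
    unfold g
    rw [← ha, ← hb]
    ring
  have h2 : (b - a) * (3 * (a + b)) = δ := by
    have : b ^ 2 - a ^ 2 = δ / 3 := by rw [ha2, hb2]; ring
    nlinarith
  rw [h1]
  have hs : 0 < 3 * (a + b) := by positivity
  have h3 : (2 * (b ^ 3 - a ^ 3)) * (3 * (a + b)) = 2 * (b ^ 2 + a * b + a ^ 2) * δ := by
    have : (2 * (b ^ 3 - a ^ 3)) * (3 * (a + b)) = 2 * (b ^ 2 + a * b + a ^ 2) * ((b - a) * (3 * (a + b))) := by ring
    rw [this, h2]
  constructor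
  · have : δ * a ≤ 2 * (b ^ 3 - a ^ 3) := by
      rw [← mul_le_mul_iff_left₀ hs, h3]
      have h4 : 0 ≤ (b - a) * (2 * b + a) := mul_nonneg (sub_nonneg.mpr hab) (by positivity)
      have h5 : 3 * (a + b) * a ≤ 2 * (b ^ 2 + a * b + a ^ 2) := by nlinarith
      calc δ * a * (3 * (a + b)) = (3 * (a + b) * a) * δ := by ring
        _ ≤ (2 * (b ^ 2 + a * b + a ^ 2)) * δ := mul_le_mul_of_nonneg_right h5 hδ.le
    linarith
  · have : 2 * (b ^ 3 - a ^ 3) ≤ δ * b := by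
      rw [← mul_le_mul_iff_left₀ hs, h3]
      have h4 : 0 ≤ (b - a) * (b + 2 * a) := mul_nonneg (sub_nonneg.mpr hab) (by positivity)
      have h5 : 2 * (b ^ 2 + a * b + a ^ 2) ≤ 3 * (a + b) * b := by nlinarith
      calc (2 * (b ^ 2 + a * b + a ^ 2)) * δ ≤ (3 * (a + b) * b) * δ := mul_le_mul_of_nonneg_right h5 hδ.le
        _ = δ * b * (3 * (a + b)) := by ring
    linarith

lemma gb_diff {b m h : ℝ} (hb : 0 < b) (hm : 0 < m) (hh : 0 ≤ m ^ 2 + h / b / 3) :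
    s m (h / b) - m ≤ gb b m (h + 1) - gb b m h ∧ gb b m (h + 1) - gb b m h ≤ s m ((h + 1) / b) - m := by
  have h1 := g_step (δ := 1 / b) hm (by positivity) hh
  have h2 : (h + 1) / b = h / b + 1 / b := by ring
  unfold gb
  rw [h2]
  obtain ⟨h3, h4⟩ := h1
  constructor
  · have := mul_le_mul_of_nonneg_left h3 hb.le
    have e1 : b * (1 / b * (s m (h / b) - m)) = s m (h / b) - m := by field_simp
    rw [e1] at this
    linarith
  · have := mul_le_mul_of_nonneg_left h4 hb.le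
    have e1 : b * (1 / b * (s m (h / b + 1 / b) - m)) = s m (h / b + 1 / b) - m := by field_simp
    rw [e1] at this
    linarith

lemma gb_taylor {b m h : ℝ} (hb : 0 < b) (hm : 0 < m) (hh : 0 ≤ m ^ 2 + h / b / 3)
    (hs : s m (h / b) ≤ 2 * m) :
    |gb b m h - h ^ 2 / (12 * (b * m))| ≤ |h| ^ 3 / (14 * (b ^ 2 * m ^ 3)) := by
  have h1 := g_taylor hm hh hs
  have e1 : gb b m h - h ^ 2 / (12 * (b * m)) = b * (g m (h / b) - (h / b) ^ 2 / (12 * m)) := by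
    unfold gb
    field_simp
  rw [e1, abs_mul, abs_of_pos hb]
  refine (mul_le_mul_of_nonneg_left h1 hb.le).trans (le_of_eq ?_)
  rw [abs_div, abs_of_pos hb]
  field_simp

lemma tail_right' {b m H L : ℕ} (hb : 1 ≤ b) (hm : 1 ≤ m) (hH : 1 ≤ H) (hHR : H ≤ b * m)
    (hL : L ≤ 3 * (b * m) + 1) :
    ‖∑ n ∈ Ico H L, e (gb b m n)‖ ≤ 16 * ((b * m : ℕ) : ℝ) / H := by
  have hb0 : (0 : ℝ) < b := by exact_mod_cast (by omega : 0 < b)
  have hb1 : (1 : ℝ) ≤ b := by exact_mod_cast hb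
  have hm0 : (0 : ℝ) < m := by exact_mod_cast (by omega : 0 < m)
  have hm1 : (1 : ℝ) ≤ m := by exact_mod_cast hm
  have hH0 : (0 : ℝ) < H := by exact_mod_cast hH
  have hHR' : (H : ℝ) ≤ b * m := by exact_mod_cast hHR
  have hL' : (L : ℝ) ≤ 3 * (b * m) + 1 := by exact_mod_cast hL
  push_cast
  have ht1 : (H : ℝ) / (b * m) ≤ 1 := by rw [div_le_one (by positivity)]; exact hHR'
  have ht0 : 0 ≤ (H : ℝ) / (b * m) := by positivity
  have hθ : (H : ℝ) / (8 * (b * m)) = H / (b * m) / 8 := by field_simp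
  have hHb : (H : ℝ) / b = H / (b * m) * m := by field_simp
  have h := tail_le (fun n => gb b m n) (fun n => s m (n / b) - m) H L
    (θ := H / (8 * (b * m))) (by positivity) (by
      intro n _ _
      have hn : (0 : ℝ) ≤ n := Nat.cast_nonneg n
      push_cast
      exact gb_diff hb0 hm0 (by positivity)) (by
      intro n _ _
      push_cast
      have : s m ((n : ℝ) / b) ≤ s m (((n : ℝ) + 1) / b) := s_mono (by gcongr; linarith)
      linarith) (by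
      have : (m : ℝ) + H / (8 * (b * m)) ≤ s m (H / b) := by
        apply Real.le_sqrt_of_sq_le
        rw [hθ, hHb]
        set t := (H : ℝ) / (b * m)
        nlinarith [mul_nonneg ht0 (sub_nonneg.mpr ht1), mul_nonneg ht0 (sub_nonneg.mpr hm1)]
      linarith) (by
      have h1 : (H : ℝ) / (8 * (b * m)) ≤ 1 / 8 := by rw [hθ]; linarith
      have h2 : s m (((L : ℕ) : ℝ) / b) ≤ m + 7 / 8 := by
        apply Real.sqrt_le_iff.mpr
        refine ⟨by positivity, ?_⟩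
        have h3 : (L : ℝ) / b ≤ 3 * m + 1 := by
          rw [div_le_iff₀ hb0]
          nlinarith
        nlinarith
      linarith)
  refine h.trans (le_of_eq ?_)
  field_simp
  norm_num

lemma tail_left' {b m H L : ℕ} (hb : 1 ≤ b) (hm : 1 ≤ m) (hH : 1 ≤ H) (hHR : H ≤ b * m)
    (hL : L ≤ 3 * (b * m)) (hL2 : 2 ≤ m ∨ L ≤ 2 * b) :
    ‖∑ n ∈ Ico H L, e (gb b m (-(n : ℝ)))‖ ≤ 16 * ((b * m : ℕ) : ℝ) / H := by
  have hb0 : (0 : ℝ) < b := by exact_mod_cast (by omega : 0 < b)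
  have hb1 : (1 : ℝ) ≤ b := by exact_mod_cast hb
  have hm0 : (0 : ℝ) < m := by exact_mod_cast (by omega : 0 < m)
  have hm1 : (1 : ℝ) ≤ m := by exact_mod_cast hm
  have hH0 : (0 : ℝ) < H := by exact_mod_cast hH
  have hHR' : (H : ℝ) ≤ b * m := by exact_mod_cast hHR
  have hL' : (L : ℝ) ≤ 3 * (b * m) := by exact_mod_cast hL
  push_cast
  have ht1 : (H : ℝ) / (b * m) ≤ 1 := by rw [div_le_one (by positivity)]; exact hHR'
  have ht0 : 0 ≤ (H : ℝ) / (b * m) := by positivity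
  have hθ : (H : ℝ) / (8 * (b * m)) = H / (b * m) / 8 := by field_simp
  have hHb : (H : ℝ) / b = H / (b * m) * m := by field_simp
  have h := tail_le (fun n => gb b m (-(n : ℝ))) (fun n => m - s m (-(n : ℝ) / b)) H L
    (θ := H / (8 * (b * m))) (by positivity) (by
      intro n _ hn2
      have hn : (0 : ℝ) ≤ n := Nat.cast_nonneg n
      have hn3 : (n : ℝ) + 1 ≤ 3 * (b * m) := by
        have : (n : ℝ) + 1 ≤ L := by exact_mod_cast hn2
        linarith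
      push_cast
      have h1 := gb_diff (b := b) (m := m) (h := -((n : ℝ) + 1)) hb0 hm0 (by
        have h2 : ((n : ℝ) + 1) / b ≤ 3 * m := by
          rw [div_le_iff₀ hb0]
          linarith
        rw [neg_div]
        nlinarith)
      rw [show -((n : ℝ) + 1) + 1 = -(n : ℝ) by ring] at h1
      constructor
      · linarith [h1.2]
      · linarith [h1.1]) (by
      intro n _ _
      push_cast
      have : s m (-((n : ℝ) + 1) / b) ≤ s m (-(n : ℝ) / b) := s_mono (by gcongr; linarith)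
      linarith) (by
      have : s m (-(H : ℝ) / b) ≤ (m : ℝ) - H / (8 * (b * m)) := by
        apply Real.sqrt_le_iff.mpr
        rw [hθ, neg_div, hHb]
        set t := (H : ℝ) / (b * m)
        refine ⟨by linarith, ?_⟩
        nlinarith [mul_nonneg ht0 hm0.le, sq_nonneg t]
      linarith) (by
      have h1 : (H : ℝ) / (8 * (b * m)) ≤ 1 / 8 := by rw [hθ]; linarith
      have h2 : (m : ℝ) - 7 / 8 ≤ s m (-((L : ℕ) : ℝ) / b) := by
        apply Real.le_sqrt_of_sq_le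
        rcases hL2 with h3 | h3
        · have h4 : (2 : ℝ) ≤ m := by exact_mod_cast h3
          have h5 : (L : ℝ) / b ≤ 3 * m := by
            rw [div_le_iff₀ hb0]
            linarith
          rw [neg_div]
          nlinarith
        · have h4 : (L : ℝ) ≤ 2 * b := by exact_mod_cast h3
          have h5 : (L : ℝ) / b ≤ 2 := by
            rw [div_le_iff₀ hb0]
            linarith
          rw [neg_div]
          nlinarith
      linarith)
  refine h.trans (le_of_eq ?_)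
  field_simp
  norm_num

/-- the quadratic tail between any two points -/
lemma quad_between {R H L : ℕ} (hR : 2 ≤ R) (hH : 1 ≤ H) (hHR : H ≤ R) (hHL : H ≤ L) {M : ℕ}
    (hLM : L ≤ M) (hM : M ≤ 3 * R + 1) :
    ‖∑ n ∈ Ico L M, e ((n : ℝ) ^ 2 / (12 * R))‖ ≤ 2 * (16 * R / H) := by
  have h1 := tail_quad (N := M) hR hH hHR hM
  have h2 := tail_quad (N := L) hR hH hHR (hLM.trans hM)
  have h3 := sum_Ico_consecutive (fun n => e ((n : ℝ) ^ 2 / (12 * R))) hHL hLM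
  have h4 : ∑ n ∈ Ico L M, e ((n : ℝ) ^ 2 / (12 * R)) =
      ∑ n ∈ Ico H M, e ((n : ℝ) ^ 2 / (12 * R)) - ∑ n ∈ Ico H L, e ((n : ℝ) ^ 2 / (12 * R)) := by
    rw [← h3]
    ring
  rw [h4]
  refine (norm_sub_le _ _).trans ?_
  linarith

lemma rho_mul' {b m H : ℕ} (hb : 1 ≤ b) (hm : 1 ≤ m) (k : ℕ) (hk : k ≤ H) :
    (k : ℝ) * (2 * Real.pi * ((H : ℝ) ^ 3 / (14 * ((b : ℝ) ^ 2 * m ^ 3)))) ≤
      (H : ℝ) ^ 4 / (2 * ((b : ℝ) ^ 2 * m ^ 3)) := by
  have hb0 : (0 : ℝ) < b := by exact_mod_cast (by omega : 0 < b)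
  have hm0 : (0 : ℝ) < m := by exact_mod_cast (by omega : 0 < m)
  have hkR : (k : ℝ) ≤ H := by exact_mod_cast hk
  have := pi7
  have hH0 : (0 : ℝ) ≤ H := Nat.cast_nonneg H
  calc (k : ℝ) * (2 * Real.pi * ((H : ℝ) ^ 3 / (14 * ((b : ℝ) ^ 2 * m ^ 3))))
      ≤ (H : ℝ) * (7 * ((H : ℝ) ^ 3 / (14 * ((b : ℝ) ^ 2 * m ^ 3)))) := by gcongr
    _ = (H : ℝ) ^ 4 / (2 * ((b : ℝ) ^ 2 * m ^ 3)) := by field_simp; ring

lemma block_right' {b m H L : ℕ} (hb : 1 ≤ b) (hm : 1 ≤ m) (hR : 2 ≤ b * m) (hH : 1 ≤ H)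
    (hHR : H ≤ b * m) (hHL : H ≤ L) (hL : L ≤ 3 * (b * m) + 1) :
    ‖∑ n ∈ Ico 0 L, e (gb b m n) -
      ∑ n ∈ Ico 0 (3 * (b * m) + 1), e ((n : ℝ) ^ 2 / (12 * ((b * m : ℕ) : ℝ)))‖ ≤
      (H : ℝ) ^ 4 / (2 * ((b : ℝ) ^ 2 * m ^ 3)) + 4 * (16 * ((b * m : ℕ) : ℝ) / H) := by
  have hb0 : (0 : ℝ) < b := by exact_mod_cast (by omega : 0 < b)
  have hm0 : (0 : ℝ) < m := by exact_mod_cast (by omega : 0 < m)
  have h := compare (fun n => gb b m n) (fun n => (n : ℝ) ^ 2 / (12 * ((b * m : ℕ) : ℝ))) 0 H L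
    (by omega) hHL (ρ := (H : ℝ) ^ 3 / (14 * ((b : ℝ) ^ 2 * m ^ 3)))
    (B := 16 * ((b * m : ℕ) : ℝ) / H) (by
      intro n _ hn
      have hnH : (n : ℝ) ≤ H := by exact_mod_cast hn.le
      have hnm : (n : ℝ) ≤ b * m := by exact_mod_cast hn.le.trans hHR
      have hn0 : (0 : ℝ) ≤ n := Nat.cast_nonneg n
      have hs : s m ((n : ℝ) / b) ≤ 2 * m := by
        apply Real.sqrt_le_iff.mpr
        refine ⟨by positivity, ?_⟩
        have h1 : (n : ℝ) / b ≤ m := by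
          rw [div_le_iff₀ hb0]
          linarith
        have : (1 : ℝ) ≤ m := by exact_mod_cast hm
        nlinarith
      have h1 := gb_taylor hb0 hm0 (by positivity) hs
      rw [abs_of_nonneg hn0] at h1
      push_cast
      refine h1.trans ?_
      gcongr) (tail_right' hb hm hH hHR hL) (tail_quad hR hH hHR hL)
  have h1 := rho_mul' hb hm (H - 0) (by omega : H - 0 ≤ H)
  have h2 := quad_between hR hH hHR hHL hL le_rfl
  have h3 := sum_Ico_consecutive (fun n => e ((n : ℝ) ^ 2 / (12 * ((b * m : ℕ) : ℝ)))) (Nat.zero_le L) hL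
  rw [← h3]
  have e1 : ∀ x y z : ℂ, x - (y + z) = (x - y) - z := fun x y z => by ring
  rw [e1]
  refine (norm_sub_le _ _).trans ?_
  linarith

lemma block_left' {b m H L : ℕ} (hb : 1 ≤ b) (hm : 1 ≤ m) (hR : 2 ≤ b * m) (hH : 1 ≤ H)
    (hHR : H ≤ b * m) (hHL : H ≤ L) (hL : L ≤ 3 * (b * m)) (hL2 : 2 ≤ m ∨ L ≤ 2 * b) :
    ‖∑ n ∈ Ico 1 L, e (gb b m (-(n : ℝ))) -
      ∑ n ∈ Ico 1 (3 * (b * m)), e ((n : ℝ) ^ 2 / (12 * ((b * m : ℕ) : ℝ)))‖ ≤
      (H : ℝ) ^ 4 / (2 * ((b : ℝ) ^ 2 * m ^ 3)) + 4 * (16 * ((b * m : ℕ) : ℝ) / H) := by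
  have hb0 : (0 : ℝ) < b := by exact_mod_cast (by omega : 0 < b)
  have hm0 : (0 : ℝ) < m := by exact_mod_cast (by omega : 0 < m)
  have h := compare (fun n => gb b m (-(n : ℝ))) (fun n => (n : ℝ) ^ 2 / (12 * ((b * m : ℕ) : ℝ))) 1 H L
    hH hHL (ρ := (H : ℝ) ^ 3 / (14 * ((b : ℝ) ^ 2 * m ^ 3)))
    (B := 16 * ((b * m : ℕ) : ℝ) / H) (by
      intro n _ hn
      have hnH : (n : ℝ) ≤ H := by exact_mod_cast hn.le
      have hnm : (n : ℝ) ≤ b * m := by exact_mod_cast hn.le.trans hHR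
      have hn0 : (0 : ℝ) ≤ n := Nat.cast_nonneg n
      have h0 : (n : ℝ) / b ≤ m := by
        rw [div_le_iff₀ hb0]
        linarith
      have h0' : 0 ≤ (n : ℝ) / b := by positivity
      have hm1 : (1 : ℝ) ≤ m := by exact_mod_cast hm
      have hs : s m (-(n : ℝ) / b) ≤ 2 * m := by
        apply Real.sqrt_le_iff.mpr
        refine ⟨by positivity, ?_⟩
        rw [neg_div]
        nlinarith
      have h1 := gb_taylor (b := b) (m := m) (h := -(n : ℝ)) hb0 hm0 (by rw [neg_div]; nlinarith) hs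
      rw [neg_sq, abs_neg, abs_of_nonneg hn0] at h1
      push_cast
      refine h1.trans ?_
      gcongr) (tail_left' hb hm hH hHR hL hL2) (tail_quad hR hH hHR (by omega))
  have h1 := rho_mul' hb hm (H - 1) (by omega : H - 1 ≤ H)
  have h2 := quad_between hR hH hHR hHL hL (by omega)
  have h3 := sum_Ico_consecutive (fun n => e ((n : ℝ) ^ 2 / (12 * ((b * m : ℕ) : ℝ)))) (hH.trans hHL) hL
  rw [← h3]
  have e1 : ∀ x y z : ℂ, x - (y + z) = (x - y) - z := fun x y z => by ring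
  rw [e1]
  refine (norm_sub_le _ _).trans ?_
  linarith

/-- the local sum -/
noncomputable def loc (b m L₁ L₂ : ℕ) : ℂ :=
  ∑ n ∈ Ico 0 L₁, e (gb b m n) + ∑ n ∈ Ico 1 L₂, e (gb b m (-(n : ℝ)))

lemma loc_approx {b m H L₁ L₂ : ℕ} (hb : 1 ≤ b) (hm : 1 ≤ m) (hR : 2 ≤ b * m) (hH : 1 ≤ H)
    (hHR : H ≤ b * m) (hHL₁ : H ≤ L₁) (hL₁ : L₁ ≤ 3 * (b * m) + 1) (hHL₂ : H ≤ L₂)
    (hL₂ : L₂ ≤ 3 * (b * m)) (hL2 : 2 ≤ m ∨ L₂ ≤ 2 * b) :
    ‖loc b m L₁ L₂ - (Real.sqrt (6 * ((b * m : ℕ) : ℝ)) : ℂ) * e (1 / 8)‖ ≤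
      (H : ℝ) ^ 4 / ((b : ℝ) ^ 2 * m ^ 3) + 128 * ((b * m : ℕ) : ℝ) / H := by
  unfold loc
  rw [← gauss_two (by omega : 1 ≤ b * m)]
  have h1 := block_right' hb hm hR hH hHR hHL₁ hL₁
  have h2 := block_left' hb hm hR hH hHR hHL₂ hL₂ hL2
  have e1 : ∀ a b c d : ℂ, (a + b) - (c + d) = (a - c) + (b - d) := fun a b c d => by ring
  rw [e1]
  refine (norm_add_le _ _).trans ((add_le_add h1 h2).trans (le_of_eq ?_))
  ring

/-- **The local sum is large, with the argument `π / 4`.** -/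
lemma loc_re {b m L₁ L₂ : ℕ} (hb : 1 ≤ b) (hm : 1 ≤ m)
    (hbig : (129 : ℝ) ^ 4 ≤ m * Real.sqrt (b * m))
    (hHL₁ : 129 * Real.sqrt (b * m) ≤ L₁) (hL₁ : L₁ ≤ 3 * (b * m) + 1)
    (hHL₂ : 129 * Real.sqrt (b * m) ≤ L₂) (hL₂ : L₂ ≤ 3 * (b * m)) (hL2 : 2 ≤ m ∨ L₂ ≤ 2 * b) :
    2 / 5 * Real.sqrt (b * m) ≤ (e (-(1 / 8)) * loc b m L₁ L₂).re := by
  have hb0 : (0 : ℝ) < b := by exact_mod_cast (by omega : 0 < b)
  have hb1 : (1 : ℝ) ≤ b := by exact_mod_cast hb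
  have hm0 : (0 : ℝ) < m := by exact_mod_cast (by omega : 0 < m)
  have hm1 : (1 : ℝ) ≤ m := by exact_mod_cast hm
  set r : ℝ := Real.sqrt (b * m) with hr
  have hr0 : 0 < r := Real.sqrt_pos.mpr (by positivity)
  have hr2 : r ^ 2 = b * m := Real.sq_sqrt (by positivity)
  have hmr : (m : ℝ) ≤ r ^ 2 := by rw [hr2]; nlinarith
  have hr129 : 129 ≤ r := by
    by_contra hcon
    push Not at hcon
    have h1 : (m : ℝ) * r ≤ r ^ 2 * r := mul_le_mul_of_nonneg_right hmr hr0.le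
    have h2 : r ^ 2 * r < (129 : ℝ) ^ 4 := by nlinarith [mul_pos hr0 hr0]
    linarith
  obtain ⟨H, hH1, hH2⟩ : ∃ H : ℕ, 128 * r ≤ H ∧ (H : ℝ) ≤ 129 * r := by
    refine ⟨⌈128 * r⌉₊, Nat.le_ceil _, ?_⟩
    have := (Nat.ceil_lt_add_one (by positivity : 0 ≤ 128 * r)).le
    linarith
  have hH0 : (0 : ℝ) < H := by linarith [mul_pos (by norm_num : (0:ℝ) < 128) hr0]
  have hH : 1 ≤ H := by
    have : (0 : ℝ) < H := hH0
    exact_mod_cast this
  have hHR : H ≤ b * m := by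
    have : (H : ℝ) ≤ ((b * m : ℕ) : ℝ) := by
      push_cast
      rw [← hr2]
      nlinarith
    exact_mod_cast this
  have hR : 2 ≤ b * m := by
    have : (2 : ℝ) ≤ ((b * m : ℕ) : ℝ) := by
      push_cast
      rw [← hr2]
      nlinarith
    exact_mod_cast this
  have hHL₁' : H ≤ L₁ := by exact_mod_cast hH2.trans hHL₁
  have hHL₂' : H ≤ L₂ := by exact_mod_cast hH2.trans hHL₂
  have h3 := loc_approx hb hm hR hH hHR hHL₁' hL₁ hHL₂' hL₂ hL2
  have h4 : (H : ℝ) ^ 4 / ((b : ℝ) ^ 2 * m ^ 3) ≤ r := by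
    rw [div_le_iff₀ (by positivity)]
    have h5 : (H : ℝ) ^ 4 ≤ (129 * r) ^ 4 := by gcongr
    have h6 : (b : ℝ) ^ 2 * m ^ 3 = (r ^ 2) ^ 2 * m := by rw [hr2]; ring
    rw [h6]
    calc (H : ℝ) ^ 4 ≤ (129 * r) ^ 4 := h5
      _ = 129 ^ 4 * r ^ 4 := by ring
      _ ≤ (m * r) * r ^ 4 := by gcongr
      _ = r * ((r ^ 2) ^ 2 * m) := by ring
  have h5 : 128 * ((b * m : ℕ) : ℝ) / H ≤ r := by
    rw [div_le_iff₀ hH0]
    push_cast
    rw [← hr2]
    nlinarith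
  have h6 : 12 / 5 * r ≤ Real.sqrt (6 * ((b * m : ℕ) : ℝ)) := by
    apply Real.le_sqrt_of_sq_le
    push_cast
    rw [← hr2]
    nlinarith
  set G : ℝ := Real.sqrt (6 * ((b * m : ℕ) : ℝ))
  have h8 : e (-(1 / 8)) * loc b m L₁ L₂ = (G : ℂ) + e (-(1 / 8)) * (loc b m L₁ L₂ - (G : ℂ) * e (1 / 8)) := by
    have : e (-(1 / 8)) * e (1 / 8) = 1 := by
      rw [← e_add]
      norm_num
      exact e_zero
    have h9 : (G : ℂ) = (G : ℂ) * (e (-(1 / 8)) * e (1 / 8)) := by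
      rw [this, mul_one]
    calc e (-(1 / 8)) * loc b m L₁ L₂ = (G : ℂ) * (e (-(1 / 8)) * e (1 / 8)) +
          e (-(1 / 8)) * (loc b m L₁ L₂ - (G : ℂ) * e (1 / 8)) := by ring
      _ = _ := by rw [← h9]
  rw [h8, Complex.add_re, Complex.ofReal_re]
  have h10 : |(e (-(1 / 8)) * (loc b m L₁ L₂ - (G : ℂ) * e (1 / 8))).re| ≤ 2 * r := by
    refine (Complex.abs_re_le_norm _).trans ?_
    rw [norm_mul, norm_e, one_mul]
    refine h3.trans ?_
    linarith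
  have h11 := (abs_le.mp h10).1
  linarith

end Pool.Agent.H502.XP
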