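import Pool.Agent.H502.XP.L1

/-!
# The sums of `e (T n^(3/2))`, `T = 2 / (3^(3/2) √b)`, over blocks
-/

set_option autoImplicit false

open Finset
open Pool.Agent.H469R2.NK (e norm_e e_add e_zero e_nat)
open Pool.Agent.Q237.EP

namespace Pool.Agent.H502.XP

/-- the factor -/
noncomputable def Tb (b : ℕ) : ℝ := Pool.Agent.Q237.EP.A / Real.sqrt b

lemma Tb_pos {b : ℕ} (hb : 1 ≤ b) : 0 < Tb b := by
  have : (0 : ℝ) < b := by exact_mod_cast (by omega : 0 < b)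
  exact div_pos A_pos (Real.sqrt_pos.mpr this)

/-- the phase -/
noncomputable def fb (b : ℕ) (x : ℝ) : ℝ := Tb b * x ^ (3 / 2 : ℝ)

lemma fb_eq {b : ℕ} (hb : 1 ≤ b) {x : ℝ} (hx : 0 ≤ x) : fb b x = b * ff (x / b) := by
  have hb0 : (0 : ℝ) < b := by exact_mod_cast (by omega : 0 < b)
  unfold fb Tb ff
  rw [Real.div_rpow hx hb0.le]
  have h1 : (b : ℝ) ^ (3 / 2 : ℝ) = b * Real.sqrt b := by
    rw [show (3 / 2 : ℝ) = 1 + 1 / 2 by norm_num, Real.rpow_add hb0, Real.rpow_one, Real.sqrt_eq_rpow]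
  rw [h1]
  have h2 : 0 < Real.sqrt b := Real.sqrt_pos.mpr hb0
  field_simp

lemma fb_local {b : ℕ} (hb : 1 ≤ b) {m h : ℝ} (hh : 0 ≤ m ^ 2 + h / b / 3) :
    fb b (3 * b * m ^ 2 + h) = gb b m h + (m * h + 2 * b * m ^ 3) := by
  have hb0 : (0 : ℝ) < b := by exact_mod_cast (by omega : 0 < b)
  have h0 : 3 * b * m ^ 2 + h = 3 * b * (m ^ 2 + h / b / 3) := by field_simp
  rw [fb_eq hb (by rw [h0]; positivity)]
  have h1 : (3 * b * m ^ 2 + h) / b = 3 * m ^ 2 + h / b := by field_simp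
  rw [h1, ff_eq hh]
  unfold gb
  field_simp
  ring

lemma e_right {b m j : ℕ} (hb : 1 ≤ b) :
    e (fb b ((3 * b * m ^ 2 + j : ℕ) : ℝ)) = e (gb b m j) := by
  push_cast
  rw [fb_local hb (by positivity)]
  rw [show gb b m j + ((m : ℝ) * j + 2 * b * (m : ℝ) ^ 3) = gb b m j + ((m * j + 2 * b * m ^ 3 : ℤ) : ℝ) by
    push_cast; ring, e_add_int]

lemma e_left {b m j : ℕ} (hb : 1 ≤ b) (hj : j ≤ 3 * b * m ^ 2) :
    e (fb b ((3 * b * m ^ 2 - j : ℕ) : ℝ)) = e (gb b m (-(j : ℝ))) := by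
  have hb0 : (0 : ℝ) < b := by exact_mod_cast (by omega : 0 < b)
  have hj2 : (j : ℝ) ≤ 3 * b * (m : ℝ) ^ 2 := by exact_mod_cast hj
  rw [Nat.cast_sub hj]
  push_cast
  rw [sub_eq_add_neg, fb_local hb (by
    have : (j : ℝ) / b / 3 ≤ (m : ℝ) ^ 2 := by
      rw [div_div, div_le_iff₀ (by positivity)]
      linarith
    rw [neg_div, neg_div]
    linarith)]
  rw [show gb b m (-(j : ℝ)) + ((m : ℝ) * (-(j : ℝ)) + 2 * b * (m : ℝ) ^ 3) =
    gb b m (-(j : ℝ)) + ((-(m * j) + 2 * b * m ^ 3 : ℤ) : ℝ) by push_cast; ring, e_add_int]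

lemma loc_eq {b m L₁ L₂ : ℕ} (hb : 1 ≤ b) (hL₂ : 1 ≤ L₂) (hL₂' : L₂ ≤ 3 * b * m ^ 2) :
    ∑ n ∈ Ico (3 * b * m ^ 2 + 1 - L₂) (3 * b * m ^ 2 + L₁), e (fb b (n : ℕ)) = loc b m L₁ L₂ := by
  rw [← sum_Ico_consecutive _ (by omega : 3 * b * m ^ 2 + 1 - L₂ ≤ 3 * b * m ^ 2)
    (by omega : 3 * b * m ^ 2 ≤ 3 * b * m ^ 2 + L₁), add_comm]
  unfold loc
  congr 1
  · rw [sum_Ico_eq_sum_range, sum_Ico_eq_sum_range]
    rw [show 3 * b * m ^ 2 + L₁ - 3 * b * m ^ 2 = L₁ - 0 by omega]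
    refine sum_congr rfl fun j _ => ?_
    rw [e_right hb, Nat.zero_add]
  · have h := sum_Ico_reflect (fun n => e (fb b (n : ℕ))) 1 (m := L₂) (n := 3 * b * m ^ 2) (by omega)
    rw [show 3 * b * m ^ 2 + 1 - 1 = 3 * b * m ^ 2 by omega] at h
    rw [← h]
    refine sum_congr rfl fun j hj => ?_
    rw [mem_Ico] at hj
    exact e_left hb (by omega)

/-- the beginning of the `m`-th block -/
def sb (b m : ℕ) : ℕ := 3 * b * m ^ 2 + 1 - 3 * (b * m)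

lemma sb_le {b m : ℕ} (hm : 1 ≤ m) : 3 * (b * m) ≤ 3 * b * m ^ 2 := by nlinarith [Nat.zero_le b, Nat.zero_le (b * m)]

lemma sb_add {b m : ℕ} (hm : 1 ≤ m) : sb b m + 3 * (b * m) = 3 * b * m ^ 2 + 1 := by
  have := sb_le (b := b) hm
  unfold sb
  omega

lemma sb_succ (b m : ℕ) : sb b (m + 1) = 3 * b * m ^ 2 + (3 * (b * m) + 1) := by
  unfold sb
  have : 3 * b * (m + 1) ^ 2 + 1 = 3 * b * m ^ 2 + (3 * (b * m) + 1) + 3 * (b * (m + 1)) := by ring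
  omega

lemma sb_mono (b m : ℕ) : sb b m ≤ sb b (m + 1) := by
  rw [sb_succ]
  unfold sb
  omega

lemma sb_mono' (b M d : ℕ) : sb b M ≤ sb b (M + d) := by
  induction d with
  | zero => exact le_rfl
  | succ d ih => exact ih.trans (sb_mono b (M + d))

lemma block_eq {b m : ℕ} (hb : 1 ≤ b) (hm : 1 ≤ m) :
    ∑ n ∈ Ico (sb b m) (sb b (m + 1)), e (fb b (n : ℕ)) = loc b m (3 * (b * m) + 1) (3 * (b * m)) := by
  rw [sb_succ]
  unfold sb
  have h1 : 1 ≤ b * m := Nat.mul_pos hb hm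
  exact loc_eq hb (by omega) (sb_le hm)

lemma sum_blocks (b M d : ℕ) : ∑ m ∈ Ico M (M + d), ∑ n ∈ Ico (sb b m) (sb b (m + 1)), e (fb b (n : ℕ)) =
    ∑ n ∈ Ico (sb b M) (sb b (M + d)), e (fb b (n : ℕ)) := by
  induction d with
  | zero => simp
  | succ d ih =>
    rw [← add_assoc, sum_Ico_succ_top (by omega), ih]
    exact sum_Ico_consecutive _ (sb_mono' b M d) (sb_mono b _)

/-- **Many blocks.** -/
lemma big_blocks {b M d : ℕ} (hb : 1 ≤ b) (hM : 2 ≤ M)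
    (hbig : (129 : ℝ) ^ 4 ≤ M * Real.sqrt (b * M)) :
    2 / 5 * Real.sqrt (b * M) * d ≤ ‖∑ n ∈ Ico (sb b M) (sb b (M + d)), e (fb b (n : ℕ))‖ := by
  have hb1 : (1 : ℝ) ≤ b := by exact_mod_cast hb
  rw [← sum_blocks]
  have h1 : ‖∑ m ∈ Ico M (M + d), ∑ n ∈ Ico (sb b m) (sb b (m + 1)), e (fb b (n : ℕ))‖ =
      ‖e (-(1 / 8)) * ∑ m ∈ Ico M (M + d), ∑ n ∈ Ico (sb b m) (sb b (m + 1)), e (fb b (n : ℕ))‖ := by
    rw [norm_mul, norm_e, one_mul]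
  rw [h1]
  refine le_trans ?_ (Complex.re_le_norm _)
  rw [mul_sum, Complex.re_sum]
  have h2 : ∀ m ∈ Ico M (M + d), 2 / 5 * Real.sqrt (b * M) ≤
      (e (-(1 / 8)) * ∑ n ∈ Ico (sb b m) (sb b (m + 1)), e (fb b (n : ℕ))).re := by
    intro m hm
    rw [mem_Ico] at hm
    have hm2 : 2 ≤ m := by omega
    have hMm : (M : ℝ) ≤ m := by exact_mod_cast hm.1
    have hM0 : (0 : ℝ) < M := by exact_mod_cast (by omega : 0 < M)
    have h3 : Real.sqrt (b * M) ≤ Real.sqrt (b * m) := Real.sqrt_le_sqrt (by gcongr)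
    have h4 : (129 : ℝ) ^ 4 ≤ m * Real.sqrt (b * m) := hbig.trans (by gcongr)
    have h5 : 129 * Real.sqrt (b * m) ≤ b * m := by
      set r := Real.sqrt ((b : ℝ) * m) with hr
      have hbm : (0 : ℝ) < b * m := by positivity
      have hr0 : 0 < r := Real.sqrt_pos.mpr hbm
      have hr2 : r ^ 2 = b * m := Real.sq_sqrt hbm.le
      have hmr : (m : ℝ) ≤ r ^ 2 := by rw [hr2]; nlinarith
      have : 129 ≤ r := by
        by_contra hcon
        push Not at hcon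
        have h6 : (m : ℝ) * r ≤ r ^ 2 * r := mul_le_mul_of_nonneg_right hmr hr0.le
        have h7 : r ^ 2 * r < (129 : ℝ) ^ 4 := by nlinarith [mul_pos hr0 hr0]
        linarith
      rw [← hr2]
      nlinarith
    rw [block_eq hb (by omega)]
    refine (mul_le_mul_of_nonneg_left h3 (by norm_num)).trans ?_
    have hbm : (0 : ℝ) ≤ b * m := by positivity
    exact loc_re hb (by omega) h4 (by push_cast; linarith) le_rfl (by push_cast; linarith) le_rfl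
      (Or.inl hm2)
  have h3 := card_nsmul_le_sum _ _ _ h2
  rw [Nat.card_Ico, nsmul_eq_mul, Nat.add_sub_cancel_left] at h3
  linarith

/-- **One stationary point.** -/
lemma big_one {b L₁ L₂ : ℕ} (hb : 1 ≤ b) (hbig : (129 : ℝ) ^ 4 ≤ Real.sqrt b)
    (hL₁ : 129 * Real.sqrt b ≤ L₁) (hL₁' : L₁ ≤ 3 * b) (hL₂ : 129 * Real.sqrt b ≤ L₂)
    (hL₂' : L₂ ≤ 2 * b) :
    2 / 5 * Real.sqrt b ≤ ‖∑ n ∈ Ico (3 * b + 1 - L₂) (3 * b + L₁), e (fb b (n : ℕ))‖ := by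
  have hb0 : (0 : ℝ) < b := by exact_mod_cast (by omega : 0 < b)
  have hs : 0 < Real.sqrt b := Real.sqrt_pos.mpr hb0
  have hL₂1 : 1 ≤ L₂ := by
    have : (0 : ℝ) < L₂ := by linarith
    exact_mod_cast this
  have h1 := loc_eq (m := 1) (L₁ := L₁) hb hL₂1 (by omega)
  rw [show 3 * b * 1 ^ 2 = 3 * b by ring] at h1
  rw [h1]
  have h2 : ‖loc b 1 L₁ L₂‖ = ‖e (-(1 / 8)) * loc b 1 L₁ L₂‖ := by rw [norm_mul, norm_e, one_mul]
  rw [h2]
  refine le_trans ?_ (Complex.re_le_norm _)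
  have h3 := loc_re (b := b) (m := 1) (L₁ := L₁) (L₂ := L₂) hb le_rfl (by simpa using hbig) (by simpa using hL₁)
    (by omega) (by simpa using hL₂) (by omega) (Or.inr hL₂')
  simpa using h3

end Pool.Agent.H502.XP
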