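import Pool.Agent.H502.XP.L2
import Pool.Agent.H502.XP.Defs

/-!
# The sums of `e (T n^(3/2))` of size `√F`, for all `N ≤ F ≤ N^(3/2)`
-/

set_option autoImplicit false

open Finset
open Pool.Agent.H469R2.NK (e norm_e e_add e_zero e_nat)
open Pool.Agent.Q237.EP

namespace Pool.Agent.H502.XP

lemma e_exp (x : ℝ) : Complex.exp (2 * (Real.pi : ℂ) * Complex.I * ((x : ℝ) : ℂ)) = e x := by
  unfold Pool.Agent.H469R2.NK.e
  congr 1
  push_cast
  ring

lemma expSum_eq (f : ℝ → ℝ) (N N' : ℝ) :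
    expSum f N N' = ∑ n ∈ Finset.Icc ⌈N⌉₊ ⌊N'⌋₊, e (f ((n : ℕ) : ℝ)) := by
  unfold expSum
  exact Finset.sum_congr rfl fun n _ => e_exp _

lemma iter_fb {b : ℕ} {N x : ℝ} (hN : 0 < N) (hx : x ∈ Set.Icc N (2 * N)) (j : ℕ) :
    iteratedDerivWithin j (fb b) (Set.Icc N (2 * N)) x =
      1 / Real.sqrt b * iteratedDerivWithin j ff (Set.Icc N (2 * N)) x := by
  have hx0 : 0 < x := lt_of_lt_of_le hN hx.1
  rw [iter_ff hN hx]
  have hcd : ContDiffAt ℝ j (fb b) x := by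
    unfold fb
    exact contDiffAt_const.mul (Real.contDiffAt_rpow_const_of_ne hx0.ne')
  rw [iteratedDerivWithin_eq_iteratedDeriv (uniqueDiffOn_Icc (by linarith)) hcd hx]
  unfold fb
  rw [iteratedDeriv_const_mul_field]
  rw [iteratedDeriv_eq_iterate, Real.iter_deriv_rpow_const]
  unfold Tb P
  ring

lemma adm_fb {b : ℕ} (hb : 1 ≤ b) {N F c₁ c₂ : ℝ} (hN : 0 < N)
    (h1 : c₁ * F ≤ N ^ (3 / 2 : ℝ) / Real.sqrt b) (h2 : N ^ (3 / 2 : ℝ) / Real.sqrt b ≤ c₂ * F) :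
    Admissible (fun j => c₁ * cc j) (fun j => c₂ * CC j) N F (fb b) := by
  have hb0 : (0 : ℝ) < b := by exact_mod_cast (by omega : 0 < b)
  have hs : 0 < Real.sqrt b := Real.sqrt_pos.mpr hb0
  refine ⟨?_, fun j x hx => ?_⟩
  · intro x hx
    have hx0 : 0 < x := lt_of_lt_of_le hN hx.1
    apply ContDiffAt.contDiffWithinAt
    unfold fb
    exact contDiffAt_const.mul (Real.contDiffAt_rpow_const_of_ne hx0.ne')
  · obtain ⟨h3, h4⟩ := bounds_ff hN hx j
    rw [iter_fb hN hx j, abs_mul, abs_of_pos (by positivity : 0 < 1 / Real.sqrt b)]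
    have hcc := cc_pos j
    have hCC := CC_pos j
    have hNj : 0 < N ^ j := by positivity
    constructor
    · calc c₁ * cc j * F / N ^ j = cc j / N ^ j * (c₁ * F) := by ring
        _ ≤ cc j / N ^ j * (N ^ (3 / 2 : ℝ) / Real.sqrt b) := by gcongr
        _ = 1 / Real.sqrt b * (cc j * N ^ (3 / 2 : ℝ) / N ^ j) := by ring
        _ ≤ _ := by gcongr
    · calc 1 / Real.sqrt b * |iteratedDerivWithin j ff (Set.Icc N (2 * N)) x|
          ≤ 1 / Real.sqrt b * (CC j * N ^ (3 / 2 : ℝ) / N ^ j) := by gcongr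
        _ = CC j / N ^ j * (N ^ (3 / 2 : ℝ) / Real.sqrt b) := by ring
        _ ≤ CC j / N ^ j * (c₂ * F) := by gcongr
        _ = _ := by ring

/-- the first case: one stationary point -/
lemma low_one {N F : ℝ} (hN : (10 : ℝ) ^ 18 ≤ N) (hNF : N ≤ F) (hF : F ≤ 128 * N) :
    ∃ b : ℕ, 1 ≤ b ∧ 1 / 128 * F ≤ N ^ (3 / 2 : ℝ) / Real.sqrt b ∧
      N ^ (3 / 2 : ℝ) / Real.sqrt b ≤ 2 * F ∧
      1 / 1000 * Real.sqrt F ≤ ‖expSum (fb b) N (2 * N)‖ := by
  have hN0 : 0 < N := by linarith [pow_pos (by norm_num : (0:ℝ) < 10) 18]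
  have hb1 := Nat.floor_le (by positivity : 0 ≤ N / 2)
  have hb2 := Nat.lt_floor_add_one (N / 2)
  set b := ⌊N / 2⌋₊ with hb
  have hN18 : (10 : ℝ) ^ 18 = 1000000000000000000 := by norm_num
  rw [hN18] at hN
  have hbl : N / 4 ≤ b := by linarith
  have hb0 : (0 : ℝ) < b := by linarith
  have hb' : 1 ≤ b := by exact_mod_cast hb0
  set n := Real.sqrt N with hn
  have hn0 : 0 < n := Real.sqrt_pos.mpr hN0
  have hn2 : n ^ 2 = N := Real.sq_sqrt hN0.le
  set r := Real.sqrt (b : ℝ) with hr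
  have hr0 : 0 < r := Real.sqrt_pos.mpr hb0
  have hr2 : r ^ 2 = b := Real.sq_sqrt hb0.le
  have hrn : r ≤ n := Real.sqrt_le_sqrt (by linarith)
  have hnr : n / 2 ≤ r := by
    apply Real.le_sqrt_of_sq_le
    have : (n / 2) ^ 2 = N / 4 := by rw [← hn2]; ring
    linarith
  have h32 : N ^ (3 / 2 : ℝ) = N * n := by
    rw [show (3 / 2 : ℝ) = 1 + 1 / 2 by norm_num, Real.rpow_add hN0, Real.rpow_one, hn, Real.sqrt_eq_rpow]
  have hr129 : (129 : ℝ) ^ 4 ≤ r := by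
    apply Real.le_sqrt_of_sq_le
    have : ((129 : ℝ) ^ 4) ^ 2 = 76686282021340161 := by norm_num
    rw [this]
    linarith
  have hr130 : (1000 : ℝ) ≤ r := by
    have : (129 : ℝ) ^ 4 = 276922881 := by norm_num
    linarith
  have hceil := Nat.le_ceil N
  have hceil2 := Nat.ceil_lt_add_one hN0.le
  have hfl := Nat.floor_le (by positivity : 0 ≤ 2 * N)
  have hfl2 := Nat.lt_floor_add_one (2 * N)
  refine ⟨b, hb', ?_, ?_, ?_⟩
  · rw [h32, le_div_iff₀ hr0]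
    calc 1 / 128 * F * r ≤ 1 / 128 * (128 * N) * n := by gcongr
      _ = N * n := by ring
  · rw [h32, div_le_iff₀ hr0]
    have h7 : n ≤ 2 * r := by linarith
    have hF0 : 0 ≤ F := by linarith
    calc N * n ≤ F * (2 * r) := by gcongr
      _ = 2 * F * r := by ring
  · have hle1 : ⌈N⌉₊ ≤ 3 * b + 1 := by
      have : ((⌈N⌉₊ : ℕ) : ℝ) ≤ ((3 * b + 1 : ℕ) : ℝ) := by push_cast; linarith
      exact_mod_cast this
    have hle2 : 3 * b ≤ ⌊2 * N⌋₊ + 1 := by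
      have : ((3 * b : ℕ) : ℝ) ≤ ((⌊2 * N⌋₊ + 1 : ℕ) : ℝ) := by push_cast; linarith
      exact_mod_cast this
    have h := big_one (b := b) (L₁ := ⌊2 * N⌋₊ + 1 - 3 * b) (L₂ := 3 * b + 1 - ⌈N⌉₊) hb' hr129
      (by
        rw [Nat.cast_sub hle2]
        push_cast
        rw [← hr]
        nlinarith)
      (by
        have : ((⌊2 * N⌋₊ + 1 : ℕ) : ℝ) ≤ ((3 * b + 3 * b : ℕ) : ℝ) := by push_cast; linarith
        have h5 : ⌊2 * N⌋₊ + 1 ≤ 3 * b + 3 * b := by exact_mod_cast this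
        omega)
      (by
        rw [Nat.cast_sub hle1]
        push_cast
        rw [← hr]
        nlinarith)
      (by
        have : ((b + 1 : ℕ) : ℝ) ≤ ((⌈N⌉₊ : ℕ) : ℝ) := by push_cast; linarith
        have h5 : b + 1 ≤ ⌈N⌉₊ := by exact_mod_cast this
        omega)
    rw [show 3 * b + 1 - (3 * b + 1 - ⌈N⌉₊) = ⌈N⌉₊ by omega,
      show 3 * b + (⌊2 * N⌋₊ + 1 - 3 * b) = ⌊2 * N⌋₊ + 1 by omega] at h
    rw [expSum_eq]
    have e1 : Finset.Icc ⌈N⌉₊ ⌊2 * N⌋₊ = Finset.Ico ⌈N⌉₊ (⌊2 * N⌋₊ + 1) := by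
      ext k
      simp only [Finset.mem_Icc, Finset.mem_Ico]
      omega
    rw [e1]
    refine le_trans ?_ h
    have h6 : Real.sqrt F ≤ 12 * n := by
      rw [Real.sqrt_le_left (by positivity)]
      nlinarith
    linarith

/-- the second case: many stationary points -/
lemma low_many {N F : ℝ} (hN : (10 : ℝ) ^ 18 ≤ N) (hNF : 128 * N ≤ F) (hF : F ≤ N ^ (3 / 2 : ℝ)) :
    ∃ b : ℕ, 1 ≤ b ∧ 1 / 128 * F ≤ N ^ (3 / 2 : ℝ) / Real.sqrt b ∧
      N ^ (3 / 2 : ℝ) / Real.sqrt b ≤ 2 * F ∧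
      ∃ N' : ℝ, N ≤ N' ∧ N' ≤ 2 * N ∧ 1 / 1000 * Real.sqrt F ≤ ‖expSum (fb b) N N'‖ := by
  have hN0 : 0 < N := by linarith [pow_pos (by norm_num : (0:ℝ) < 10) 18]
  have hN18 : (10 : ℝ) ^ 18 = 1000000000000000000 := by norm_num
  rw [hN18] at hN
  have hF0 : 0 < F := by linarith
  set n := Real.sqrt N with hn
  have hn0 : 0 < n := Real.sqrt_pos.mpr hN0
  have hn2 : n ^ 2 = N := Real.sq_sqrt hN0.le
  have h32 : N ^ (3 / 2 : ℝ) = N * n := by
    rw [show (3 / 2 : ℝ) = 1 + 1 / 2 by norm_num, Real.rpow_add hN0, Real.rpow_one, hn, Real.sqrt_eq_rpow]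
  rw [h32] at hF ⊢
  -- the parameter `t = F / (4 N)`
  set t := F / (4 * N) with ht
  have hFt : F = 4 * N * t := by rw [ht]; field_simp
  have ht32 : 32 ≤ t := by
    rw [ht, le_div_iff₀ (by positivity)]
    linarith
  have htn : t ≤ n / 4 := by
    rw [ht, div_le_iff₀ (by positivity)]
    nlinarith
  have hM1 := Nat.le_ceil t
  have hM2 := Nat.ceil_lt_add_one (by linarith : 0 ≤ t)
  set M := ⌈t⌉₊ with hM
  have hM3 : (M : ℝ) ≤ 33 / 32 * t := by linarith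
  have hM32 : (32 : ℝ) ≤ M := by linarith
  have hM0 : (0 : ℝ) < M := by linarith
  have hMn : (M : ℝ) ≤ 33 / 128 * n := by linarith
  have hM32' : 32 ≤ M := by exact_mod_cast hM32
  have hMsq : (M : ℝ) ^ 2 ≤ 17 / 250 * N := by
    rw [← hn2]
    have : (M : ℝ) ^ 2 ≤ (33 / 128 * n) ^ 2 := by gcongr
    nlinarith [sq_nonneg n]
  have hb1 := Nat.floor_le (by positivity : 0 ≤ N / (2 * (M : ℝ) ^ 2))
  have hb2 := Nat.lt_floor_add_one (N / (2 * (M : ℝ) ^ 2))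
  set b := ⌊N / (2 * (M : ℝ) ^ 2)⌋₊ with hb
  have hM2pos : (0 : ℝ) < 2 * (M : ℝ) ^ 2 := by positivity
  have hbu : (b : ℝ) * M ^ 2 ≤ N / 2 := by
    rw [le_div_iff₀ hM2pos] at hb1
    linarith
  have hbl : 54 / 125 * N ≤ (b : ℝ) * M ^ 2 := by
    rw [div_lt_iff₀ hM2pos] at hb2
    nlinarith
  have hb0 : (0 : ℝ) < b := by
    by_contra hcon
    push Not at hcon
    have : (b : ℝ) * M ^ 2 ≤ 0 := mul_nonpos_of_nonpos_of_nonneg hcon (by positivity)
    linarith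
  have hb' : 1 ≤ b := by exact_mod_cast hb0
  set r := Real.sqrt (b : ℝ) with hr
  have hr0 : 0 < r := Real.sqrt_pos.mpr hb0
  have hr2 : r ^ 2 = b := Real.sq_sqrt hb0.le
  have hrM : r * M ≤ n := by
    apply Real.le_sqrt_of_sq_le
    rw [mul_pow, hr2]
    linarith
  have hrM2 : n / 2 ≤ r * M := by
    have h1 : (n / 2) ^ 2 ≤ (r * M) ^ 2 := by
      rw [mul_pow, hr2, div_pow, hn2]
      linarith
    exact le_of_sq_le_sq h1 (by positivity)
  refine ⟨b, hb', ?_, ?_, ?_⟩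
  · rw [le_div_iff₀ hr0]
    have h1 : N * t * r ≤ N * n := by
      have : t * r ≤ n := by
        calc t * r ≤ M * r := by gcongr
          _ = r * M := by ring
          _ ≤ n := hrM
      nlinarith
    rw [hFt]
    have h2 : 0 < N * n := by positivity
    nlinarith
  · rw [div_le_iff₀ hr0]
    have h1 : N * n ≤ N * (2 * (r * M)) := by gcongr; linarith
    have h2 : N * (2 * (r * M)) ≤ N * (2 * (r * (33 / 32 * t))) := by gcongr
    rw [hFt]
    have h3 : 0 < N * (r * t) := by positivity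
    nlinarith
  · -- the blocks
    set d := M / 16 with hd
    have hd1 : 16 * d ≤ M := by omega
    have hd2 : M ≤ 32 * d := by omega
    have hd1R : (d : ℝ) ≤ M / 16 := by
      have : ((16 * d : ℕ) : ℝ) ≤ M := by exact_mod_cast hd1
      push_cast at this
      linarith
    have hd2R : (M : ℝ) / 32 ≤ d := by
      have : (M : ℝ) ≤ ((32 * d : ℕ) : ℝ) := by exact_mod_cast hd2
      push_cast at this
      linarith
    have hbM3 : 1 / 10 * F ≤ (b : ℝ) * M ^ 3 := by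
      rw [hFt]
      calc 1 / 10 * (4 * N * t) ≤ (54 / 125 * N) * t := by nlinarith [mul_pos hN0 (by linarith : 0 < t)]
        _ ≤ ((b : ℝ) * M ^ 2) * M := by gcongr
        _ = _ := by ring
    have hsqrt : (M : ℝ) * Real.sqrt (b * M) = Real.sqrt (b * M ^ 3) := by
      have e1 : (b : ℝ) * M ^ 3 = (M : ℝ) ^ 2 * (b * M) := by ring
      rw [e1, Real.sqrt_mul (sq_nonneg (M : ℝ)) ((b : ℝ) * M), Real.sqrt_sq hM0.le]
    have hbig : (129 : ℝ) ^ 4 ≤ M * Real.sqrt (b * M) := by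
      rw [hsqrt]
      apply Real.le_sqrt_of_sq_le
      have : ((129 : ℝ) ^ 4) ^ 2 = 76686282021340161 := by norm_num
      rw [this]
      linarith
    have h := big_blocks (d := d) hb' (by omega : 2 ≤ M) hbig
    have hlow : 1 / 500 * Real.sqrt F ≤ ‖∑ k ∈ Ico (sb b M) (sb b (M + d)), e (fb b (k : ℕ))‖ := by
      refine le_trans ?_ h
      have h1 : Real.sqrt (1 / 10 * F) ≤ M * Real.sqrt (b * M) := by
        rw [hsqrt]
        exact Real.sqrt_le_sqrt hbM3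
      have h2 : 1 / 4 * Real.sqrt F ≤ Real.sqrt (1 / 10 * F) := by
        apply Real.le_sqrt_of_sq_le
        rw [mul_pow, Real.sq_sqrt hF0.le]
        linarith
      have h3 : 2 / 5 * Real.sqrt (b * M) * (M / 32) ≤ 2 / 5 * Real.sqrt (b * M) * d := by gcongr
      nlinarith [Real.sqrt_nonneg F]
    -- the position of the blocks
    have hsb1 := sb_add (b := b) (m := M) (by omega)
    have hsb2 := sb_add (b := b) (m := M + d) (by omega)
    have hsb1R : ((sb b M : ℕ) : ℝ) + 3 * (b * M) = 3 * b * (M : ℝ) ^ 2 + 1 := by exact_mod_cast hsb1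
    have hsb2R : ((sb b (M + d) : ℕ) : ℝ) + 3 * (b * ((M : ℝ) + d)) = 3 * b * ((M : ℝ) + d) ^ 2 + 1 := by
      exact_mod_cast hsb2
    have hmono := sb_mono' b M d
    have hbM : (b : ℝ) * M ≤ (b * M ^ 2) / 32 := by
      rw [le_div_iff₀ (by norm_num)]
      have : (b : ℝ) * M * 32 ≤ b * M * M := by gcongr
      linarith
    have hs1 : 5 / 4 * N ≤ (sb b M : ℕ) := by linarith
    have hbM0 : (0 : ℝ) ≤ b * ((M : ℝ) + d) := by positivity
    have hs2 : ((sb b (M + d) : ℕ) : ℝ) ≤ 2 * N := by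
      have h1 : ((M : ℝ) + d) ^ 2 ≤ (17 / 16 * M) ^ 2 := by gcongr; linarith
      have h2 : (b : ℝ) * ((M : ℝ) + d) ^ 2 ≤ b * (17 / 16 * M) ^ 2 := by gcongr
      have h3 : (b : ℝ) * (17 / 16 * M) ^ 2 = 289 / 256 * (b * M ^ 2) := by ring
      nlinarith
    have hlt : sb b M < sb b (M + d) ∨ sb b M = sb b (M + d) := lt_or_eq_of_le hmono
    have hceil := Nat.ceil_lt_add_one hN0.le
    have hS : ⌈N⌉₊ + 1 ≤ sb b M := by
      have : ((⌈N⌉₊ + 1 : ℕ) : ℝ) ≤ ((sb b M : ℕ) : ℝ) := by push_cast; linarith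
      exact_mod_cast this
    have hS1 : 1 ≤ sb b M := by
      clear hsb1 hsb2
      omega
    have hsplit : ∑ k ∈ Ico (sb b M) (sb b (M + d)), e (fb b (k : ℕ)) =
        expSum (fb b) N ((sb b (M + d) - 1 : ℕ) : ℝ) - expSum (fb b) N ((sb b M - 1 : ℕ) : ℝ) := by
      rw [expSum_eq, expSum_eq, Nat.floor_natCast, Nat.floor_natCast]
      have e1 : ∀ k : ℕ, 1 ≤ k → Finset.Icc ⌈N⌉₊ (k - 1) = Finset.Ico ⌈N⌉₊ k := by
        intro k hk
        ext l
        simp only [Finset.mem_Icc, Finset.mem_Ico]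
        omega
      rw [e1 _ hS1, e1 _ (hS1.trans hmono)]
      have := Finset.sum_Ico_consecutive (fun k : ℕ => e (fb b (k : ℝ))) ((Nat.le_succ _).trans hS) hmono
      rw [← this]
      ring
    have hcast1 : (((sb b M - 1 : ℕ) : ℝ)) = (sb b M : ℕ) - 1 := by rw [Nat.cast_sub hS1]; simp
    have hcast2 : (((sb b (M + d) - 1 : ℕ) : ℝ)) = (sb b (M + d) : ℕ) - 1 := by
      rw [Nat.cast_sub (hS1.trans hmono)]; simp
    have hmonoR : ((sb b M : ℕ) : ℝ) ≤ (sb b (M + d) : ℕ) := by exact_mod_cast hmono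
    rw [hsplit] at hlow
    have hor : 1 / 1000 * Real.sqrt F ≤ ‖expSum (fb b) N ((sb b (M + d) - 1 : ℕ) : ℝ)‖ ∨
        1 / 1000 * Real.sqrt F ≤ ‖expSum (fb b) N ((sb b M - 1 : ℕ) : ℝ)‖ := by
      by_contra hcon
      push Not at hcon
      have := norm_sub_le (expSum (fb b) N ((sb b (M + d) - 1 : ℕ) : ℝ)) (expSum (fb b) N ((sb b M - 1 : ℕ) : ℝ))
      linarith [hcon.1, hcon.2]
    rcases hor with h5 | h5
    · exact ⟨_, by rw [hcast2]; linarith, by rw [hcast2]; linarith, h5⟩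
    · exact ⟨_, by rw [hcast1]; linarith, by rw [hcast1]; linarith, h5⟩

/-- **The second derivative test is sharp in the whole range `N ≤ F ≤ N^(3/2)`.** -/
theorem lower : ∃ c C : ℕ → ℝ, (∀ j, 0 < c j) ∧ (∀ j, 0 < C j) ∧ ∃ N₀ : ℝ, ∀ N F : ℝ, N₀ ≤ N → N ≤ F →
    F ≤ N ^ (3 / 2 : ℝ) → ∃ T : ℝ, 0 < T ∧ Admissible c C N F (fun x => T * x ^ (3 / 2 : ℝ)) ∧
      ∃ N' : ℝ, N ≤ N' ∧ N' ≤ 2 * N ∧
        1 / 1000 * Real.sqrt F ≤ ‖expSum (fun x => T * x ^ (3 / 2 : ℝ)) N N'‖ := by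
  refine ⟨fun j => 1 / 128 * cc j, fun j => 2 * CC j, fun j => by have := cc_pos j; positivity,
    fun j => by have := CC_pos j; positivity, (10 : ℝ) ^ 18, fun N F hN hNF hF => ?_⟩
  have hN0 : 0 < N := by linarith [pow_pos (by norm_num : (0:ℝ) < 10) 18]
  rcases le_total F (128 * N) with h | h
  · obtain ⟨b, hb, h1, h2, h3⟩ := low_one hN hNF h
    exact ⟨Tb b, Tb_pos hb, adm_fb hb hN0 h1 h2, 2 * N, by linarith, le_rfl, h3⟩
  · obtain ⟨b, hb, h1, h2, N', h3, h4, h5⟩ := low_many hN h hF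
    exact ⟨Tb b, Tb_pos hb, adm_fb hb hN0 h1 h2, N', h3, h4, h5⟩

end Pool.Agent.H502.XP
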