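import Mathlib

/-!
# `B m^(d + 1/2)` is close to an integer if `√m` is close to an integer
-/

set_option autoImplicit false

open Finset

namespace Pool.Agent.H502.XP

/-- the binomial coefficient `binom (d + 1/2, j)` -/
noncomputable def ba (d j : ℕ) : ℝ := (∏ i ∈ range j, ((d : ℝ) + 1 / 2 - i)) / j.factorial

lemma ba_zero (d : ℕ) : ba d 0 = 1 := by simp [ba]

lemma ba_succ (d j : ℕ) : ba (d + 1) (j + 1) * (j + 1) = ((d : ℝ) + 1 + 1 / 2) * ba d j := by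
  unfold ba
  rw [prod_range_succ', Nat.factorial_succ]
  have h1 : ∏ k ∈ range j, (((d + 1 : ℕ) : ℝ) + 1 / 2 - ((k + 1 : ℕ) : ℝ)) =
      ∏ k ∈ range j, ((d : ℝ) + 1 / 2 - k) := by
    apply prod_congr rfl
    intro k _
    push_cast
    ring
  rw [h1]
  have h2 : (j.factorial : ℝ) ≠ 0 := by positivity
  have h3 : ((j : ℝ) + 1) ≠ 0 := by positivity
  push_cast
  field_simp
  ring

/-- the Taylor polynomial of `(μ² + w)^(d + 1/2)` -/
noncomputable def tp (d : ℕ) (μ w : ℝ) : ℝ := ∑ j ∈ range (d + 1), ba d j * μ ^ (2 * (d - j) + 1) * w ^ j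

lemma tp_zero (d : ℕ) (μ : ℝ) : tp d μ 0 = μ ^ (2 * d + 1) := by
  unfold tp
  rw [sum_range_succ']
  simp [ba_zero]

lemma tp_deriv (d : ℕ) (μ w : ℝ) :
    HasDerivAt (tp (d + 1) μ) (((d : ℝ) + 1 + 1 / 2) * tp d μ w) w := by
  have h1 : HasDerivAt (tp (d + 1) μ) (∑ j ∈ range (d + 1 + 1),
      ba (d + 1) j * μ ^ (2 * (d + 1 - j) + 1) * ((j : ℝ) * w ^ (j - 1))) w := by
    unfold tp
    apply HasDerivAt.fun_sum
    intro j _
    exact (hasDerivAt_pow j w).const_mul _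
  convert h1 using 1
  rw [sum_range_succ']
  simp only [Nat.cast_zero, zero_mul, mul_zero, add_zero]
  unfold tp
  rw [mul_sum]
  apply sum_congr rfl
  intro j hj
  have h2 := ba_succ d j
  have h3 : d + 1 - (j + 1) = d - j := by omega
  rw [h3, Nat.add_sub_cancel]
  push_cast
  calc ((d : ℝ) + 1 + 1 / 2) * (ba d j * μ ^ (2 * (d - j) + 1) * w ^ j)
      = (((d : ℝ) + 1 + 1 / 2) * ba d j) * μ ^ (2 * (d - j) + 1) * w ^ j := by ring
    _ = (ba (d + 1) (j + 1) * (j + 1)) * μ ^ (2 * (d - j) + 1) * w ^ j := by rw [h2]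
    _ = _ := by ring

/-- the constants of the remainder -/
noncomputable def cr (d : ℕ) : ℝ := ∏ i ∈ range d, ((i : ℝ) + 1 + 1 / 2)

lemma cr_pos (d : ℕ) : 0 < cr d := prod_pos fun i _ => by positivity

lemma cr_succ (d : ℕ) : cr (d + 1) = ((d : ℝ) + 1 + 1 / 2) * cr d := by
  unfold cr
  rw [prod_range_succ, mul_comm]

lemma taylor (d : ℕ) {μ w : ℝ} (hμ : 0 < μ) (hw : -μ ^ 2 < w) :
    |(μ ^ 2 + w) ^ ((d : ℝ) + 1 / 2) - tp d μ w| ≤ cr d * |w| ^ (d + 1) / μ := by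
  induction d generalizing w with
  | zero =>
    have h1 : tp 0 μ w = μ := by simp [tp, ba_zero]
    have h0 : 0 < μ ^ 2 + w := by linarith
    rw [h1]
    have h2 : (μ ^ 2 + w) ^ (((0 : ℕ) : ℝ) + 1 / 2) = Real.sqrt (μ ^ 2 + w) := by
      rw [Real.sqrt_eq_rpow]
      norm_num
    rw [h2]
    set s := Real.sqrt (μ ^ 2 + w) with hs
    have hs0 : 0 ≤ s := Real.sqrt_nonneg _
    have hs2 : s ^ 2 = μ ^ 2 + w := Real.sq_sqrt h0.le
    have h3 : (s - μ) * (s + μ) = w := by linarith [hs2, show (s - μ) * (s + μ) = s ^ 2 - μ ^ 2 by ring]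
    have h4 : |s - μ| * (s + μ) = |w| := by
      rw [← h3, abs_mul, abs_of_pos (by linarith : 0 < s + μ)]
    simp only [cr, range_zero, prod_empty, one_mul, zero_add, pow_one]
    rw [le_div_iff₀ hμ, ← h4]
    exact mul_le_mul_of_nonneg_left (by linarith) (abs_nonneg _)
  | succ d ih =>
    set h : ℝ → ℝ := fun t => (μ ^ 2 + t) ^ (((d + 1 : ℕ) : ℝ) + 1 / 2) - tp (d + 1) μ t with hh
    have hd : ∀ t ∈ Set.uIcc 0 w, HasDerivWithinAt h
        (((d : ℝ) + 1 + 1 / 2) * ((μ ^ 2 + t) ^ ((d : ℝ) + 1 / 2) - tp d μ t)) (Set.uIcc 0 w) t := by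
      intro t ht
      apply HasDerivAt.hasDerivWithinAt
      have ht1 : -μ ^ 2 < t := by
        rcases le_total 0 w with h1 | h1
        · rw [Set.uIcc_of_le h1] at ht
          have := ht.1
          have : 0 < μ ^ 2 := by positivity
          linarith
        · rw [Set.uIcc_of_ge h1] at ht
          linarith [ht.1]
      have h1 : HasDerivAt (fun t : ℝ => μ ^ 2 + t) 1 t := (hasDerivAt_id t).const_add _
      have h2 := h1.rpow_const (p := ((d + 1 : ℕ) : ℝ) + 1 / 2) (Or.inl (by linarith : 0 < μ ^ 2 + t).ne')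
      have h3 : HasDerivAt h (1 * (((d + 1 : ℕ) : ℝ) + 1 / 2) *
          (μ ^ 2 + t) ^ (((d + 1 : ℕ) : ℝ) + 1 / 2 - 1) - ((d : ℝ) + 1 + 1 / 2) * tp d μ t) t :=
        h2.sub (tp_deriv d μ t)
      have e3 : 1 * (((d + 1 : ℕ) : ℝ) + 1 / 2) *
          (μ ^ 2 + t) ^ (((d + 1 : ℕ) : ℝ) + 1 / 2 - 1) - ((d : ℝ) + 1 + 1 / 2) * tp d μ t =
          ((d : ℝ) + 1 + 1 / 2) * ((μ ^ 2 + t) ^ ((d : ℝ) + 1 / 2) - tp d μ t) := by
        push_cast
        rw [show (d : ℝ) + 1 + 1 / 2 - 1 = d + 1 / 2 by ring]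
        ring
      rwa [e3] at h3
    have hb : ∀ t ∈ Set.uIcc 0 w, ‖((d : ℝ) + 1 + 1 / 2) * ((μ ^ 2 + t) ^ ((d : ℝ) + 1 / 2) - tp d μ t)‖ ≤
        ((d : ℝ) + 1 + 1 / 2) * (cr d * |w| ^ (d + 1) / μ) := by
      intro t ht
      have ht1 : -μ ^ 2 < t := by
        rcases le_total 0 w with h1 | h1
        · rw [Set.uIcc_of_le h1] at ht
          have := ht.1
          have : 0 < μ ^ 2 := by positivity
          linarith
        · rw [Set.uIcc_of_ge h1] at ht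
          linarith [ht.1]
      have ht2 : |t| ≤ |w| := by
        rcases le_total 0 w with h1 | h1
        · rw [Set.uIcc_of_le h1] at ht
          rw [abs_of_nonneg ht.1, abs_of_nonneg h1]
          exact ht.2
        · rw [Set.uIcc_of_ge h1] at ht
          rw [abs_of_nonpos ht.2, abs_of_nonpos h1]
          linarith [ht.1]
      rw [Real.norm_eq_abs, abs_mul, abs_of_pos (by positivity : 0 < (d : ℝ) + 1 + 1 / 2)]
      apply mul_le_mul_of_nonneg_left _ (by positivity)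
      refine (ih ht1).trans ?_
      have := cr_pos d
      gcongr
    have key := (convex_uIcc (0 : ℝ) w).norm_image_sub_le_of_norm_hasDerivWithin_le hd hb
      Set.left_mem_uIcc Set.right_mem_uIcc
    have h0 : h 0 = 0 := by
      simp only [hh, add_zero, tp_zero]
      rw [← Real.rpow_natCast μ 2, ← Real.rpow_mul hμ.le, ← Real.rpow_natCast, sub_eq_zero]
      congr 1
      push_cast
      ring
    rw [h0, sub_zero, sub_zero, Real.norm_eq_abs, Real.norm_eq_abs] at key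
    refine key.trans (le_of_eq ?_)
    rw [cr_succ, pow_succ |w| (d + 1)]
    ring

/-- the factor -/
def Bd (d : ℕ) : ℕ := 2 ^ d * d.factorial

lemma Bd_pos (d : ℕ) : 0 < Bd d := by unfold Bd; positivity

lemma Bd_ba {d j : ℕ} (hj : j ≤ d) : ∃ z : ℤ, (Bd d : ℝ) * ba d j = z := by
  obtain ⟨k, hk⟩ := Nat.factorial_dvd_factorial hj
  refine ⟨2 ^ (d - j) * k * ∏ i ∈ range j, (2 * (d : ℤ) + 1 - 2 * i), ?_⟩
  unfold ba Bd
  rw [hk]
  have h1 : ∏ i ∈ range j, ((d : ℝ) + 1 / 2 - i) = (∏ i ∈ range j, (2 * (d : ℝ) + 1 - 2 * i)) / 2 ^ j := by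
    rw [eq_div_iff (by positivity)]
    have h4 : (2 : ℝ) ^ j = ∏ _i ∈ range j, (2 : ℝ) := by rw [prod_const, card_range]
    rw [h4, ← prod_mul_distrib]
    exact prod_congr rfl fun i _ => by ring
  rw [h1]
  have h2 : (j.factorial : ℝ) ≠ 0 := by positivity
  have h3 : (2 : ℝ) ^ d = 2 ^ (d - j) * 2 ^ j := by rw [← pow_add, Nat.sub_add_cancel hj]
  push_cast
  rw [h3]
  field_simp

lemma near_int {d m μ : ℕ} (hm : 1 ≤ m) (hμ : 1 ≤ μ) : ∃ z : ℤ,
    |(Bd d : ℝ) * (m : ℝ) ^ ((d : ℝ) + 1 / 2) - z| ≤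
      Bd d * cr d * |(m : ℝ) - (μ : ℝ) ^ 2| ^ (d + 1) / μ := by
  have hm0 : (0 : ℝ) < m := by exact_mod_cast hm
  have hμ0 : (0 : ℝ) < μ := by exact_mod_cast hμ
  have h1 := taylor d hμ0 (w := (m : ℝ) - (μ : ℝ) ^ 2) (by linarith)
  rw [show (μ : ℝ) ^ 2 + ((m : ℝ) - (μ : ℝ) ^ 2) = m by ring] at h1
  have h2 : ∃ z : ℤ, (Bd d : ℝ) * tp d μ ((m : ℝ) - (μ : ℝ) ^ 2) = z := by
    unfold tp
    rw [mul_sum]
    have h3 : ∀ j : ℕ, ∃ z : ℤ, j ∈ range (d + 1) →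
        (Bd d : ℝ) * (ba d j * (μ : ℝ) ^ (2 * (d - j) + 1) * ((m : ℝ) - (μ : ℝ) ^ 2) ^ j) = z := by
      intro j
      by_cases hj : j ∈ range (d + 1)
      · obtain ⟨z, hz⟩ := Bd_ba (d := d) (j := j) (by rw [mem_range] at hj; omega)
        refine ⟨z * (μ : ℤ) ^ (2 * (d - j) + 1) * ((m : ℤ) - (μ : ℤ) ^ 2) ^ j, fun _ => ?_⟩
        push_cast
        rw [← hz]
        ring
      · exact ⟨0, fun h => absurd h hj⟩
    choose z hz using h3
    refine ⟨∑ j ∈ range (d + 1), z j, ?_⟩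
    push_cast
    exact sum_congr rfl fun j hj => hz j hj
  obtain ⟨z, hz⟩ := h2
  refine ⟨z, ?_⟩
  have hB : (0 : ℝ) < Bd d := by exact_mod_cast Bd_pos d
  rw [← hz, ← mul_sub, abs_mul, abs_of_pos hB]
  calc (Bd d : ℝ) * |(m : ℝ) ^ ((d : ℝ) + 1 / 2) - tp d μ ((m : ℝ) - (μ : ℝ) ^ 2)|
      ≤ Bd d * (cr d * |(m : ℝ) - (μ : ℝ) ^ 2| ^ (d + 1) / μ) := by gcongr
    _ = _ := by ring

end Pool.Agent.H502.XP
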