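import Pool.Agent.H502.XP.L1

/-!
# The kernel of Fejér and averages of exponential sums
-/

set_option autoImplicit false

open Finset
open Pool.Agent.H469R2.NK (e norm_e e_add e_zero e_nat conj_e cc cc_mul norm_cc_le sin_pos_of)
open Pool.Agent.Q237.EP

namespace Pool.Agent.H502.XP

/-- the kernel of Fejér, with the value `1` at `0` -/
noncomputable def W (K : ℕ) (x : ℝ) : ℝ := ‖∑ k ∈ range K, e (k * x)‖ ^ 2 / (K : ℝ) ^ 2

lemma W_nonneg (K : ℕ) (x : ℝ) : 0 ≤ W K x := by unfold W; positivity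

lemma W_neg (K : ℕ) (x : ℝ) : W K (-x) = W K x := by
  unfold W
  congr 2
  rw [← Complex.norm_conj, map_sum]
  congr 1
  apply sum_congr rfl
  intro k _
  rw [conj_e]
  congr 1
  ring

lemma W_sub_nat (K : ℕ) (x : ℝ) (μ : ℕ) : W K (x - μ) = W K x := by
  unfold W
  congr 3
  apply sum_congr rfl
  intro k _
  have h : (k : ℝ) * x = k * (x - μ) + ((k * μ : ℤ) : ℝ) := by push_cast; ring
  rw [h, e_add_int]

lemma e_sub_one_le (x : ℝ) : ‖e x - 1‖ ≤ 2 * Real.pi * |x| := by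
  have h2 := Real.norm_exp_I_mul_ofReal_sub_one_le (x := 2 * Real.pi * x)
  unfold Pool.Agent.H469R2.NK.e
  rw [mul_comm]
  refine h2.trans ?_
  have := Real.pi_pos
  rw [Real.norm_eq_abs, abs_mul, abs_of_pos (by positivity)]

lemma e_nat_mul (k : ℕ) (x : ℝ) : e (k * x) = e x ^ k := by
  induction k with
  | zero => simp [e_zero]
  | succ k ih =>
    rw [pow_succ, ← ih, ← e_add]
    congr 1
    push_cast
    ring

/-- upper bound -/
lemma W_le {K : ℕ} (hK : 1 ≤ K) {t : ℝ} (h0 : 0 < |t|) (h1 : |t| ≤ 1 / 2) :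
    W K t ≤ 1 / (K : ℝ) ^ 2 * (1 / t ^ 2) := by
  have hK0 : (0 : ℝ) < K := by exact_mod_cast hK
  -- it is enough to treat `0 < t`
  have key : ∀ u : ℝ, 0 < u → u ≤ 1 / 2 → W K u ≤ 1 / (K : ℝ) ^ 2 * (1 / u ^ 2) := by
    intro u hu hu1
    have hs := cc_mul (sin_pos_of hu (by linarith)).ne'
    have hg : (∑ k ∈ range K, e (k * u)) * (1 - e u) = 1 - e (K * u) := by
      simp only [e_nat_mul]
      exact geom_sum_mul_neg (e u) K
    have hS : ∑ k ∈ range K, e (k * u) = (1 - e (K * u)) * cc u := by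
      calc ∑ k ∈ range K, e (k * u) = (∑ k ∈ range K, e (k * u)) * (cc u * (1 - e u)) := by rw [hs, mul_one]
        _ = ((∑ k ∈ range K, e (k * u)) * (1 - e u)) * cc u := by ring
        _ = _ := by rw [hg]
    have hn : ‖∑ k ∈ range K, e (k * u)‖ ≤ 1 / u := by
      rw [hS, norm_mul]
      have h2 : ‖1 - e (K * u)‖ ≤ 2 := by
        refine (norm_sub_le _ _).trans ?_
        rw [norm_e, norm_one]
        norm_num
      have h3 := norm_cc_le hu le_rfl (by linarith : u ≤ 1 - u)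
      have h4 : 1 / 2 + 1 / (4 * u) ≤ 1 / (2 * u) := by
        rw [div_add_div _ _ (by norm_num) (by positivity), div_le_div_iff₀ (by positivity) (by positivity)]
        nlinarith
      calc ‖1 - e (K * u)‖ * ‖cc u‖ ≤ 2 * (1 / (2 * u)) := by
            apply mul_le_mul h2 (h3.trans h4) (norm_nonneg _) (by norm_num)
        _ = 1 / u := by field_simp
    unfold W
    have h5 : ‖∑ k ∈ range K, e (k * u)‖ ^ 2 ≤ (1 / u) ^ 2 := by gcongr
    calc ‖∑ k ∈ range K, e (k * u)‖ ^ 2 / (K : ℝ) ^ 2 ≤ (1 / u) ^ 2 / (K : ℝ) ^ 2 := by gcongr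
      _ = _ := by ring
  have h2 := key |t| h0 h1
  rw [sq_abs] at h2
  rcases abs_choice t with h | h
  · rwa [h] at h2
  · rwa [h, W_neg] at h2

/-- lower bound -/
lemma W_ge {K : ℕ} (hK : 1 ≤ K) {t : ℝ} (h1 : |t| ≤ 1 / (20 * K)) : 4 / 9 ≤ W K t := by
  have hK0 : (0 : ℝ) < K := by exact_mod_cast hK
  have hd : ‖(∑ k ∈ range K, e (k * t)) - K‖ ≤ K * (1 / 3) := by
    have h2 : (∑ k ∈ range K, e (k * t)) - K = ∑ k ∈ range K, (e (k * t) - 1) := by
      rw [sum_sub_distrib]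
      simp
    rw [h2]
    refine (norm_sum_le _ _).trans ?_
    calc ∑ k ∈ range K, ‖e (k * t) - 1‖ ≤ ∑ _k ∈ range K, (1 / 3 : ℝ) := by
          apply sum_le_sum
          intro k hk
          refine (e_sub_one_le _).trans ?_
          rw [abs_mul, Nat.abs_cast]
          have hk' : (k : ℝ) ≤ K := by exact_mod_cast (mem_range.mp hk).le
          have h3 : (k : ℝ) * |t| ≤ K * (1 / (20 * K)) := by gcongr
          have h4 : (K : ℝ) * (1 / (20 * K)) = 1 / 20 := by field_simp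
          have := Real.pi_lt_d2
          have h5 : 0 ≤ (k : ℝ) * |t| := by positivity
          nlinarith [Real.pi_pos]
      _ = K * (1 / 3) := by simp
  have h2 : (2 / 3 : ℝ) * K ≤ ‖∑ k ∈ range K, e (k * t)‖ := by
    have h3 : ‖(K : ℂ)‖ ≤ ‖∑ k ∈ range K, e (k * t)‖ + ‖(∑ k ∈ range K, e (k * t)) - K‖ := by
      have := norm_sub_le (∑ k ∈ range K, e (k * t)) ((∑ k ∈ range K, e (k * t)) - K)
      rwa [sub_sub_cancel] at this
    rw [Complex.norm_natCast] at h3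
    linarith
  unfold W
  rw [le_div_iff₀ (by positivity)]
  calc 4 / 9 * (K : ℝ) ^ 2 = (2 / 3 * K) ^ 2 := by ring
    _ ≤ _ := by gcongr

lemma W_eq (K : ℕ) (x : ℝ) : ((W K x : ℝ) : ℂ) =
    1 / (K : ℂ) ^ 2 * ∑ k ∈ range K, ∑ l ∈ range K, e (((k : ℝ) - l) * x) := by
  unfold W
  push_cast
  rw [← Complex.mul_conj', map_sum, sum_mul_sum, one_div, div_eq_inv_mul]
  congr 1
  apply sum_congr rfl
  intro k _
  apply sum_congr rfl
  intro l _
  rw [conj_e, ← e_add]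
  congr 1
  ring

/-- averages over the frequencies of the kernel -/
lemma avg {K : ℕ} (hK : 1 ≤ K) (s : Finset ℕ) (g ψ : ℕ → ℝ) {V : ℝ}
    (hV : ∀ k < K, ∀ l < K, ‖∑ n ∈ s, e (g n + ((k : ℝ) - l) * ψ n)‖ ≤ V) :
    ‖∑ n ∈ s, ((W K (ψ n) : ℝ) : ℂ) * e (g n)‖ ≤ V := by
  have hK0 : (0 : ℝ) < K := by exact_mod_cast hK
  have h1 : ∑ n ∈ s, ((W K (ψ n) : ℝ) : ℂ) * e (g n) =
      1 / (K : ℂ) ^ 2 * ∑ k ∈ range K, ∑ l ∈ range K, ∑ n ∈ s, e (g n + ((k : ℝ) - l) * ψ n) := by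
    simp only [W_eq, mul_sum, sum_mul]
    rw [sum_comm]
    apply sum_congr rfl
    intro k _
    rw [sum_comm]
    apply sum_congr rfl
    intro l _
    apply sum_congr rfl
    intro n _
    rw [e_add]
    ring
  rw [h1, norm_mul]
  have h2 : ‖1 / (K : ℂ) ^ 2‖ = 1 / (K : ℝ) ^ 2 := by
    rw [norm_div, norm_one, norm_pow, Complex.norm_natCast]
  rw [h2]
  have h3 : ‖∑ k ∈ range K, ∑ l ∈ range K, ∑ n ∈ s, e (g n + ((k : ℝ) - l) * ψ n)‖ ≤
      ∑ _k ∈ range K, ∑ _l ∈ range K, V := by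
    refine (norm_sum_le _ _).trans (sum_le_sum fun k hk => ?_)
    refine (norm_sum_le _ _).trans (sum_le_sum fun l hl => ?_)
    exact hV k (mem_range.mp hk) l (mem_range.mp hl)
  have h4 : ∑ _k ∈ range K, ∑ _l ∈ range K, V = (K : ℝ) ^ 2 * V := by
    simp only [sum_const, card_range, nsmul_eq_mul]
    ring
  rw [h4] at h3
  calc 1 / (K : ℝ) ^ 2 * ‖∑ k ∈ range K, ∑ l ∈ range K, ∑ n ∈ s, e (g n + ((k : ℝ) - l) * ψ n)‖
      ≤ 1 / (K : ℝ) ^ 2 * ((K : ℝ) ^ 2 * V) := by gcongr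
    _ = V := by field_simp

/-- restriction to the multiples of `b` -/
lemma avgb {b : ℕ} (hb : 1 ≤ b) (s : Finset ℕ) (w : ℕ → ℂ) (g : ℕ → ℝ) {V : ℝ}
    (hV : ∀ c < b, ‖∑ n ∈ s, w n * e (g n + (c : ℝ) / b * n)‖ ≤ V) :
    ‖∑ n ∈ s with b ∣ n, w n * e (g n)‖ ≤ V := by
  have hb0 : (0 : ℝ) < b := by exact_mod_cast hb
  have hind : ∀ n : ℕ, ∑ c ∈ range b, e ((c : ℝ) / b * n) = if b ∣ n then (b : ℂ) else 0 := by
    intro n
    have h1 : ∀ c : ℕ, e ((c : ℝ) / b * n) = e ((n : ℝ) / b) ^ c := by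
      intro c
      rw [← e_nat_mul]
      congr 1
      ring
    simp only [h1]
    split_ifs with hd
    · obtain ⟨k, rfl⟩ := hd
      have h2 : e (((b * k : ℕ) : ℝ) / b) = 1 := by
        have : ((b * k : ℕ) : ℝ) / b = k := by push_cast; field_simp
        rw [this, e_nat]
      rw [h2]
      simp
    · have h3 : e ((n : ℝ) / b) ≠ 1 := by
        intro h
        unfold Pool.Agent.H469R2.NK.e at h
        rw [Complex.exp_eq_one_iff] at h
        obtain ⟨z, hz⟩ := h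
        have hpi : (2 * (Real.pi : ℂ) * Complex.I) ≠ 0 := by
          simp [Real.pi_ne_zero, Complex.I_ne_zero]
        have h4 : (((n : ℝ) / b : ℝ) : ℂ) = z := by
          have h5 : (2 * (Real.pi : ℂ) * Complex.I) * (((n : ℝ) / b : ℝ) : ℂ) =
              (2 * (Real.pi : ℂ) * Complex.I) * z := by
            have h6 : ((2 * Real.pi * ((n : ℝ) / b) : ℝ) : ℂ) * Complex.I =
                (2 * (Real.pi : ℂ) * Complex.I) * (((n : ℝ) / b : ℝ) : ℂ) := by
              push_cast; ring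
            rw [← h6, hz]
            ring
          exact mul_left_cancel₀ hpi h5
        have h7 : (n : ℝ) / b = z := by exact_mod_cast h4
        rw [div_eq_iff hb0.ne'] at h7
        have h8 : (n : ℤ) = z * b := by exact_mod_cast h7
        exact hd (by exact_mod_cast (Dvd.intro_left z h8.symm))
      have h5 := geom_sum_mul (e ((n : ℝ) / b)) b
      have h6 : e ((n : ℝ) / b) ^ b = 1 := by
        rw [← e_nat_mul]
        have : (b : ℝ) * ((n : ℝ) / b) = n := by field_simp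
        rw [this, e_nat]
      rw [h6, sub_self] at h5
      rcases mul_eq_zero.mp h5 with h | h
      · exact h
      · exact absurd (sub_eq_zero.mp h) h3
  have h1 : ∑ n ∈ s with b ∣ n, w n * e (g n) =
      1 / (b : ℂ) * ∑ c ∈ range b, ∑ n ∈ s, w n * e (g n + (c : ℝ) / b * n) := by
    rw [sum_comm, mul_sum, sum_filter]
    apply sum_congr rfl
    intro n _
    have h2 : ∑ c ∈ range b, w n * e (g n + (c : ℝ) / b * n) =
        w n * e (g n) * ∑ c ∈ range b, e ((c : ℝ) / b * n) := by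
      rw [mul_sum]
      apply sum_congr rfl
      intro c _
      rw [e_add]
      ring
    rw [h2, hind]
    have hbc : (b : ℂ) ≠ 0 := by exact_mod_cast (by omega : b ≠ 0)
    split_ifs
    · field_simp
    · simp
  rw [h1, norm_mul]
  have h2 : ‖1 / (b : ℂ)‖ = 1 / (b : ℝ) := by
    rw [norm_div, norm_one, Complex.norm_natCast]
  rw [h2]
  have h3 : ‖∑ c ∈ range b, ∑ n ∈ s, w n * e (g n + (c : ℝ) / b * n)‖ ≤ ∑ _c ∈ range b, V :=
    (norm_sum_le _ _).trans (sum_le_sum fun c hc => hV c (mem_range.mp hc))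
  have h4 : ∑ _c ∈ range b, V = (b : ℝ) * V := by simp
  rw [h4] at h3
  calc 1 / (b : ℝ) * ‖∑ c ∈ range b, ∑ n ∈ s, w n * e (g n + (c : ℝ) / b * n)‖
      ≤ 1 / (b : ℝ) * ((b : ℝ) * V) := by gcongr
    _ = V := by field_simp

/-- both averages -/
lemma avg_both {K b : ℕ} (hK : 1 ≤ K) (hb : 1 ≤ b) (s : Finset ℕ) (g ψ : ℕ → ℝ) {V : ℝ}
    (hV : ∀ c < b, ∀ k < K, ∀ l < K,
      ‖∑ n ∈ s, e (g n + (c : ℝ) / b * n + ((k : ℝ) - l) * ψ n)‖ ≤ V) :
    ‖∑ n ∈ s with b ∣ n, ((W K (ψ n) : ℝ) : ℂ) * e (g n)‖ ≤ V :=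
  avgb hb s _ g fun c hc => avg hK s (fun n => g n + (c : ℝ) / b * n) ψ (hV c hc)

end Pool.Agent.H502.XP
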