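import Pool.Agent.H502.XP.M2

/-!
# One block
-/

set_option autoImplicit false

open Finset
open Pool.Agent.H469R2.NK (e norm_e e_add e_zero e_nat)

namespace Pool.Agent.H502.XP

lemma sep_aux {ι : Type} [DecidableEq ι] (s : Finset ι) (x : ι → ℝ) {δ Δ : ℝ} (hδ : 0 < δ) (hΔ : 0 < Δ) :
    (∀ i ∈ s, δ < x i) → (∀ i ∈ s, ∀ j ∈ s, i ≠ j → Δ ≤ |x i - x j|) →
    ∀ B : ℝ, δ < B → (∀ i ∈ s, x i ≤ B) →
    ∑ i ∈ s, 1 / (x i) ^ 2 ≤ 1 / δ ^ 2 + 1 / Δ * (1 / δ - 1 / B) := by
  induction s using Finset.induction_on_max_value x with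
  | empty =>
    intro _ _ B hB _
    simp only [sum_empty]
    have h1 : 1 / B ≤ 1 / δ := one_div_le_one_div_of_le hδ hB.le
    have h2 : 0 ≤ 1 / Δ * (1 / δ - 1 / B) := mul_nonneg (by positivity) (by linarith)
    positivity
  | insert a s ha hmax ih =>
    intro hpos hsep B hB hle
    have hxa : δ < x a := hpos a (mem_insert_self a s)
    have hxa0 : 0 < x a := hδ.trans hxa
    have hxaB : x a ≤ B := hle a (mem_insert_self a s)
    rw [sum_insert ha]
    have h1 : 1 / B ≤ 1 / x a := one_div_le_one_div_of_le hxa0 hxaB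
    rcases s.eq_empty_or_nonempty with rfl | ⟨i, hi⟩
    · simp only [sum_empty, add_zero]
      have h2 : 1 / (x a) ^ 2 ≤ 1 / δ ^ 2 := by
        apply one_div_le_one_div_of_le (by positivity)
        gcongr
      have h3 : 1 / x a ≤ 1 / δ := one_div_le_one_div_of_le hδ hxa.le
      have h4 : 0 ≤ 1 / Δ * (1 / δ - 1 / B) := mul_nonneg (by positivity) (by linarith)
      linarith
    · have hi2 := hsep i (mem_insert_of_mem hi) a (mem_insert_self a s) (by rintro rfl; exact ha hi)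
      have hle2 : ∀ j ∈ s, x j ≤ x a - Δ := by
        intro j hj
        have h5 := hsep j (mem_insert_of_mem hj) a (mem_insert_self a s) (by rintro rfl; exact ha hj)
        rw [abs_of_nonpos (by linarith [hmax j hj])] at h5
        linarith
      have h6 : δ < x a - Δ := (hpos i (mem_insert_of_mem hi)).trans_le (hle2 i hi)
      have h7 := ih (fun j hj => hpos j (mem_insert_of_mem hj))
        (fun j hj k hk => hsep j (mem_insert_of_mem hj) k (mem_insert_of_mem hk)) (x a - Δ) h6 hle2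
      have h8 : 1 / (x a) ^ 2 ≤ 1 / Δ * (1 / (x a - Δ) - 1 / x a) := by
        have h9 : 0 < x a - Δ := hδ.trans h6
        have h10 : 1 / Δ * (1 / (x a - Δ) - 1 / x a) = 1 / ((x a - Δ) * x a) := by
          field_simp
          ring
        rw [h10]
        apply one_div_le_one_div_of_le (by positivity)
        nlinarith
      have h11 : 0 < 1 / Δ := by positivity
      nlinarith

lemma sep_sum {ι : Type} [DecidableEq ι] (s : Finset ι) (x : ι → ℝ) {δ Δ : ℝ} (hδ : 0 < δ) (hΔ : 0 < Δ)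
    (hpos : ∀ i ∈ s, δ < x i) (hsep : ∀ i ∈ s, ∀ j ∈ s, i ≠ j → Δ ≤ |x i - x j|) :
    ∑ i ∈ s, 1 / (x i) ^ 2 ≤ 1 / δ ^ 2 + 1 / (Δ * δ) := by
  have hB : ∃ B : ℝ, δ < B ∧ ∀ i ∈ s, x i ≤ B := by
    refine ⟨δ + 1 + ∑ i ∈ s, |x i|, ?_, ?_⟩
    · have : 0 ≤ ∑ i ∈ s, |x i| := sum_nonneg fun _ _ => abs_nonneg _
      linarith
    · intro i hi
      have := single_le_sum (f := fun i => |x i|) (fun _ _ => abs_nonneg _) hi
      have h2 := le_abs_self (x i)
      linarith
  obtain ⟨B, hB, hle⟩ := hB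
  have h := sep_aux s x hδ hΔ hpos hsep B hB hle
  have hB0 : 0 < 1 / B := by
    have : 0 < B := hδ.trans hB
    positivity
  have h2 : 1 / Δ * (1 / δ - 1 / B) ≤ 1 / (Δ * δ) := by
    have h3 : 1 / (Δ * δ) = 1 / Δ * (1 / δ) := by field_simp
    rw [h3]
    apply mul_le_mul_of_nonneg_left (by linarith) (by positivity)
  linarith

/-- the beginning of the block of `μ` -/
def pp (a μ : ℕ) : ℕ := (2 * μ - 1) ^ 2 / (4 * a)

/-- the block of `μ` -/
def JJ (a μ : ℕ) : Finset ℕ := Ioc (pp a μ) (pp a (μ + 1))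

lemma mem_JJ {a μ n : ℕ} (ha : 1 ≤ a) (hμ : 1 ≤ μ) (hn : n ∈ JJ a μ) :
    |Real.sqrt (a * n) - μ| ≤ 1 / 2 := by
  unfold JJ pp at hn
  rw [mem_Ioc, Nat.div_lt_iff_lt_mul (by omega), Nat.le_div_iff_mul_le (by omega)] at hn
  have h0 : (0 : ℝ) ≤ a * n := by positivity
  have hμ0 : (1 : ℝ) ≤ μ := by exact_mod_cast hμ
  obtain ⟨h1, h2⟩ := hn
  have e1 : 2 * (μ + 1) - 1 = 2 * μ + 1 := by omega
  rw [e1] at h2
  have h1' : (2 * (μ : ℝ) - 1) ^ 2 < n * (4 * a) := by
    have : (((2 * μ - 1) ^ 2 : ℕ) : ℝ) < ((n * (4 * a) : ℕ) : ℝ) := by exact_mod_cast h1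
    rw [Nat.cast_pow, Nat.cast_sub (by omega)] at this
    push_cast at this
    exact this
  have h2' : (n : ℝ) * (4 * a) ≤ (2 * μ + 1) ^ 2 := by exact_mod_cast h2
  set y := Real.sqrt (a * n) with hy
  have hy0 : 0 ≤ y := Real.sqrt_nonneg _
  have hy2 : y ^ 2 = a * n := Real.sq_sqrt h0
  rw [abs_le]
  constructor
  · by_contra hcon
    push Not at hcon
    nlinarith
  · by_contra hcon
    push Not at hcon
    nlinarith

lemma sep_JJ {a μ n m : ℕ} (ha : 1 ≤ a) (hμ : 1 ≤ μ) (hn : n ∈ JJ a μ) (hm : m ∈ JJ a μ) (hnm : n ≠ m) :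
    (a : ℝ) / (3 * μ) ≤ |Real.sqrt (a * n) - Real.sqrt (a * m)| := by
  have h1 := mem_JJ ha hμ hn
  have h2 := mem_JJ ha hμ hm
  have hμ0 : (1 : ℝ) ≤ μ := by exact_mod_cast hμ
  have ha0 : (0 : ℝ) < a := by exact_mod_cast ha
  set y := Real.sqrt (a * n) with hy
  set z := Real.sqrt (a * m) with hz
  have hy0 : 0 ≤ y := Real.sqrt_nonneg _
  have hz0 : 0 ≤ z := Real.sqrt_nonneg _
  have hy2 : y ^ 2 = a * n := Real.sq_sqrt (by positivity)
  have hz2 : z ^ 2 = a * m := Real.sq_sqrt (by positivity)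
  rw [abs_le] at h1 h2
  rw [div_le_iff₀ (by positivity)]
  have h3 : |y - z| * (y + z) = a * |(n : ℝ) - m| := by
    rw [← abs_of_nonneg (by positivity : 0 ≤ y + z), ← abs_mul, ← abs_of_pos ha0, ← abs_mul]
    congr 1
    linarith [show (y - z) * (y + z) = y ^ 2 - z ^ 2 by ring, mul_sub (a : ℝ) n m]
  have h4 : (1 : ℝ) ≤ |(n : ℝ) - m| := by
    have h5 : (1 : ℤ) ≤ |(n : ℤ) - m| := Int.one_le_abs (by omega)
    exact_mod_cast h5
  have h6 : y + z ≤ 3 * μ := by linarith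
  have h7 : (a : ℝ) ≤ a * |(n : ℝ) - m| := by nlinarith
  calc (a : ℝ) ≤ |y - z| * (y + z) := by rw [h3]; exact h7
    _ ≤ |y - z| * (3 * μ) := by gcongr

/-- the contribution of one block -/
lemma block {a K μ : ℕ} (ha : 1 ≤ a) (hK : 2400 ≤ K) (hμ : 20 * K * a ≤ μ) (φ : ℕ → ℝ)
    (hφ : ∀ n ∈ JJ a μ, |Real.sqrt (a * n) - μ| ≤ 1200 / K → 4 / 5 ≤ (e (φ n)).re) :
    (μ : ℝ) / (100 * (K * a)) ≤ ∑ n ∈ JJ a μ, W K (Real.sqrt (a * n)) * (e (φ n)).re := by
  have hμ1 : 1 ≤ μ := by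
    have : 1 ≤ 20 * K * a := by
      have : 0 < 20 * K * a := by positivity
      omega
    omega
  have hK1 : 1 ≤ K := by omega
  have hK0 : (2400 : ℝ) ≤ K := by exact_mod_cast hK
  have hKp : (0 : ℝ) < K := by linarith
  have ha0 : (1 : ℝ) ≤ a := by exact_mod_cast ha
  have hap : (0 : ℝ) < a := by linarith
  have hμ0 : 20 * (K : ℝ) * a ≤ μ := by exact_mod_cast hμ
  have hμp : (1 : ℝ) ≤ μ := by exact_mod_cast hμ1
  set δ : ℝ := 1200 / K with hδ
  have hδ0 : 0 < δ := by positivity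
  set Δ : ℝ := (a : ℝ) / (3 * μ) with hΔ
  have hΔ0 : 0 < Δ := by positivity
  set h := μ / (10 * K * a) with hh
  set S0 := Ioc (μ ^ 2 / a) (μ ^ 2 / a + h) with hS0
  -- the number of the elements of `S0`
  have hcard : (μ : ℝ) / (20 * (K * a)) ≤ h := by
    have h1 : μ < (h + 1) * (10 * K * a) := by
      have := Nat.lt_mul_div_succ μ (by positivity : 0 < 10 * K * a)
      rw [mul_comm] at this
      exact this
    have h2 : (μ : ℝ) < (h + 1) * (10 * K * a) := by exact_mod_cast h1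
    have h3 : (1 : ℝ) ≤ μ / (20 * (K * a)) := by
      rw [le_div_iff₀ (by positivity)]
      linarith
    have h4 : (μ : ℝ) / (10 * K * a) < h + 1 := by
      rw [div_lt_iff₀ (by positivity)]
      exact h2
    have h5 : (μ : ℝ) / (10 * K * a) = 2 * (μ / (20 * (K * a))) := by field_simp; ring
    linarith
  -- `S0` is contained in the block
  have hsub : ∀ n ∈ S0, n ∈ JJ a μ := by
    intro n hn
    rw [hS0, mem_Ioc] at hn
    unfold JJ pp
    rw [mem_Ioc]
    constructor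
    · refine lt_of_le_of_lt ?_ hn.1
      calc (2 * μ - 1) ^ 2 / (4 * a) ≤ (4 * μ ^ 2) / (4 * a) := by
            apply Nat.div_le_div_right
            calc (2 * μ - 1) ^ 2 ≤ (2 * μ) ^ 2 := Nat.pow_le_pow_left (by omega) 2
              _ = 4 * μ ^ 2 := by ring
        _ = μ ^ 2 / a := Nat.mul_div_mul_left _ _ (by norm_num)
    · refine hn.2.trans ?_
      rw [Nat.le_div_iff_mul_le (by omega)]
      have h1 : μ ^ 2 / a * a ≤ μ ^ 2 := Nat.div_mul_le_self _ _
      have h2 : h * (10 * K * a) ≤ μ := Nat.div_mul_le_self _ _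
      have h3 : h * a ≤ h * (10 * K * a) := by
        apply Nat.mul_le_mul_left
        nlinarith
      have e1 : 2 * (μ + 1) - 1 = 2 * μ + 1 := by omega
      rw [e1]
      nlinarith
  have hS0W : ∀ n ∈ S0, 4 / 9 ≤ W K (Real.sqrt (a * n)) ∧ |Real.sqrt (a * n) - μ| ≤ δ := by
    intro n hn
    rw [hS0, mem_Ioc] at hn
    have h1 : μ ^ 2 < a * n := by
      have := Nat.lt_mul_div_succ (μ ^ 2) (by omega : 0 < a)
      calc μ ^ 2 < a * (μ ^ 2 / a + 1) := this
        _ ≤ a * n := Nat.mul_le_mul_left _ (by omega)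
    have h2 : 10 * K * (a * n) ≤ 10 * K * μ ^ 2 + μ := by
      have h3 : μ ^ 2 / a * a ≤ μ ^ 2 := Nat.div_mul_le_self _ _
      have h4 : h * (10 * K * a) ≤ μ := Nat.div_mul_le_self _ _
      calc 10 * K * (a * n) ≤ 10 * K * (a * (μ ^ 2 / a + h)) := by
            apply Nat.mul_le_mul_left
            exact Nat.mul_le_mul_left _ hn.2
        _ = 10 * K * (μ ^ 2 / a * a) + h * (10 * K * a) := by ring
        _ ≤ 10 * K * μ ^ 2 + μ := Nat.add_le_add (Nat.mul_le_mul_left _ h3) h4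
    have h1' : (μ : ℝ) ^ 2 < a * n := by exact_mod_cast h1
    have h2' : 10 * (K : ℝ) * (a * n) ≤ 10 * K * μ ^ 2 + μ := by exact_mod_cast h2
    set y := Real.sqrt (a * n) with hy
    have hy0 : 0 ≤ y := Real.sqrt_nonneg _
    have hy2 : y ^ 2 = a * n := Real.sq_sqrt (by positivity)
    have hyμ : (μ : ℝ) < y := by
      by_contra hcon
      push Not at hcon
      nlinarith
    have h5 : (y - μ) * (20 * K) ≤ 1 := by
      rw [← hy2] at h2'
      have h6 : 10 * (K : ℝ) * ((y - μ) * (y + μ)) ≤ μ := by nlinarith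
      have h7 : 10 * (K : ℝ) * ((y - μ) * (2 * μ)) ≤ 10 * (K : ℝ) * ((y - μ) * (y + μ)) := by
        apply mul_le_mul_of_nonneg_left _ (by positivity)
        apply mul_le_mul_of_nonneg_left (by linarith) (by linarith)
      have h8 : ((y - μ) * (20 * K)) * μ ≤ 1 * μ := by nlinarith
      exact le_of_mul_le_mul_right h8 (by linarith)
    have h9 : |y - μ| ≤ 1 / (20 * K) := by
      rw [abs_of_pos (by linarith), le_div_iff₀ (by positivity)]
      exact h5
    refine ⟨?_, h9.trans ?_⟩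
    · rw [← W_sub_nat K y μ]
      exact W_ge hK1 h9
    · rw [hδ, div_le_div_iff₀ (by positivity) hKp]
      nlinarith
  -- the bound for one term
  have hterm : ∀ n ∈ JJ a μ, (if n ∈ S0 then (16 / 45 : ℝ) else 0) -
      (if δ < Real.sqrt (a * n) - μ then 1 / (K : ℝ) ^ 2 * (1 / (Real.sqrt (a * n) - μ) ^ 2) else 0) -
      (if δ < μ - Real.sqrt (a * n) then 1 / (K : ℝ) ^ 2 * (1 / (μ - Real.sqrt (a * n)) ^ 2) else 0) ≤
      W K (Real.sqrt (a * n)) * (e (φ n)).re := by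
    intro n hn
    have h1 := mem_JJ ha hμ1 hn
    have hre : -1 ≤ (e (φ n)).re := by
      have := Complex.abs_re_le_norm (e (φ n))
      rw [norm_e, abs_le] at this
      exact this.1
    have hW0 := W_nonneg K (Real.sqrt (a * n))
    by_cases h2 : |Real.sqrt (a * n) - μ| ≤ δ
    · have h3 := hφ n hn h2
      have h4 := abs_le.mp h2
      rw [if_neg (by linarith : ¬ δ < Real.sqrt (a * n) - μ), if_neg (by linarith : ¬ δ < μ - Real.sqrt (a * n))]
      split_ifs with h5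
      · have h6 := (hS0W n h5).1
        nlinarith
      · have : 0 ≤ W K (Real.sqrt (a * n)) * (e (φ n)).re := mul_nonneg hW0 (by linarith)
        linarith
    · have h5 : n ∉ S0 := fun h => h2 (hS0W n h).2
      rw [if_neg h5]
      push Not at h2
      have h6 := W_le hK1 (t := Real.sqrt (a * n) - μ) (hδ0.trans h2) h1
      rw [W_sub_nat] at h6
      have h7 : -W K (Real.sqrt (a * n)) ≤ W K (Real.sqrt (a * n)) * (e (φ n)).re := by nlinarith
      rcases le_total 0 (Real.sqrt (a * n) - μ) with h8 | h8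
      · rw [abs_of_nonneg h8] at h2
        rw [if_pos h2, if_neg (by linarith : ¬ δ < μ - Real.sqrt (a * n))]
        linarith
      · rw [abs_of_nonpos h8] at h2
        rw [if_neg (by linarith : ¬ δ < Real.sqrt (a * n) - μ), if_pos (by linarith)]
        have h9 : (μ - Real.sqrt (a * n)) ^ 2 = (Real.sqrt (a * n) - μ) ^ 2 := by ring
        rw [h9]
        linarith
  have hsum := sum_le_sum hterm
  rw [sum_sub_distrib, sum_sub_distrib] at hsum
  have e1 : ∑ n ∈ JJ a μ, (if n ∈ S0 then (16 / 45 : ℝ) else 0) = h * (16 / 45) := by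
    rw [← sum_filter, filter_mem_eq_inter, inter_eq_right.mpr hsub, sum_const, hS0, Nat.card_Ioc,
      nsmul_eq_mul, Nat.add_sub_cancel_left]
  have e2 : ∑ n ∈ JJ a μ, (if δ < Real.sqrt (a * n) - μ then
      1 / (K : ℝ) ^ 2 * (1 / (Real.sqrt (a * n) - μ) ^ 2) else 0) ≤
      1 / (K : ℝ) ^ 2 * (1 / δ ^ 2 + 1 / (Δ * δ)) := by
    rw [← sum_filter, ← mul_sum]
    apply mul_le_mul_of_nonneg_left _ (by positivity)
    apply sep_sum _ (fun n : ℕ => Real.sqrt (a * n) - μ) hδ0 hΔ0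
    · intro n hn
      exact (mem_filter.mp hn).2
    · intro n hn m hm hnm
      have := sep_JJ ha hμ1 (mem_filter.mp hn).1 (mem_filter.mp hm).1 hnm
      rw [sub_sub_sub_cancel_right]
      exact this
  have e3 : ∑ n ∈ JJ a μ, (if δ < μ - Real.sqrt (a * n) then
      1 / (K : ℝ) ^ 2 * (1 / (μ - Real.sqrt (a * n)) ^ 2) else 0) ≤
      1 / (K : ℝ) ^ 2 * (1 / δ ^ 2 + 1 / (Δ * δ)) := by
    rw [← sum_filter, ← mul_sum]
    apply mul_le_mul_of_nonneg_left _ (by positivity)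
    apply sep_sum _ (fun n : ℕ => μ - Real.sqrt (a * n)) hδ0 hΔ0
    · intro n hn
      exact (mem_filter.mp hn).2
    · intro n hn m hm hnm
      have := sep_JJ ha hμ1 (mem_filter.mp hn).1 (mem_filter.mp hm).1 hnm
      rw [sub_sub_sub_cancel_left, abs_sub_comm]
      exact this
  rw [e1] at hsum
  -- the arithmetic
  have e4 : 1 / (K : ℝ) ^ 2 * (1 / δ ^ 2 + 1 / (Δ * δ)) = 1 / 1440000 + (μ / (K * a)) * (1 / 400) := by
    rw [hδ, hΔ]
    field_simp
    ring
  rw [e4] at e2 e3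
  have e5 : (μ : ℝ) / (20 * (K * a)) = (μ / (K * a)) * (1 / 20) := by field_simp
  have e6 : (μ : ℝ) / (100 * (K * a)) = (μ / (K * a)) * (1 / 100) := by field_simp
  rw [e5] at hcard
  rw [e6]
  have e7 : (20 : ℝ) ≤ μ / (K * a) := by
    rw [le_div_iff₀ (by positivity)]
    linarith
  linarith

end Pool.Agent.H502.XP
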