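import Pool.Agent.H502.XP.M1
import Pool.Agent.H502.XP.Defs

/-!
# The derivatives of the functions `T x^(d + 1/2) + U x^(1/2) + V x + R x^(-2)`
-/

set_option autoImplicit false

open Finset

namespace Pool.Agent.H502.XP

/-- falling factorial -/
noncomputable def DD (α : ℝ) (j : ℕ) : ℝ := ∏ i ∈ range j, (α - i)

lemma DD_zero (α : ℝ) : DD α 0 = 1 := by simp [DD]

lemma DD_succ (α : ℝ) (j : ℕ) : DD α (j + 1) = DD α j * (α - j) := by
  unfold DD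
  rw [prod_range_succ]

/-- the function -/
noncomputable def gz (d : ℕ) (T U V R : ℝ) (x : ℝ) : ℝ :=
  T * x ^ ((d : ℝ) + 1 / 2) + U * x ^ ((1 : ℝ) / 2) + V * x + R * x ^ (-2 : ℝ)

/-- its derivatives -/
noncomputable def gj (d : ℕ) (T U V R : ℝ) (j : ℕ) (x : ℝ) : ℝ :=
  T * (DD ((d : ℝ) + 1 / 2) j * x ^ ((d : ℝ) + 1 / 2 - j)) + U * (DD (1 / 2) j * x ^ ((1 : ℝ) / 2 - j)) +
    V * (DD 1 j * x ^ ((1 : ℝ) - j)) + R * (DD (-2) j * x ^ ((-2 : ℝ) - j))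

lemma term_deriv (α : ℝ) (j : ℕ) {x : ℝ} (hx : 0 < x) :
    HasDerivAt (fun x : ℝ => DD α j * x ^ (α - j)) (DD α (j + 1) * x ^ (α - (j + 1 : ℕ))) x := by
  have h := (Real.hasDerivAt_rpow_const (x := x) (p := α - j) (Or.inl hx.ne')).const_mul (DD α j)
  have e1 : DD α (j + 1) * x ^ (α - (j + 1 : ℕ)) = DD α j * ((α - j) * x ^ (α - j - 1)) := by
    rw [DD_succ]
    push_cast
    rw [show α - ((j : ℝ) + 1) = α - j - 1 by ring]
    ring
  rw [e1]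
  exact h

lemma gj_zero (d : ℕ) (T U V R : ℝ) {x : ℝ} (_hx : 0 < x) : gj d T U V R 0 x = gz d T U V R x := by
  unfold gj gz
  simp [DD_zero]

lemma gj_deriv (d : ℕ) (T U V R : ℝ) (j : ℕ) {x : ℝ} (hx : 0 < x) :
    HasDerivAt (gj d T U V R j) (gj d T U V R (j + 1) x) x := by
  unfold gj
  exact ((((term_deriv _ j hx).const_mul T).add ((term_deriv _ j hx).const_mul U)).add
    ((term_deriv _ j hx).const_mul V)).add ((term_deriv _ j hx).const_mul R)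

lemma iter_gz (d : ℕ) (T U V R : ℝ) (j : ℕ) : ∀ x : ℝ, 0 < x →
    iteratedDeriv j (gz d T U V R) x = gj d T U V R j x := by
  induction j with
  | zero =>
    intro x hx
    rw [iteratedDeriv_zero, gj_zero d T U V R hx]
  | succ j ih =>
    intro x hx
    rw [iteratedDeriv_succ]
    have h : iteratedDeriv j (gz d T U V R) =ᶠ[nhds x] gj d T U V R j := by
      filter_upwards [Ioi_mem_nhds hx] with t ht
      exact ih t ht
    rw [h.deriv_eq]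
    exact (gj_deriv d T U V R j hx).deriv

lemma cd_gz (d : ℕ) (T U V R : ℝ) {x : ℝ} (hx : 0 < x) (n : WithTop ℕ∞) : ContDiffAt ℝ n (gz d T U V R) x := by
  unfold gz
  exact (((contDiffAt_const.mul (Real.contDiffAt_rpow_const_of_ne hx.ne')).add
    (contDiffAt_const.mul (Real.contDiffAt_rpow_const_of_ne hx.ne'))).add
    (contDiffAt_const.mul contDiffAt_id)).add
    (contDiffAt_const.mul (Real.contDiffAt_rpow_const_of_ne hx.ne'))

lemma iterW_gz (d : ℕ) (T U V R : ℝ) (j : ℕ) {N x : ℝ} (hN : 0 < N) (hx : x ∈ Set.Icc N (2 * N)) :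
    iteratedDerivWithin j (gz d T U V R) (Set.Icc N (2 * N)) x = gj d T U V R j x := by
  have hx0 : 0 < x := hN.trans_le hx.1
  rw [iteratedDerivWithin_eq_iteratedDeriv (uniqueDiffOn_Icc (by linarith)) (cd_gz d T U V R hx0 _) hx]
  exact iter_gz d T U V R j x hx0

/-! ### The coefficients -/

lemma DD_shift (α : ℝ) (j : ℕ) : DD (α + 1) j * (α + 1 - j) = (α + 1) * DD α j := by
  induction j with
  | zero => simp [DD_zero]
  | succ j ih =>
    rw [DD_succ, DD_succ]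
    push_cast
    calc DD (α + 1) j * (α + 1 - j) * (α + 1 - (j + 1)) = ((α + 1) * DD α j) * (α + 1 - (j + 1)) := by
          rw [ih]
      _ = _ := by ring

lemma q_le_p (d : ℕ) {j : ℕ} (hj : d + 1 ≤ j) :
    |DD (1 / 2) j| ≤ (j : ℝ) ^ d * |DD ((d : ℝ) + 1 / 2) j| := by
  induction d with
  | zero => simp
  | succ d ih =>
    have h1 := ih (by omega)
    have h2 := DD_shift ((d : ℝ) + 1 / 2) j
    have hjd : (d : ℝ) + 2 ≤ j := by exact_mod_cast hj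
    have hd0 : (0 : ℝ) ≤ d := by positivity
    have h3 : |DD ((d : ℝ) + 1 / 2) j| ≤ j * |DD (((d + 1 : ℕ) : ℝ) + 1 / 2) j| := by
      have e1 : ((d + 1 : ℕ) : ℝ) + 1 / 2 = (d : ℝ) + 1 / 2 + 1 := by push_cast; ring
      rw [e1]
      have h4 : |DD ((d : ℝ) + 1 / 2 + 1) j| * |(d : ℝ) + 1 / 2 + 1 - j| =
          ((d : ℝ) + 1 / 2 + 1) * |DD ((d : ℝ) + 1 / 2) j| := by
        rw [← abs_mul, h2, abs_mul, abs_of_pos (by positivity : 0 < (d : ℝ) + 1 / 2 + 1)]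
      have h5 : |(d : ℝ) + 1 / 2 + 1 - j| ≤ j := by
        rw [abs_le]
        constructor <;> linarith
      have h6 : |DD ((d : ℝ) + 1 / 2 + 1) j| * |(d : ℝ) + 1 / 2 + 1 - j| ≤
          |DD ((d : ℝ) + 1 / 2 + 1) j| * j := by gcongr
      have h7 : |DD ((d : ℝ) + 1 / 2) j| ≤ ((d : ℝ) + 1 / 2 + 1) * |DD ((d : ℝ) + 1 / 2) j| := by
        have := abs_nonneg (DD ((d : ℝ) + 1 / 2) j)
        nlinarith
      linarith
    calc |DD (1 / 2) j| ≤ (j : ℝ) ^ d * |DD ((d : ℝ) + 1 / 2) j| := h1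
      _ ≤ (j : ℝ) ^ d * (j * |DD (((d + 1 : ℕ) : ℝ) + 1 / 2) j|) := by gcongr
      _ = _ := by ring

lemma q_le_fact (j : ℕ) : |DD (1 / 2) (j + 1)| ≤ (j.factorial : ℝ) / 2 := by
  induction j with
  | zero => simp [DD]
  | succ j ih =>
    rw [DD_succ, abs_mul, Nat.factorial_succ]
    have h1 : |(1 / 2 : ℝ) - ((j + 1 : ℕ) : ℝ)| ≤ j + 1 := by
      rw [abs_le]
      push_cast
      constructor <;> linarith [(Nat.cast_nonneg j : (0 : ℝ) ≤ j)]
    push_cast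
    calc |DD (1 / 2) (j + 1)| * |1 / 2 - ((j : ℝ) + 1)| ≤ (j.factorial : ℝ) / 2 * (j + 1) := by
          push_cast at h1
          gcongr
      _ = _ := by ring

lemma q_le_fact' (j : ℕ) : |DD (1 / 2) j| ≤ (j.factorial : ℝ) := by
  rcases j with _ | j
  · simp [DD]
  · refine (q_le_fact j).trans ?_
    have h1 : (j.factorial : ℝ) ≤ ((j + 1).factorial : ℝ) := by
      exact_mod_cast Nat.factorial_le (Nat.le_succ j)
    have h2 : (0 : ℝ) ≤ j.factorial := by positivity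
    linarith

lemma q_le_s {j : ℕ} (hj : 1 ≤ j) : (j : ℝ) ^ 2 * |DD (1 / 2) j| ≤ ((j + 1).factorial : ℝ) / 2 := by
  obtain ⟨k, rfl⟩ : ∃ k, j = k + 1 := ⟨j - 1, by omega⟩
  have h1 := q_le_fact k
  rw [Nat.factorial_succ, Nat.factorial_succ]
  have hk : (0 : ℝ) ≤ k.factorial := by positivity
  push_cast
  calc ((k : ℝ) + 1) ^ 2 * |DD (1 / 2) (k + 1)| ≤ ((k : ℝ) + 1) ^ 2 * ((k.factorial : ℝ) / 2) := by gcongr
    _ ≤ ((k : ℝ) + 1 + 1) * ((k + 1) * k.factorial) / 2 := by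
        have : 0 ≤ (k : ℝ) := by positivity
        nlinarith [mul_nonneg (by positivity : 0 ≤ (k : ℝ) + 1) hk]

lemma DD_neg_two (j : ℕ) : DD (-2) j = (-1) ^ j * ((j + 1).factorial : ℝ) := by
  induction j with
  | zero => simp [DD]
  | succ j ih =>
    rw [DD_succ, ih, Nat.factorial_succ (j + 1)]
    push_cast
    ring

lemma DD_one_nonneg (j : ℕ) : 0 ≤ DD 1 j := by
  rcases j with _ | _ | j
  · simp [DD]
  · simp [DD]
  · unfold DD
    apply le_of_eq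
    symm
    rw [prod_eq_zero_iff]
    exact ⟨1, by simp, by simp⟩

lemma DD_one_two {j : ℕ} (hj : 2 ≤ j) : DD 1 j = 0 := by
  unfold DD
  rw [prod_eq_zero_iff]
  exact ⟨1, by rw [mem_range]; omega, by simp⟩

lemma DD_half_ne (d j : ℕ) : DD ((d : ℝ) + 1 / 2) j ≠ 0 := by
  unfold DD
  rw [prod_ne_zero_iff]
  intro i _ h
  have h1 : (2 * (d : ℝ) + 1) = 2 * i := by linarith
  have h2 : 2 * d + 1 = 2 * i := by exact_mod_cast h1
  omega

lemma one_le_p {d j : ℕ} (hj : j ≤ d) : 1 ≤ DD ((d : ℝ) + 1 / 2) j := by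
  induction j with
  | zero => simp [DD]
  | succ j ih =>
    have h1 := ih (by omega)
    have h2 : (j : ℝ) + 1 ≤ d := by exact_mod_cast hj
    rw [DD_succ]
    nlinarith

lemma p_pos {d : ℕ} : 0 < DD ((d : ℝ) + 1 / 2) (d + 1) := by
  unfold DD
  apply prod_pos
  intro i hi
  have : i ≤ d := by rw [mem_range] at hi; omega
  have h2 : (i : ℝ) ≤ d := by exact_mod_cast this
  linarith

lemma p_sign (d : ℕ) {j : ℕ} (hj : d + 1 ≤ j) :
    (-1) ^ (d + 1 + j) * DD ((d : ℝ) + 1 / 2) j = |DD ((d : ℝ) + 1 / 2) j| := by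
  have h : 0 < (-1 : ℝ) ^ (d + 1 + j) * DD ((d : ℝ) + 1 / 2) j := by
    induction j, hj using Nat.le_induction with
    | base =>
      rw [← two_mul, pow_mul]
      simpa using p_pos (d := d)
    | succ j hj ih =>
      have hjd : (d : ℝ) + 1 ≤ j := by exact_mod_cast hj
      rw [DD_succ, ← add_assoc, pow_succ]
      have h1 : 0 < (j : ℝ) - (d + 1 / 2) := by linarith
      have := mul_pos ih h1
      calc (0 : ℝ) < (-1) ^ (d + 1 + j) * DD ((d : ℝ) + 1 / 2) j * ((j : ℝ) - (d + 1 / 2)) := this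
        _ = _ := by ring
  have h2 : |(-1 : ℝ) ^ (d + 1 + j) * DD ((d : ℝ) + 1 / 2) j| = |DD ((d : ℝ) + 1 / 2) j| := by
    rw [abs_mul, abs_pow, abs_neg, abs_one, one_pow, one_mul]
  rw [← h2, abs_of_pos h]

/-- the inequality for the derivatives of high order -/
lemma key_ineq {d K j : ℕ} {E y : ℝ} (hd : 1 ≤ d) (hE : 0 ≤ E) (hK : (K : ℝ) ≤ E * y)
    (hK2 : (K : ℝ) ^ (d + 1) ≤ E * y ^ d) (hy : 4 * 400 ^ d * E ^ 2 ≤ y) (hy1 : 1 ≤ y) (hj : 1 ≤ j) :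
    (K : ℝ) * y ≤ 1 / 2 * y ^ (2 * d + 1) / (j : ℝ) ^ d + (j : ℝ) ^ 2 / 400 := by
  have hj0 : (0 : ℝ) < j := by exact_mod_cast hj
  have hy0 : 0 < y := by linarith
  by_cases h : 2 * (K : ℝ) * (j : ℝ) ^ d ≤ y ^ (2 * d)
  · have h1 : (K : ℝ) * y ≤ 1 / 2 * y ^ (2 * d + 1) / (j : ℝ) ^ d := by
      rw [le_div_iff₀ (by positivity), pow_succ]
      nlinarith
    have h2 : 0 ≤ (j : ℝ) ^ 2 / 400 := by positivity
    linarith
  · push Not at h
    have h1 : 400 * (K : ℝ) * y ≤ (j : ℝ) ^ 2 := by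
      by_contra hcon
      push Not at hcon
      have h2 : ((j : ℝ) ^ 2) ^ d ≤ (400 * (K : ℝ) * y) ^ d := by gcongr
      have h3 : (y ^ (2 * d)) ^ 2 < (2 * (K : ℝ) * (j : ℝ) ^ d) ^ 2 := by gcongr
      have h4 : (2 * (K : ℝ) * (j : ℝ) ^ d) ^ 2 = 4 * (K : ℝ) ^ 2 * ((j : ℝ) ^ 2) ^ d := by
        rw [← pow_mul, mul_comm 2 d, pow_mul]
        ring
      have h5 : 4 * (K : ℝ) ^ 2 * (400 * (K : ℝ) * y) ^ d = 4 * 400 ^ d * ((K : ℝ) ^ (d + 1) * K) * y ^ d := by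
        rw [mul_pow, mul_pow]
        ring
      have h6 : (K : ℝ) ^ (d + 1) * K ≤ (E * y ^ d) * (E * y) := by
        apply mul_le_mul hK2 hK (by positivity) (by positivity)
      have h7 : 4 * 400 ^ d * ((K : ℝ) ^ (d + 1) * K) * y ^ d ≤ 4 * 400 ^ d * ((E * y ^ d) * (E * y)) * y ^ d := by
        gcongr
      have h8 : 4 * 400 ^ d * ((E * y ^ d) * (E * y)) * y ^ d = (4 * 400 ^ d * E ^ 2) * y ^ (2 * d + 1) := by
        ring
      have h9 : (4 * 400 ^ d * E ^ 2) * y ^ (2 * d + 1) ≤ y * y ^ (2 * d + 1) := by gcongr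
      have h10 : y * y ^ (2 * d + 1) = y ^ (2 * d + 2) := by ring
      have h11 : y ^ (2 * d + 2) ≤ y ^ (2 * d * 2) := pow_le_pow_right₀ hy1 (by omega)
      rw [← pow_mul] at h3
      have h12 : 4 * (K : ℝ) ^ 2 * ((j : ℝ) ^ 2) ^ d ≤ 4 * (K : ℝ) ^ 2 * (400 * (K : ℝ) * y) ^ d := by gcongr
      linarith
    have h2 : 0 ≤ 1 / 2 * y ^ (2 * d + 1) / (j : ℝ) ^ d := by positivity
    linarith

/-- the value of the `j`-th derivative, up to the factor `x ^ (-j)` -/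
lemma gj_eq (d : ℕ) (T U V R : ℝ) (j : ℕ) {x : ℝ} (hx : 0 < x) :
    gj d T U V R j x = (DD ((d : ℝ) + 1 / 2) j * (T * x ^ ((d : ℝ) + 1 / 2)) +
      DD (1 / 2) j * (U * x ^ ((1 : ℝ) / 2)) + DD 1 j * (V * x) + DD (-2) j * (R * x ^ (-2 : ℝ))) / x ^ j := by
  unfold gj
  rw [Real.rpow_sub hx, Real.rpow_sub hx, Real.rpow_sub hx, Real.rpow_sub hx, Real.rpow_natCast,
    Real.rpow_one]
  ring

/-- the lower bound, derivatives of high order -/
lemma low_high {d K j : ℕ} {E y P Q S : ℝ} (hd : 1 ≤ d) (hE : 0 ≤ E) (hK : (K : ℝ) ≤ E * y)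
    (hK2 : (K : ℝ) ^ (d + 1) ≤ E * y ^ d) (hy : 4 * 400 ^ d * E ^ 2 ≤ y) (hy1 : 1 ≤ y) (hj : d + 1 ≤ j)
    (hP : y ^ (2 * d + 1) ≤ P) (hQ : |Q| ≤ K * y) (hS : 1 / 400 ≤ S) (L : ℝ) :
    1 / 2 * |DD ((d : ℝ) + 1 / 2) j| * P ≤ |DD ((d : ℝ) + 1 / 2) j * P + DD (1 / 2) j * Q +
      DD 1 j * L + DD (-2) j * ((-1) ^ (d + 1) * S)| := by
  have hj1 : 1 ≤ j := by omega
  have hj0 : (0 : ℝ) < j := by exact_mod_cast hj1
  have h1 := key_ineq hd hE hK hK2 hy hy1 hj1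
  have h2 := q_le_p d hj
  have h3 := q_le_s hj1
  rw [DD_one_two (by omega : 2 ≤ j), DD_neg_two]
  set p := |DD ((d : ℝ) + 1 / 2) j| with hp
  set q := |DD (1 / 2) j| with hq
  set s := ((j + 1).factorial : ℝ) with hs
  have hq0 : 0 ≤ q := abs_nonneg _
  have hp0 : 0 ≤ p := abs_nonneg _
  have hs0 : 0 ≤ s := by positivity
  have hP0 : 0 ≤ P := le_trans (by positivity) hP
  have h4 : (K : ℝ) * y * q ≤ 1 / 2 * p * P + s * S := by
    have h5 : (K : ℝ) * y * q ≤ (1 / 2 * y ^ (2 * d + 1) / (j : ℝ) ^ d + (j : ℝ) ^ 2 / 400) * q := by gcongr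
    have h6 : 1 / 2 * y ^ (2 * d + 1) / (j : ℝ) ^ d * q ≤ 1 / 2 * p * P := by
      calc 1 / 2 * y ^ (2 * d + 1) / (j : ℝ) ^ d * q ≤ 1 / 2 * P / (j : ℝ) ^ d * ((j : ℝ) ^ d * p) := by gcongr
        _ = 1 / 2 * p * P := by field_simp
    have h7 : (j : ℝ) ^ 2 / 400 * q ≤ s * S := by
      calc (j : ℝ) ^ 2 / 400 * q = ((j : ℝ) ^ 2 * q) / 400 := by ring
        _ ≤ s / 2 / 400 := by gcongr
        _ ≤ s * (1 / 400) := by linarith
        _ ≤ s * S := by gcongr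
    linarith
  have h5 : (K : ℝ) * y * q ≥ |DD (1 / 2) j * Q| := by
    rw [abs_mul, ← hq, mul_comm]
    exact mul_le_mul_of_nonneg_left hQ hq0
  have h6 : |(-1 : ℝ) ^ (d + 1 + j) * (DD ((d : ℝ) + 1 / 2) j * P + DD (1 / 2) j * Q +
      0 * L + (-1) ^ j * s * ((-1) ^ (d + 1) * S))| = |DD ((d : ℝ) + 1 / 2) j * P + DD (1 / 2) j * Q +
      0 * L + (-1) ^ j * s * ((-1) ^ (d + 1) * S)| := by
    rw [abs_mul, abs_pow, abs_neg, abs_one, one_pow, one_mul]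
  rw [← h6]
  refine le_trans ?_ (le_abs_self _)
  have h7 : (-1 : ℝ) ^ (d + 1 + j) * (DD ((d : ℝ) + 1 / 2) j * P + DD (1 / 2) j * Q +
      0 * L + (-1) ^ j * s * ((-1) ^ (d + 1) * S)) = ((-1 : ℝ) ^ (d + 1 + j) * DD ((d : ℝ) + 1 / 2) j) * P +
      (-1 : ℝ) ^ (d + 1 + j) * (DD (1 / 2) j * Q) + ((-1 : ℝ) ^ (d + 1 + j) * (-1) ^ (d + 1 + j)) * (s * S) := by
    rw [pow_add (-1 : ℝ) (d + 1) j]
    ring
  have h8 : (-1 : ℝ) ^ (d + 1 + j) * (-1) ^ (d + 1 + j) = 1 := by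
    rw [← pow_add, ← two_mul, pow_mul]
    norm_num
  rw [h7, h8, p_sign d hj, ← hp]
  have h9 : -|DD (1 / 2) j * Q| ≤ (-1 : ℝ) ^ (d + 1 + j) * (DD (1 / 2) j * Q) := by
    have : |(-1 : ℝ) ^ (d + 1 + j) * (DD (1 / 2) j * Q)| = |DD (1 / 2) j * Q| := by
      rw [abs_mul ((-1 : ℝ) ^ (d + 1 + j)), abs_pow, abs_neg, abs_one, one_pow, one_mul]
    rw [← this]
    exact neg_abs_le _
  linarith

/-- the lower bound, derivatives of low order -/
lemma low_low {d K j : ℕ} {E y P Q S L : ℝ} (hd : 1 ≤ d) (hE : 0 ≤ E) (hK : (K : ℝ) ≤ E * y)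
    (hy : 2 * (E * d.factorial + (d + 1).factorial) ≤ y) (hy1 : 1 ≤ y) (hj : j ≤ d)
    (hP : y ^ (2 * d + 1) ≤ P) (hQ : |Q| ≤ K * y) (hS0 : 0 ≤ S) (hS : S ≤ 1) (hL : 0 ≤ L) :
    1 / 2 * |DD ((d : ℝ) + 1 / 2) j| * P ≤ |DD ((d : ℝ) + 1 / 2) j * P + DD (1 / 2) j * Q +
      DD 1 j * L + DD (-2) j * ((-1) ^ (d + 1) * S)| := by
  have hp := one_le_p (d := d) hj
  rw [abs_of_pos (by linarith : 0 < DD ((d : ℝ) + 1 / 2) j)]
  refine le_trans ?_ (le_abs_self _)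
  set p := DD ((d : ℝ) + 1 / 2) j with hpp
  have hP0 : 0 < P := lt_of_lt_of_le (by positivity) hP
  have hfd : (0 : ℝ) < d.factorial := by positivity
  have h1 : -((d.factorial : ℝ) * (E * y * y)) ≤ DD (1 / 2) j * Q := by
    have h2 : |DD (1 / 2) j * Q| ≤ (d.factorial : ℝ) * (E * y * y) := by
      rw [abs_mul]
      have h3 : |DD (1 / 2) j| ≤ d.factorial :=
        (q_le_fact' j).trans (by exact_mod_cast Nat.factorial_le hj)
      have h4 : |Q| ≤ E * y * y := hQ.trans (by gcongr)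
      gcongr
    linarith [neg_abs_le (DD (1 / 2) j * Q)]
  have h2 : -((d + 1).factorial : ℝ) ≤ DD (-2) j * ((-1) ^ (d + 1) * S) := by
    have h3 : |DD (-2) j * ((-1) ^ (d + 1) * S)| ≤ ((d + 1).factorial : ℝ) := by
      rw [DD_neg_two, abs_mul, abs_mul, abs_mul, abs_pow, abs_pow, abs_neg, abs_one, one_pow, one_pow,
        one_mul, one_mul, abs_of_nonneg hS0, abs_of_nonneg (by positivity : (0 : ℝ) ≤ (j + 1).factorial)]
      have h4 : ((j + 1).factorial : ℝ) ≤ (d + 1).factorial := by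
        exact_mod_cast Nat.factorial_le (by omega)
      calc ((j + 1).factorial : ℝ) * S ≤ (d + 1).factorial * 1 := by gcongr
        _ = _ := mul_one _
    linarith [neg_abs_le (DD (-2) j * ((-1) ^ (d + 1) * S))]
  have h3 : 0 ≤ DD 1 j * L := mul_nonneg (DD_one_nonneg j) hL
  have h4 : (d.factorial : ℝ) * (E * y * y) + (d + 1).factorial ≤ 1 / 2 * p * P := by
    have h5 : (1 : ℝ) ≤ y ^ 2 := one_le_pow₀ hy1
    have h6 : (d.factorial : ℝ) * (E * y * y) + (d + 1).factorial ≤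
        (E * d.factorial + (d + 1).factorial) * y ^ 2 := by
      have : (0 : ℝ) < (d + 1).factorial := by positivity
      nlinarith
    have h7 : (E * d.factorial + (d + 1).factorial) * y ^ 2 ≤ (y / 2) * y ^ 2 := by
      apply mul_le_mul_of_nonneg_right (by linarith) (by positivity)
    have h8 : (y / 2) * y ^ 2 = 1 / 2 * y ^ 3 := by ring
    have h9 : y ^ 3 ≤ y ^ (2 * d + 1) := pow_le_pow_right₀ hy1 (by omega)
    have h10 : 1 / 2 * P ≤ 1 / 2 * p * P := by nlinarith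
    linarith
  linarith

/-- **admissibility** -/
lemma adm_gz {d K : ℕ} {E c₁ c₂ N F T U V : ℝ} (hd : 1 ≤ d) (hE : 0 ≤ E) (hN : 1 ≤ N) (hNF : N ≤ F)
    (hc₁ : 0 < c₁) (hT : 0 < T) (hV : 0 ≤ V) (hV1 : V ≤ 1)
    (hlow : c₁ * F ≤ T * N ^ ((d : ℝ) + 1 / 2)) (hup : T * (2 * N) ^ ((d : ℝ) + 1 / 2) ≤ c₂ * F)
    (hy : ∀ x ∈ Set.Icc N (2 * N), ∃ y : ℝ, 1 ≤ y ∧ 4 * 400 ^ d * E ^ 2 ≤ y ∧
      2 * (E * d.factorial + (d + 1).factorial) ≤ y ∧ (K : ℝ) ≤ E * y ∧ (K : ℝ) ^ (d + 1) ≤ E * y ^ d ∧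
      y ^ (2 * d + 1) ≤ T * x ^ ((d : ℝ) + 1 / 2) ∧ |U * x ^ ((1 : ℝ) / 2)| ≤ K * y) :
    Admissible (fun j => 1 / 2 * |DD ((d : ℝ) + 1 / 2) j| * c₁ / 2 ^ j)
      (fun j => |DD ((d : ℝ) + 1 / 2) j| * c₂ + |DD (1 / 2) j| * c₂ + |DD 1 j| * 2 + |DD (-2) j|)
      N F (gz d T U V ((-1) ^ (d + 1) * (N ^ 2 / 100))) := by
  have hN0 : 0 < N := by linarith
  have hF0 : 0 < F := by linarith
  refine ⟨fun x hx => (cd_gz d T U V _ (hN0.trans_le hx.1) _).contDiffWithinAt, fun j x hx => ?_⟩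
  have hx0 : 0 < x := hN0.trans_le hx.1
  obtain ⟨y, hy1, hy2, hy3, hK, hK2, hyP, hyQ⟩ := hy x hx
  rw [iterW_gz d T U V _ j hN0 hx, gj_eq d T U V _ j hx0, abs_div, abs_of_pos (by positivity : 0 < x ^ j)]
  have eS : (-1 : ℝ) ^ (d + 1) * (N ^ 2 / 100) * x ^ (-2 : ℝ) = (-1) ^ (d + 1) * ((N / x) ^ 2 / 100) := by
    rw [Real.rpow_neg hx0.le, show (2 : ℝ) = ((2 : ℕ) : ℝ) by norm_num, Real.rpow_natCast]
    field_simp
  rw [eS]
  set S := (N / x) ^ 2 / 100 with hS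
  have hNx : 1 / 2 ≤ N / x := by
    rw [div_le_div_iff₀ (by norm_num) hx0]
    linarith [hx.2]
  have hNx1 : N / x ≤ 1 := by
    rw [div_le_one hx0]
    exact hx.1
  have hS1 : 1 / 400 ≤ S := by
    rw [hS]
    have : (1 / 2 : ℝ) ^ 2 ≤ (N / x) ^ 2 := by gcongr
    linarith
  have hS2 : S ≤ 1 := by
    rw [hS]
    have : (N / x) ^ 2 ≤ 1 := pow_le_one₀ (by positivity) hNx1
    linarith
  set P := T * x ^ ((d : ℝ) + 1 / 2) with hP
  set Q := U * x ^ ((1 : ℝ) / 2) with hQ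
  have hPlow : c₁ * F ≤ P := by
    refine hlow.trans ?_
    rw [hP]
    have : N ^ ((d : ℝ) + 1 / 2) ≤ x ^ ((d : ℝ) + 1 / 2) :=
      Real.rpow_le_rpow hN0.le hx.1 (by positivity)
    gcongr
  have hPup : P ≤ c₂ * F := by
    refine le_trans ?_ hup
    rw [hP]
    have : x ^ ((d : ℝ) + 1 / 2) ≤ (2 * N) ^ ((d : ℝ) + 1 / 2) :=
      Real.rpow_le_rpow hx0.le hx.2 (by positivity)
    gcongr
  have hQP : |Q| ≤ P := by
    refine hyQ.trans (le_trans ?_ hyP)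
    have h1 : (E : ℝ) ≤ y := by
      have : (1 : ℝ) ≤ d.factorial := by exact_mod_cast Nat.succ_le_of_lt (Nat.factorial_pos d)
      have h3 : (0 : ℝ) < (d + 1).factorial := by positivity
      nlinarith
    have h2 : y ^ 3 ≤ y ^ (2 * d + 1) := pow_le_pow_right₀ hy1 (by omega)
    calc (K : ℝ) * y ≤ E * y * y := by gcongr
      _ ≤ y * y * y := by gcongr
      _ = y ^ 3 := by ring
      _ ≤ _ := h2
  constructor
  · have hmain : 1 / 2 * |DD ((d : ℝ) + 1 / 2) j| * P ≤ |DD ((d : ℝ) + 1 / 2) j * P + DD (1 / 2) j * Q +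
        DD 1 j * (V * x) + DD (-2) j * ((-1) ^ (d + 1) * S)| := by
      rcases le_or_gt j d with hj | hj
      · exact low_low hd hE hK hy3 hy1 hj hyP hyQ (by linarith) hS2 (by positivity)
      · exact low_high hd hE hK hK2 hy2 hy1 hj hyP hyQ hS1 _
    have hxj : x ^ j ≤ 2 ^ j * N ^ j := by
      rw [← mul_pow]
      gcongr
      exact hx.2
    calc 1 / 2 * |DD ((d : ℝ) + 1 / 2) j| * c₁ / 2 ^ j * F / N ^ j =
        (1 / 2 * |DD ((d : ℝ) + 1 / 2) j| * (c₁ * F)) / (2 ^ j * N ^ j) := by field_simp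
      _ ≤ (1 / 2 * |DD ((d : ℝ) + 1 / 2) j| * P) / x ^ j := by gcongr
      _ ≤ _ := by gcongr
  · have h1 : |DD ((d : ℝ) + 1 / 2) j * P + DD (1 / 2) j * Q + DD 1 j * (V * x) +
        DD (-2) j * ((-1) ^ (d + 1) * S)| ≤ (|DD ((d : ℝ) + 1 / 2) j| * c₂ + |DD (1 / 2) j| * c₂ +
        |DD 1 j| * 2 + |DD (-2) j|) * F := by
      have hP0 : 0 < P := lt_of_lt_of_le (by positivity) hPlow
      have a1 : |DD ((d : ℝ) + 1 / 2) j * P| ≤ |DD ((d : ℝ) + 1 / 2) j| * (c₂ * F) := by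
        rw [abs_mul, abs_of_pos hP0]
        gcongr
      have a2 : |DD (1 / 2) j * Q| ≤ |DD (1 / 2) j| * (c₂ * F) := by
        rw [abs_mul]
        gcongr
        exact hQP.trans hPup
      have a3 : |DD 1 j * (V * x)| ≤ |DD 1 j| * (2 * F) := by
        rw [abs_mul, abs_of_nonneg (by positivity : 0 ≤ V * x)]
        apply mul_le_mul_of_nonneg_left _ (abs_nonneg _)
        calc V * x ≤ 1 * (2 * N) := by
              apply mul_le_mul hV1 hx.2 hx0.le zero_le_one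
          _ ≤ 2 * F := by linarith
      have a4 : |DD (-2) j * ((-1) ^ (d + 1) * S)| ≤ |DD (-2) j| * F := by
        rw [abs_mul, abs_mul ((-1 : ℝ) ^ (d + 1)), abs_pow, abs_neg, abs_one, one_pow, one_mul,
          abs_of_pos (by linarith : 0 < S)]
        gcongr
        linarith
      have b1 := abs_add_le (DD ((d : ℝ) + 1 / 2) j * P + DD (1 / 2) j * Q + DD 1 j * (V * x))
        (DD (-2) j * ((-1) ^ (d + 1) * S))
      have b2 := abs_add_le (DD ((d : ℝ) + 1 / 2) j * P + DD (1 / 2) j * Q) (DD 1 j * (V * x))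
      have b3 := abs_add_le (DD ((d : ℝ) + 1 / 2) j * P) (DD (1 / 2) j * Q)
      linarith
    calc _ ≤ ((|DD ((d : ℝ) + 1 / 2) j| * c₂ + |DD (1 / 2) j| * c₂ +
        |DD 1 j| * 2 + |DD (-2) j|) * F) / x ^ j := by gcongr
      _ ≤ _ := by
        apply div_le_div_of_nonneg_left _ (by positivity)
        · gcongr
          exact hx.1
        · exact (abs_nonneg _).trans h1

end Pool.Agent.H502.XP
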