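import Pool.Agent.H502.XP.M1
import Pool.Agent.H502.XP.M3
import Pool.Agent.H502.XP.M4
import Pool.Agent.H502.XP.L3

/-!
# The sum over the blocks
-/

set_option autoImplicit false

open Finset
open Pool.Agent.H469R2.NK (e norm_e e_add e_zero e_nat)
open Pool.Agent.Q237.EP (e_add_int)

namespace Pool.Agent.H502.XP

noncomputable def Ad (d : ℕ) : ℝ := 100 * (Bd d * cr d) * 3600 ^ (d + 1) * 2 ^ d

noncomputable def Ed (d : ℕ) : ℝ := 2 ^ (d + 1) * Ad d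

lemma one_le_cr (d : ℕ) : 1 ≤ cr d := by
  induction d with
  | zero => simp [cr]
  | succ d ih =>
    rw [cr_succ]
    have : (0 : ℝ) ≤ d := by positivity
    nlinarith

lemma one_le_Bd (d : ℕ) : (1 : ℝ) ≤ Bd d := by exact_mod_cast Bd_pos d

lemma le_Ad (d : ℕ) : (3600 : ℝ) ^ (d + 1) ≤ Ad d := by
  unfold Ad
  have h1 := one_le_cr d
  have h2 := one_le_Bd d
  have h3 : (1 : ℝ) ≤ 2 ^ d := one_le_pow₀ (by norm_num)
  have h4 : (1 : ℝ) ≤ Bd d * cr d := by nlinarith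
  have h5 : (0 : ℝ) < 3600 ^ (d + 1) := by positivity
  calc (3600 : ℝ) ^ (d + 1) = 1 * 1 * 3600 ^ (d + 1) * 1 := by ring
    _ ≤ 100 * (Bd d * cr d) * 3600 ^ (d + 1) * 2 ^ d := by gcongr; norm_num

lemma Ad_pos (d : ℕ) : 0 < Ad d := lt_of_lt_of_le (by positivity) (le_Ad d)

lemma one_le_Ed (d : ℕ) : 1 ≤ Ed d := by
  unfold Ed
  have h1 : (1 : ℝ) ≤ 3600 ^ (d + 1) := one_le_pow₀ (by norm_num)
  have h2 := le_Ad d
  have h3 : (1 : ℝ) ≤ 2 ^ (d + 1) := one_le_pow₀ (by norm_num)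
  nlinarith

lemma exists_K (d : ℕ) {Y : ℝ} (hY : 1 ≤ Y) :
    ∃ K : ℕ, 2400 ≤ K ∧ Ad d * Y ^ d ≤ (K : ℝ) ^ (d + 1) ∧ (K : ℝ) ^ (d + 1) ≤ Ed d * Y ^ d := by
  classical
  have hA := Ad_pos d
  have hYd : 1 ≤ Y ^ d := one_le_pow₀ hY
  have hex : ∃ K : ℕ, Ad d * Y ^ d ≤ (K : ℝ) ^ (d + 1) := by
    refine ⟨⌈Ad d * Y ^ d⌉₊, ?_⟩
    have h1 := Nat.le_ceil (Ad d * Y ^ d)
    have h2 : (1 : ℝ) ≤ ⌈Ad d * Y ^ d⌉₊ := by
      have : 0 < ⌈Ad d * Y ^ d⌉₊ := Nat.ceil_pos.mpr (by positivity)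
      exact_mod_cast this
    exact h1.trans (le_self_pow₀ h2 (by omega))
  set K := Nat.find hex with hK
  have hspec : Ad d * Y ^ d ≤ (K : ℝ) ^ (d + 1) := Nat.find_spec hex
  have h2400 : 2400 ≤ K := by
    by_contra hcon
    push Not at hcon
    have h1 : (K : ℝ) ^ (d + 1) ≤ 2400 ^ (d + 1) := by
      gcongr
      exact_mod_cast hcon.le
    have h2 : (2400 : ℝ) ^ (d + 1) < 3600 ^ (d + 1) := by
      apply pow_lt_pow_left₀ (by norm_num) (by norm_num) (by omega)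
    have h3 := le_Ad d
    nlinarith
  refine ⟨K, h2400, hspec, ?_⟩
  have hmin : ¬ (Ad d * Y ^ d ≤ ((K - 1 : ℕ) : ℝ) ^ (d + 1)) := Nat.find_min hex (by omega)
  push Not at hmin
  have h1 : (K : ℝ) ≤ 2 * ((K - 1 : ℕ) : ℝ) := by
    have : K ≤ 2 * (K - 1) := by omega
    exact_mod_cast this
  calc (K : ℝ) ^ (d + 1) ≤ (2 * ((K - 1 : ℕ) : ℝ)) ^ (d + 1) := by gcongr
    _ = 2 ^ (d + 1) * ((K - 1 : ℕ) : ℝ) ^ (d + 1) := mul_pow _ _ _
    _ ≤ 2 ^ (d + 1) * (Ad d * Y ^ d) := by gcongr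
    _ = Ed d * Y ^ d := by unfold Ed; ring

/-- close to the integral points the phase is almost an integer -/
lemma near_re {d K m μ : ℕ} (hm : 1 ≤ m) (hμ : 1 ≤ μ) (hK : 2400 ≤ K)
    (h1 : 100 * (Bd d * cr d) * 3600 ^ (d + 1) * (μ : ℝ) ^ d ≤ (K : ℝ) ^ (d + 1))
    (h2 : |Real.sqrt m - μ| ≤ 1200 / K) {r : ℝ} (hr : |r| ≤ 1 / 100) :
    4 / 5 ≤ (e ((Bd d : ℝ) * (m : ℝ) ^ ((d : ℝ) + 1 / 2) + r)).re := by
  obtain ⟨z, hz⟩ := near_int (d := d) hm hμ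
  have hμ0 : (1 : ℝ) ≤ μ := by exact_mod_cast hμ
  have hK0 : (2400 : ℝ) ≤ K := by exact_mod_cast hK
  have hKp : (0 : ℝ) < K := by linarith
  set y := Real.sqrt m with hy
  have hy0 : 0 ≤ y := Real.sqrt_nonneg _
  have hy2 : y ^ 2 = m := Real.sq_sqrt (by positivity)
  have h3 : (1200 : ℝ) / K ≤ 1 / 2 := by
    rw [div_le_div_iff₀ hKp (by norm_num)]
    linarith
  have h4 := abs_le.mp (h2.trans h3)
  have h5 : |(m : ℝ) - (μ : ℝ) ^ 2| ≤ 3600 * μ / K := by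
    rw [← hy2, show y ^ 2 - (μ : ℝ) ^ 2 = (y - μ) * (y + μ) by ring, abs_mul, abs_of_nonneg (by positivity : 0 ≤ y + μ)]
    calc |y - μ| * (y + μ) ≤ 1200 / K * (3 * μ) := by
          apply mul_le_mul h2 (by linarith) (by positivity) (by positivity)
      _ = _ := by ring
  have hc := cr_pos d
  have hB : (0 : ℝ) < Bd d := by exact_mod_cast Bd_pos d
  have h6 : |(Bd d : ℝ) * (m : ℝ) ^ ((d : ℝ) + 1 / 2) - z| ≤ 1 / 100 := by
    refine hz.trans ?_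
    calc (Bd d : ℝ) * cr d * |(m : ℝ) - (μ : ℝ) ^ 2| ^ (d + 1) / μ ≤
        (Bd d : ℝ) * cr d * (3600 * μ / K) ^ (d + 1) / μ := by gcongr
      _ = ((Bd d * cr d) * 3600 ^ (d + 1) * (μ : ℝ) ^ d) / (K : ℝ) ^ (d + 1) := by
          rw [div_pow, mul_pow, pow_succ (μ : ℝ) d]
          field_simp
      _ ≤ 1 / 100 := by
          rw [div_le_div_iff₀ (by positivity) (by norm_num)]
          linarith
  set φ := (Bd d : ℝ) * (m : ℝ) ^ ((d : ℝ) + 1 / 2) with hφ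
  have h7 : e (φ + r) = e (φ + r - z) := by
    have : φ + r = (φ + r - z) + (z : ℝ) := by ring
    conv_lhs => rw [this]
    rw [e_add_int]
  rw [h7]
  have h8 := e_sub_one_le (φ + r - z)
  have h9 : |φ + r - z| ≤ 1 / 50 := by
    have : φ + r - z = (φ - z) + r := by ring
    rw [this]
    refine (abs_add_le _ _).trans ?_
    linarith
  have h10 : ‖e (φ + r - z) - 1‖ ≤ 1 / 5 := by
    refine h8.trans ?_
    have := Real.pi_lt_d2
    have := Real.pi_pos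
    have h11 : 2 * Real.pi * |φ + r - z| ≤ 2 * Real.pi * (1 / 50) := by gcongr
    linarith
  have h12 := (abs_le.mp ((Complex.abs_re_le_norm _).trans h10)).1
  rw [Complex.sub_re, Complex.one_re] at h12
  linarith

lemma pp_mono (a : ℕ) {μ ν : ℕ} (h : μ ≤ ν) : pp a μ ≤ pp a ν := by
  unfold pp
  apply Nat.div_le_div_right
  apply Nat.pow_le_pow_left
  omega

lemma sum_JJ (a μ : ℕ) (F : ℕ → ℝ) (k : ℕ) :
    ∑ n ∈ Ioc (pp a μ) (pp a (μ + k)), F n = ∑ i ∈ range k, ∑ n ∈ JJ a (μ + i), F n := by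
  induction k with
  | zero => simp
  | succ k ih =>
    rw [sum_range_succ, ← ih]
    unfold JJ
    rw [← Finset.sum_Ioc_consecutive F (pp_mono a (by omega : μ ≤ μ + k)) (pp_mono a (by omega : μ + k ≤ μ + (k + 1)))]
    rfl

lemma sum_mult {b : ℕ} (hb : 1 ≤ b) (p q : ℕ) (F : ℕ → ℂ) :
    ∑ n ∈ Ioc (b * p) (b * q) with b ∣ n, F n = ∑ n ∈ Ioc p q, F (b * n) := by
  symm
  apply sum_bij (fun n _ => b * n)
  · intro n hn
    rw [mem_Ioc] at hn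
    rw [mem_filter, mem_Ioc]
    exact ⟨⟨Nat.mul_lt_mul_of_pos_left hn.1 (by omega), Nat.mul_le_mul_left b hn.2⟩, dvd_mul_right b n⟩
  · intro n _ m _ h
    exact Nat.eq_of_mul_eq_mul_left (by omega) h
  · intro n hn
    rw [mem_filter, mem_Ioc] at hn
    obtain ⟨⟨h1, h2⟩, ⟨k, rfl⟩⟩ := hn
    refine ⟨k, ?_, rfl⟩
    rw [mem_Ioc]
    exact ⟨Nat.lt_of_mul_lt_mul_left h1, Nat.le_of_mul_le_mul_left h2 (by omega)⟩
  · intro n _
    rfl

end Pool.Agent.H502.XP
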