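import Pool.Agent.H502.XP.M5

/-!
# Large sums: the core
-/

set_option autoImplicit false

open Finset
open Pool.Agent.H469R2.NK (e norm_e e_add e_zero e_nat)
open Pool.Agent.Q237.EP (e_add_int)

namespace Pool.Agent.H502.XP

noncomputable def Y0 (d : ℕ) : ℝ :=
  100 + 4 * 400 ^ d * (Ed d) ^ 2 + 2 * (Ed d * d.factorial + (d + 1).factorial)

lemma Y0_ge (d : ℕ) : 100 ≤ Y0 d ∧ 4 * 400 ^ d * (Ed d) ^ 2 ≤ Y0 d ∧
    2 * (Ed d * d.factorial + (d + 1).factorial) ≤ Y0 d := by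
  unfold Y0
  have h1 := one_le_Ed d
  have h2 : 0 ≤ 4 * 400 ^ d * (Ed d) ^ 2 := by positivity
  have h3 : 0 ≤ 2 * (Ed d * d.factorial + (d + 1).factorial) := by positivity
  refine ⟨by linarith, by linarith, by linarith⟩

/-- the constants -/
noncomputable def cl (d : ℕ) (c₁ : ℝ) (j : ℕ) : ℝ := 1 / 2 * |DD ((d : ℝ) + 1 / 2) j| * c₁ / 2 ^ j
noncomputable def cu (d : ℕ) (c₂ : ℝ) (j : ℕ) : ℝ :=
  |DD ((d : ℝ) + 1 / 2) j| * c₂ + |DD (1 / 2) j| * c₂ + |DD 1 j| * 2 + |DD (-2) j|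

lemma core {d a b : ℕ} {N F c₁ c₂ Y : ℝ} (hd : 1 ≤ d) (ha : 1 ≤ a) (hb : 1 ≤ b) (hN : 1 ≤ N)
    (hNF : N ≤ F) (hc₁ : 0 < c₁) (hY : Y ^ 2 = a * N / b) (hY0 : Y0 d ≤ Y)
    (hH : (20 * (a : ℝ)) ^ (d + 1) * Ed d ≤ Y)
    (hlow : c₁ * F ≤ Bd d * (a * N / b) ^ ((d : ℝ) + 1 / 2))
    (hup : Bd d * (2 * (a * N / b)) ^ ((d : ℝ) + 1 / 2) ≤ c₂ * F) :
    ∃ f : ℝ → ℝ, Admissible (cl d c₁) (cu d c₂) N F f ∧ ∃ N' : ℝ, N ≤ N' ∧ N' ≤ 2 * N ∧
      ∃ K : ℕ, 1 ≤ K ∧ (K : ℝ) ^ (d + 1) ≤ Ed d * Y ^ d ∧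
        3 / 4000 * (Y ^ 2 / (K * a)) ≤ ‖expSum f N N'‖ := by
  obtain ⟨hY1, hY2, hY3⟩ := Y0_ge d
  have hE := one_le_Ed d
  have hY100 : 100 ≤ Y := hY1.trans hY0
  have hYp : 0 < Y := by linarith
  obtain ⟨K, hK2400, hKA, hKE⟩ := exists_K d (by linarith : 1 ≤ Y)
  have hK1 : 1 ≤ K := by omega
  have hKp : (0 : ℝ) < K := by exact_mod_cast hK1
  have hap : (0 : ℝ) < a := by exact_mod_cast ha
  have hbp : (0 : ℝ) < b := by exact_mod_cast hb
  have ha1 : (1 : ℝ) ≤ a := by exact_mod_cast ha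
  have hNp : 0 < N := by linarith
  -- `20 K a ≤ Y`
  have h20 : 20 * (K : ℝ) * a ≤ Y := by
    have h1 : (20 * (K : ℝ) * a) ^ (d + 1) ≤ Y ^ (d + 1) := by
      calc (20 * (K : ℝ) * a) ^ (d + 1) = (20 * (a : ℝ)) ^ (d + 1) * (K : ℝ) ^ (d + 1) := by
            rw [← mul_pow]; ring
        _ ≤ (20 * (a : ℝ)) ^ (d + 1) * (Ed d * Y ^ d) := by gcongr
        _ = ((20 * (a : ℝ)) ^ (d + 1) * Ed d) * Y ^ d := by ring
        _ ≤ Y * Y ^ d := by gcongr
        _ = Y ^ (d + 1) := by ring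
    exact (pow_le_pow_iff_left₀ (by positivity) hYp.le (by omega)).mp h1
  have hKY : (K : ℝ) ≤ Ed d * Y := by
    have h1 : (K : ℝ) ^ (d + 1) ≤ (Ed d * Y) ^ (d + 1) := by
      refine hKE.trans ?_
      rw [mul_pow]
      have h2 : Ed d ≤ Ed d ^ (d + 1) := le_self_pow₀ hE (by omega)
      have h3 : Y ^ d ≤ Y ^ (d + 1) := pow_le_pow_right₀ (by linarith) (by omega)
      gcongr
    exact (pow_le_pow_iff_left₀ (by positivity) (by positivity) (by omega)).mp h1
  -- the range of `μ`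
  have hc1 := Nat.le_ceil Y
  have hc2 := Nat.ceil_lt_add_one hYp.le
  have hf1 := Nat.floor_le (by positivity : 0 ≤ 7 / 5 * Y)
  have hf2 := Nat.lt_floor_add_one (7 / 5 * Y)
  set μ₀ := ⌈Y⌉₊ + 1 with hμ₀
  set μ₁ := ⌊7 / 5 * Y⌋₊ with hμ₁
  have hμ₀l : Y + 1 ≤ μ₀ := by rw [hμ₀]; push_cast; linarith
  have hμ₀u : (μ₀ : ℝ) ≤ Y + 2 := by rw [hμ₀]; push_cast; linarith
  have hμ01 : μ₀ ≤ μ₁ := by
    have : (μ₀ : ℝ) ≤ μ₁ := by linarith
    exact_mod_cast this
  obtain ⟨k, hk⟩ : ∃ k, μ₁ = μ₀ + k := ⟨μ₁ - μ₀, by omega⟩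
  have hkR : (μ₁ : ℝ) = μ₀ + k := by exact_mod_cast hk
  have hkl : 3 / 10 * Y ≤ k := by linarith
  have hYa : (a : ℝ) ≤ Y := by
    have : (1 : ℝ) ≤ K := by exact_mod_cast hK1
    nlinarith
  -- the end points
  have hP0 : N ≤ ((b * pp a μ₀ : ℕ) : ℝ) := by
    have h1 : (2 * μ₀ - 1) ^ 2 < (4 * a) * (pp a μ₀ + 1) := by
      unfold pp
      exact Nat.lt_mul_div_succ _ (by omega)
    have h2 : (2 * (μ₀ : ℝ) - 1) ^ 2 < (4 * a) * (pp a μ₀ + 1) := by
      have h3 : (((2 * μ₀ - 1) ^ 2 : ℕ) : ℝ) < (((4 * a) * (pp a μ₀ + 1) : ℕ) : ℝ) := by exact_mod_cast h1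
      rw [Nat.cast_pow, Nat.cast_sub (by omega)] at h3
      push_cast at h3
      exact h3
    have h3 : (2 * Y + 1) ^ 2 ≤ (2 * (μ₀ : ℝ) - 1) ^ 2 := by gcongr; linarith
    have h4 : 4 * Y ^ 2 < 4 * a * (pp a μ₀ : ℝ) := by nlinarith
    rw [hY] at h4
    have h5 : a * N / b < a * (pp a μ₀ : ℝ) := by linarith
    rw [div_lt_iff₀ hbp] at h5
    push_cast
    have h6 : a * N < a * (b * (pp a μ₀ : ℝ)) := by linarith
    exact (lt_of_mul_lt_mul_left h6 hap.le).le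
  have hP1 : ((b * pp a μ₁ : ℕ) : ℝ) ≤ 2 * N := by
    have h1 : pp a μ₁ * (4 * a) ≤ (2 * μ₁ - 1) ^ 2 := by
      unfold pp
      exact Nat.div_mul_le_self _ _
    have h2 : (pp a μ₁ : ℝ) * (4 * a) ≤ (14 / 5 * Y) ^ 2 := by
      have h3 : ((pp a μ₁ * (4 * a) : ℕ) : ℝ) ≤ (((2 * μ₁ - 1) ^ 2 : ℕ) : ℝ) := by exact_mod_cast h1
      rw [Nat.cast_pow, Nat.cast_sub (by omega)] at h3
      push_cast at h3
      refine h3.trans ?_
      have h4 : (1 : ℝ) ≤ μ₁ := by linarith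
      gcongr <;> linarith
    have h3 : (14 / 5 * Y) ^ 2 ≤ 8 * Y ^ 2 := by nlinarith
    have h4 : (pp a μ₁ : ℝ) * (4 * a) ≤ 8 * (a * N / b) := by rw [← hY]; linarith
    have h5 : (pp a μ₁ : ℝ) * a ≤ (2 * (a * N)) / b := by
      have : 8 * (a * N / b) = 4 * (2 * (a * N) / b) := by ring
      linarith
    rw [le_div_iff₀ hbp] at h5
    push_cast
    have h6 : a * (b * (pp a μ₁ : ℝ)) ≤ a * (2 * N) := by linarith
    exact le_of_mul_le_mul_left h6 hap
  -- the phases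
  set R : ℝ := (-1) ^ (d + 1) * (N ^ 2 / 100) with hR
  set φ : ℕ → ℝ := fun n => (Bd d : ℝ) * ((a * n : ℕ) : ℝ) ^ ((d : ℝ) + 1 / 2) +
    R * ((b * n : ℕ) : ℝ) ^ (-2 : ℝ) with hφ
  have hblock : ∀ i ∈ range k, (Y / (100 * (K * a)) : ℝ) ≤
      ∑ n ∈ JJ a (μ₀ + i), W K (Real.sqrt (a * n)) * (e (φ n)).re := by
    intro i hi
    rw [mem_range] at hi
    have hi' : (i : ℝ) ≤ k := by exact_mod_cast hi.le
    have h1 : 20 * K * a ≤ μ₀ + i := by
      have : (20 * (K : ℝ) * a) ≤ μ₀ + i := by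
        have : (0 : ℝ) ≤ i := by positivity
        linarith
      exact_mod_cast this
    have h2 := block ha hK2400 h1 φ (by
      intro n hn hnear
      have hn1 : 1 ≤ n := by
        unfold JJ at hn
        rw [mem_Ioc] at hn
        omega
      have hr : |R * ((b * n : ℕ) : ℝ) ^ (-2 : ℝ)| ≤ 1 / 100 := by
        have hbn : N ≤ ((b * n : ℕ) : ℝ) := by
          refine hP0.trans ?_
          have h3 : pp a μ₀ ≤ n := by
            unfold JJ at hn
            rw [mem_Ioc] at hn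
            exact (pp_mono a (by omega : μ₀ ≤ μ₀ + i)).trans hn.1.le
          exact_mod_cast Nat.mul_le_mul_left b h3
        have hbn0 : (0 : ℝ) < ((b * n : ℕ) : ℝ) := by linarith
        rw [hR, abs_mul, abs_mul, abs_pow, abs_neg, abs_one, one_pow, one_mul, abs_of_pos (by positivity),
          Real.rpow_neg hbn0.le, show (2 : ℝ) = ((2 : ℕ) : ℝ) by norm_num, Real.rpow_natCast,
          abs_of_pos (by positivity)]
        rw [← div_eq_mul_inv, div_le_iff₀ (by positivity)]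
        have h4 : N ^ 2 ≤ ((b * n : ℕ) : ℝ) ^ 2 := by gcongr
        linarith
      have h3 : 100 * (Bd d * cr d) * 3600 ^ (d + 1) * ((μ₀ + i : ℕ) : ℝ) ^ d ≤ (K : ℝ) ^ (d + 1) := by
        refine le_trans ?_ hKA
        have h4 : ((μ₀ + i : ℕ) : ℝ) ≤ 2 * Y := by
          push_cast
          linarith
        have hc := cr_pos d
        calc 100 * (Bd d * cr d) * 3600 ^ (d + 1) * ((μ₀ + i : ℕ) : ℝ) ^ d ≤
            100 * (Bd d * cr d) * 3600 ^ (d + 1) * (2 * Y) ^ d := by gcongr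
          _ = Ad d * Y ^ d := by unfold Ad; rw [mul_pow]; ring
      have h5 : |Real.sqrt ((a * n : ℕ) : ℝ) - ((μ₀ + i : ℕ) : ℝ)| ≤ 1200 / K := by
        push_cast at hnear ⊢
        exact hnear
      exact near_re (Nat.mul_pos (by omega) (by omega)) (by omega) hK2400 h3 h5 hr)
    refine le_trans ?_ h2
    have h3 : Y ≤ ((μ₀ + i : ℕ) : ℝ) := by
      push_cast
      have : (0 : ℝ) ≤ i := by positivity
      linarith
    gcongr
  set LB : ℝ := 3 / 1000 * (Y ^ 2 / (K * a)) with hLB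
  have hLB0 : 0 < LB := by positivity
  have htot : LB ≤ ∑ n ∈ Ioc (pp a μ₀) (pp a μ₁), W K (Real.sqrt (a * n)) * (e (φ n)).re := by
    rw [hk, sum_JJ]
    refine le_trans ?_ (sum_le_sum hblock)
    rw [sum_const, card_range, nsmul_eq_mul]
    calc LB = 3 / 10 * Y * (Y / (100 * (K * a))) := by rw [hLB]; field_simp; ring
      _ ≤ k * (Y / (100 * (K * a))) := by gcongr
  -- the large sum
  set T : ℝ := Bd d * ((a : ℝ) / b) ^ ((d : ℝ) + 1 / 2) with hT
  set g : ℕ → ℝ := fun n => T * (n : ℝ) ^ ((d : ℝ) + 1 / 2) + R * (n : ℝ) ^ (-2 : ℝ) with hg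
  set ψ : ℕ → ℝ := fun n => ((a : ℝ) / b) ^ ((1 : ℝ) / 2) * (n : ℝ) ^ ((1 : ℝ) / 2) with hψ
  have hex : ∃ c < b, ∃ k' < K, ∃ l < K, LB / 2 <
      ‖∑ n ∈ Ioc (b * pp a μ₀) (b * pp a μ₁), e (g n + (c : ℝ) / b * n + ((k' : ℝ) - l) * ψ n)‖ := by
    by_contra hcon
    push Not at hcon
    have h1 := avg_both hK1 hb (Ioc (b * pp a μ₀) (b * pp a μ₁)) g ψ hcon
    rw [sum_mult hb] at h1
    have h2 : (∑ n ∈ Ioc (pp a μ₀) (pp a μ₁), ((W K (ψ (b * n)) : ℝ) : ℂ) * e (g (b * n))).re =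
        ∑ n ∈ Ioc (pp a μ₀) (pp a μ₁), W K (Real.sqrt (a * n)) * (e (φ n)).re := by
      rw [Complex.re_sum]
      apply sum_congr rfl
      intro n _
      rw [Complex.re_ofReal_mul]
      have e0 : (a : ℝ) / b * ((b * n : ℕ) : ℝ) = a * n := by
        push_cast
        field_simp
      have e1 : ψ (b * n) = Real.sqrt (a * n) := by
        rw [hψ, Real.sqrt_eq_rpow]
        simp only
        rw [← Real.mul_rpow (by positivity) (by positivity), e0]
      have e2 : g (b * n) = φ n := by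
        rw [hg, hφ, hT]
        simp only
        rw [mul_assoc, ← Real.mul_rpow (by positivity) (by positivity), e0]
        push_cast
        rfl
      rw [e1, e2]
    have h3 := (le_abs_self _).trans (Complex.abs_re_le_norm
      (∑ n ∈ Ioc (pp a μ₀) (pp a μ₁), ((W K (ψ (b * n)) : ℝ) : ℂ) * e (g (b * n))))
    rw [h2] at h3
    linarith
  obtain ⟨c, hc, k', hk', l, hl, hbig⟩ := hex
  set U : ℝ := ((k' : ℝ) - l) * ((a : ℝ) / b) ^ ((1 : ℝ) / 2) with hU
  set V : ℝ := (c : ℝ) / b with hV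
  have hsum : ∑ n ∈ Ioc (b * pp a μ₀) (b * pp a μ₁), e (g n + (c : ℝ) / b * n + ((k' : ℝ) - l) * ψ n) =
      ∑ n ∈ Ioc (b * pp a μ₀) (b * pp a μ₁), e (gz d T U V R n) := by
    apply sum_congr rfl
    intro n _
    congr 1
    rw [hg, hψ, hU, hV]
    unfold gz
    simp only
    ring
  rw [hsum] at hbig
  have hbcl : (0 : ℝ) ≤ Bd d := by positivity
  refine ⟨gz d T U V R, ?_, ?_⟩
  · -- admissibility
    have hab : (0 : ℝ) < (a : ℝ) / b := by positivity
    apply adm_gz (E := Ed d) (K := K) hd (by linarith) hN hNF hc₁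
    · have := Bd_pos d
      have hB : (0 : ℝ) < Bd d := by exact_mod_cast this
      rw [hT]
      positivity
    · rw [hV]; positivity
    · rw [hV, div_le_one hbp]
      exact_mod_cast hc.le
    · refine hlow.trans (le_of_eq ?_)
      rw [hT, mul_assoc, ← Real.mul_rpow hab.le hNp.le]
      congr 2
      ring
    · refine le_trans (le_of_eq ?_) hup
      rw [hT, mul_assoc, ← Real.mul_rpow hab.le (by positivity)]
      congr 2
      ring
    · intro x hx
      have hx0 : 0 < x := hNp.trans_le hx.1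
      set y := ((a : ℝ) / b * x) ^ ((1 : ℝ) / 2) with hy
      have hyY : Y ≤ y := by
        have h1 : Y = (Y ^ 2) ^ ((1 : ℝ) / 2) := by
          rw [← Real.sqrt_eq_rpow, Real.sqrt_sq hYp.le]
        rw [h1, hY, hy]
        apply Real.rpow_le_rpow (by positivity) _ (by norm_num)
        calc (a : ℝ) * N / b = a / b * N := by ring
          _ ≤ a / b * x := by
            have := hx.1
            gcongr
      have hy1 : 1 ≤ y := by linarith
      refine ⟨y, hy1, by linarith, by linarith, ?_, ?_, ?_, ?_⟩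
      · refine hKY.trans ?_
        gcongr
      · refine hKE.trans ?_
        gcongr
      · rw [hT, mul_assoc, ← Real.mul_rpow hab.le hx0.le]
        have h1 : ((a : ℝ) / b * x) ^ ((d : ℝ) + 1 / 2) = y ^ (2 * d + 1) := by
          rw [hy, ← Real.rpow_natCast, ← Real.rpow_mul (by positivity)]
          congr 1
          push_cast
          ring
        rw [h1]
        have h2 := one_le_Bd d
        have h3 : 0 ≤ y ^ (2 * d + 1) := by positivity
        nlinarith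
      · rw [hU, mul_assoc, ← Real.mul_rpow hab.le hx0.le, ← hy, abs_mul, abs_of_pos (by linarith : 0 < y)]
        have h1 : |(k' : ℝ) - l| ≤ K := by
          rw [abs_le]
          have h2 : (k' : ℝ) ≤ K := by exact_mod_cast hk'.le
          have h3 : (l : ℝ) ≤ K := by exact_mod_cast hl.le
          have h4 : (0 : ℝ) ≤ k' := by positivity
          have h5 : (0 : ℝ) ≤ l := by positivity
          constructor <;> linarith
        gcongr
  · -- the end point
    set p := b * pp a μ₀ with hp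
    set q := b * pp a μ₁ with hq
    have hpq : p ≤ q := Nat.mul_le_mul_left b (pp_mono a hμ01)
    have hpqR : (p : ℝ) ≤ q := by exact_mod_cast hpq
    have hNp' : ⌈N⌉₊ ≤ p := Nat.ceil_le.mpr hP0
    have hsplit : ∑ n ∈ Ioc p q, e (gz d T U V R (n : ℕ)) =
        expSum (gz d T U V R) N q - expSum (gz d T U V R) N p := by
      rw [expSum_eq, expSum_eq, Nat.floor_natCast, Nat.floor_natCast]
      have e1 : ∀ k : ℕ, Finset.Icc ⌈N⌉₊ k = Finset.Ico ⌈N⌉₊ (k + 1) := by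
        intro k
        ext l
        simp only [Finset.mem_Icc, Finset.mem_Ico]
        omega
      have e2 : Ioc p q = Ico (p + 1) (q + 1) := by
        ext l
        simp only [Finset.mem_Ioc, Finset.mem_Ico]
        omega
      rw [e1, e1, e2]
      have := Finset.sum_Ico_consecutive (fun k : ℕ => e (gz d T U V R (k : ℝ)))
        (by omega : ⌈N⌉₊ ≤ p + 1) (by omega : p + 1 ≤ q + 1)
      rw [← this]
      ring
    rw [hsplit] at hbig
    have hLB2 : 3 / 4000 * (Y ^ 2 / (K * a)) = LB / 4 := by rw [hLB]; ring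
    have hor : LB / 4 ≤ ‖expSum (gz d T U V R) N q‖ ∨ LB / 4 ≤ ‖expSum (gz d T U V R) N p‖ := by
      by_contra hcon
      push Not at hcon
      have := norm_sub_le (expSum (gz d T U V R) N q) (expSum (gz d T U V R) N p)
      linarith [hcon.1, hcon.2]
    rcases hor with h5 | h5
    · exact ⟨q, by linarith, hP1, K, hK1, hKE, hLB2.le.trans h5⟩
    · exact ⟨p, hP0, by linarith, K, hK1, hKE, hLB2.le.trans h5⟩

end Pool.Agent.H502.XP
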