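import Pool.Agent.H502.XP.M6

/-!
# Large sums for all `F`
-/

set_option autoImplicit false

open Finset

namespace Pool.Agent.H502.XP

lemma cl_pos (d : ℕ) {c₁ : ℝ} (h : 0 < c₁) (j : ℕ) : 0 < cl d c₁ j := by
  unfold cl
  have := abs_pos.mpr (DD_half_ne d j)
  positivity

lemma cu_pos (d : ℕ) {c₂ : ℝ} (h : 0 < c₂) (j : ℕ) : 0 < cu d c₂ j := by
  unfold cu
  have := abs_pos.mpr (DD_half_ne d j)
  positivity

/-- the general form -/
lemma gen {d a b : ℕ} {N F M : ℝ} (hd : 1 ≤ d) (ha : 1 ≤ a) (hb : 1 ≤ b) (hN : 1 ≤ N)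
    (hNF : N ≤ F) (hM : M = (F / Bd d) ^ (1 / ((d : ℝ) + 1 / 2)))
    (h1 : M / 2 ≤ a * N / b) (h2 : a * N / b ≤ M) (hM1 : 1 ≤ M)
    (hY0 : Y0 d ≤ Real.sqrt (M / 2)) (hH : (20 * (a : ℝ)) ^ (d + 1) * Ed d ≤ Real.sqrt (M / 2)) :
    ∃ f : ℝ → ℝ, Admissible (cl d (1 / 2 ^ (d + 1))) (cu d (2 ^ (d + 1))) N F f ∧
      ∃ N' : ℝ, N ≤ N' ∧ N' ≤ 2 * N ∧
        3 / (8000 * Ed d) * (M ^ (((d : ℝ) + 2) / (2 * (d + 1))) / a) ≤ ‖expSum f N N'‖ := by
  have hE := one_le_Ed d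
  have hap : (0 : ℝ) < a := by exact_mod_cast ha
  have hbp : (0 : ℝ) < b := by exact_mod_cast hb
  have hB := one_le_Bd d
  have hF0 : 0 < F := by linarith
  have hM0 : 0 < M := by linarith
  have hd0 : (0 : ℝ) < (d : ℝ) + 1 / 2 := by positivity
  have hdd : ((d + 1 : ℕ) : ℝ) = (d : ℝ) + 1 := by push_cast; ring
  have hMpow : (Bd d : ℝ) * M ^ ((d : ℝ) + 1 / 2) = F := by
    rw [hM, ← Real.rpow_mul (by positivity), one_div_mul_cancel hd0.ne', Real.rpow_one]
    field_simp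
  have h2pow : (2 : ℝ) ^ ((d : ℝ) + 1 / 2) ≤ 2 ^ (d + 1) := by
    rw [← Real.rpow_natCast, hdd]
    apply Real.rpow_le_rpow_of_exponent_le (by norm_num)
    linarith
  have h2pos : (0 : ℝ) < 2 ^ ((d : ℝ) + 1 / 2) := by positivity
  set Y := Real.sqrt (a * N / b) with hY
  have hYY : Y ^ 2 = a * N / b := Real.sq_sqrt (by positivity)
  have hYl : Real.sqrt (M / 2) ≤ Y := Real.sqrt_le_sqrt h1
  have hY100 : 100 ≤ Y := (Y0_ge d).1.trans (hY0.trans hYl)
  obtain ⟨f, hf, N', hN1, hN2, K, hK1, hK, hlarge⟩ := core (F := F) (c₁ := 1 / 2 ^ (d + 1))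
    (c₂ := 2 ^ (d + 1)) hd ha hb hN hNF (by positivity) hYY (hY0.trans hYl) (hH.trans hYl)
    (by
      calc 1 / 2 ^ (d + 1) * F = F / 2 ^ (d + 1) := by ring
        _ ≤ F / 2 ^ ((d : ℝ) + 1 / 2) := by gcongr
        _ = Bd d * (M / 2) ^ ((d : ℝ) + 1 / 2) := by
            rw [Real.div_rpow hM0.le (by norm_num), ← hMpow]
            ring
        _ ≤ Bd d * (a * N / b) ^ ((d : ℝ) + 1 / 2) := by gcongr)
    (by
      calc (Bd d : ℝ) * (2 * (a * N / b)) ^ ((d : ℝ) + 1 / 2) ≤ Bd d * (2 * M) ^ ((d : ℝ) + 1 / 2) := by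
            gcongr
        _ = 2 ^ ((d : ℝ) + 1 / 2) * F := by
            rw [Real.mul_rpow (by norm_num) hM0.le, ← hMpow]
            ring
        _ ≤ 2 ^ (d + 1) * F := by gcongr)
  refine ⟨f, hf, N', hN1, hN2, le_trans ?_ hlarge⟩
  have hKp : (0 : ℝ) < K := by exact_mod_cast hK1
  -- the upper bound for `K`
  have hKu : (K : ℝ) ≤ Ed d * M ^ ((d : ℝ) / (2 * (d + 1))) := by
    have h3 : Y ≤ M ^ ((1 : ℝ) / 2) := by
      rw [← Real.sqrt_eq_rpow]
      exact Real.sqrt_le_sqrt h2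
    have h4 : (K : ℝ) ^ (d + 1) ≤ (Ed d * M ^ ((d : ℝ) / (2 * (d + 1)))) ^ (d + 1) := by
      refine hK.trans ?_
      rw [mul_pow]
      have h5 : Ed d ≤ Ed d ^ (d + 1) := le_self_pow₀ hE (by omega)
      have h6 : Y ^ d ≤ (M ^ ((d : ℝ) / (2 * (d + 1)))) ^ (d + 1) := by
        calc Y ^ d ≤ (M ^ ((1 : ℝ) / 2)) ^ d := by gcongr
          _ = (M ^ ((d : ℝ) / (2 * (d + 1)))) ^ (d + 1) := by
              rw [← Real.rpow_natCast, ← Real.rpow_natCast, ← Real.rpow_mul hM0.le, ← Real.rpow_mul hM0.le,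
                hdd]
              congr 1
              field_simp
      gcongr
    exact (pow_le_pow_iff_left₀ (by positivity) (by positivity) (by omega)).mp h4
  have h3 : M ^ (((d : ℝ) + 2) / (2 * (d + 1))) * M ^ ((d : ℝ) / (2 * (d + 1))) = M := by
    rw [← Real.rpow_add hM0]
    have : ((d : ℝ) + 2) / (2 * (d + 1)) + (d : ℝ) / (2 * (d + 1)) = 1 := by field_simp; ring
    rw [this, Real.rpow_one]
  set A := M ^ (((d : ℝ) + 2) / (2 * (d + 1))) with hA
  set B := M ^ ((d : ℝ) / (2 * (d + 1))) with hBB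
  have hA0 : 0 < A := by positivity
  have hB0 : 0 < B := by positivity
  have hEp : 0 < Ed d := by linarith
  rw [hYY]
  calc 3 / (8000 * Ed d) * (A / a) = 3 / 4000 * ((A * B / 2) / ((Ed d * B) * a)) := by field_simp; ring
    _ = 3 / 4000 * ((M / 2) / ((Ed d * B) * a)) := by rw [h3]
    _ ≤ 3 / 4000 * ((a * N / b) / (K * a)) := by gcongr

/-- **Large sums.** -/
theorem main (d : ℕ) (hd : 1 ≤ d) : ∃ c C : ℕ → ℝ, (∀ j, 0 < c j) ∧ (∀ j, 0 < C j) ∧ ∃ c₀ : ℝ, 0 < c₀ ∧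
    ∃ N₀ : ℝ, ∀ N F : ℝ, N₀ ≤ N → N ≤ F → F ≤ c₀ * N ^ (d + 1) →
      ∃ f : ℝ → ℝ, Admissible c C N F f ∧ ∃ N' : ℝ, N ≤ N' ∧ N' ≤ 2 * N ∧
        c₀ * min (F ^ (((d : ℝ) + 2) / ((d + 1) * (2 * d + 1))))
          (N * F ^ (-((d : ℝ) / ((d + 1) * (2 * d + 1))))) ≤ ‖expSum f N N'‖ := by
  have hE := one_le_Ed d
  have hEp : 0 < Ed d := by linarith
  have hB := one_le_Bd d
  have hBp : (0 : ℝ) < Bd d := by linarith
  have hd0 : (0 : ℝ) < (d : ℝ) + 1 / 2 := by positivity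
  have hd1 : (1 : ℝ) ≤ d := by exact_mod_cast hd
  set c₀ : ℝ := 3 / (8000 * Ed d * Bd d * 20 ^ (d + 1)) with hc₀
  have hc₀0 : 0 < c₀ := by positivity
  -- the lower bound for `N`
  set Z : ℝ := max (Y0 d) (20 ^ (d + 1) * Ed d) with hZ
  have hZ1 : 100 ≤ Z := (Y0_ge d).1.trans (le_max_left _ _)
  refine ⟨cl d (1 / 2 ^ (d + 1)), cu d (2 ^ (d + 1)), cl_pos d (by positivity), cu_pos d (by positivity),
    c₀, hc₀0, max 1 (Bd d * (2 * Z ^ 2) ^ ((d : ℝ) + 1 / 2)), fun N F hN hNF hF => ?_⟩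
  have hN1 : 1 ≤ N := (le_max_left _ _).trans hN
  have hNp : 0 < N := by linarith
  have hF0 : 0 < F := by linarith
  set M := (F / Bd d) ^ (1 / ((d : ℝ) + 1 / 2)) with hM
  have hMl : 2 * Z ^ 2 ≤ M := by
    have h1 : (2 * Z ^ 2) ^ ((d : ℝ) + 1 / 2) ≤ F / Bd d := by
      rw [le_div_iff₀ hBp]
      have := (le_max_right _ _).trans hN
      linarith
    have h2 : 2 * Z ^ 2 = ((2 * Z ^ 2) ^ ((d : ℝ) + 1 / 2)) ^ (1 / ((d : ℝ) + 1 / 2)) := by
      rw [← Real.rpow_mul (by positivity), mul_one_div_cancel hd0.ne', Real.rpow_one]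
    rw [h2, hM]
    exact Real.rpow_le_rpow (by positivity) h1 (by positivity)
  have hM1 : 1 ≤ M := by nlinarith
  have hMp : 0 < M := by linarith
  have hsq : Z ≤ Real.sqrt (M / 2) := by
    apply Real.le_sqrt_of_sq_le
    linarith
  have hY0 : Y0 d ≤ Real.sqrt (M / 2) := (le_max_left _ _).trans hsq
  -- exponents
  have he1 : (1 / ((d : ℝ) + 1 / 2)) * (((d : ℝ) + 2) / (2 * (d + 1))) =
      ((d : ℝ) + 2) / ((d + 1) * (2 * d + 1)) := by
    field_simp
  have hMu : M ^ (((d : ℝ) + 2) / (2 * (d + 1))) = (F / Bd d) ^ (((d : ℝ) + 2) / ((d + 1) * (2 * d + 1))) := by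
    rw [hM, ← Real.rpow_mul (by positivity), he1]
  set u : ℝ := ((d : ℝ) + 2) / ((d + 1) * (2 * d + 1)) with hu
  set v : ℝ := (d : ℝ) / ((d + 1) * (2 * d + 1)) with hv
  have hu0 : 0 < u := by positivity
  have hv0 : 0 < v := by positivity
  have hu1 : u ≤ 1 := by
    rw [hu, div_le_one (by positivity)]
    nlinarith
  rcases le_total M N with hMN | hMN
  · -- the second case: `a = 1`
    have hNM : 1 ≤ N / M := by rw [le_div_iff₀ hMp]; linarith
    have hb1 := Nat.le_ceil (N / M)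
    have hb2 := Nat.ceil_lt_add_one (by positivity : 0 ≤ N / M)
    set b := ⌈N / M⌉₊ with hb
    have hbp : (0 : ℝ) < b := by linarith
    have hb' : 1 ≤ b := by exact_mod_cast hbp
    have h1 : M / 2 ≤ ((1 : ℕ) : ℝ) * N / b := by
      rw [Nat.cast_one, one_mul, le_div_iff₀ hbp]
      have h2 : (b : ℝ) ≤ 2 * (N / M) := by linarith
      calc M / 2 * b ≤ M / 2 * (2 * (N / M)) := by gcongr
        _ = N := by field_simp
    have h2 : ((1 : ℕ) : ℝ) * N / b ≤ M := by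
      rw [Nat.cast_one, one_mul, div_le_iff₀ hbp]
      rw [div_le_iff₀ hMp] at hb1
      linarith
    obtain ⟨f, hf, N', hN'1, hN'2, hlarge⟩ := gen (a := 1) (b := b) hd le_rfl hb' hN1 hNF hM h1 h2 hM1 hY0 (by
      rw [Nat.cast_one, mul_one]
      exact (le_max_right _ _).trans hsq)
    refine ⟨f, hf, N', hN'1, hN'2, le_trans ?_ hlarge⟩
    rw [hMu, Nat.cast_one, div_one]
    refine le_trans (mul_le_mul_of_nonneg_left (min_le_left _ _) hc₀0.le) ?_
    have h3 : F ^ u ≤ (F / Bd d) ^ u * Bd d := by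
      have h4 : F ^ u = (F / Bd d) ^ u * (Bd d : ℝ) ^ u := by
        rw [← Real.mul_rpow (by positivity) hBp.le]
        congr 1
        field_simp
      rw [h4]
      have h5 : (Bd d : ℝ) ^ u ≤ Bd d := by
        calc (Bd d : ℝ) ^ u ≤ (Bd d : ℝ) ^ (1 : ℝ) := Real.rpow_le_rpow_of_exponent_le hB hu1
          _ = Bd d := Real.rpow_one _
      gcongr
    have h20 : (1 : ℝ) ≤ 20 ^ (d + 1) := one_le_pow₀ (by norm_num)
    have hFu : 0 < (F / Bd d) ^ u := by positivity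
    calc c₀ * F ^ u ≤ c₀ * ((F / Bd d) ^ u * Bd d) := by gcongr
      _ = 3 / (8000 * Ed d) * (F / Bd d) ^ u * (1 / 20 ^ (d + 1)) := by rw [hc₀]; field_simp
      _ ≤ 3 / (8000 * Ed d) * (F / Bd d) ^ u * 1 := by
          gcongr
          rw [div_le_one (by positivity)]
          exact h20
      _ = _ := mul_one _
  · -- the first case: `b = 1`
    have hNM : 1 ≤ M / N := by rw [le_div_iff₀ hNp]; linarith
    have ha1 := Nat.floor_le (by positivity : 0 ≤ M / N)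
    have ha2 := Nat.lt_floor_add_one (M / N)
    have ha' : 1 ≤ ⌊M / N⌋₊ := Nat.floor_pos.mpr hNM
    set a := ⌊M / N⌋₊ with ha
    have hap : (1 : ℝ) ≤ a := by exact_mod_cast ha'
    have h1 : M / 2 ≤ (a : ℝ) * N / ((1 : ℕ) : ℝ) := by
      rw [Nat.cast_one, div_one]
      have h2 : M / N ≤ 2 * a := by linarith
      rw [div_le_iff₀ hNp] at h2
      linarith
    have h2 : (a : ℝ) * N / ((1 : ℕ) : ℝ) ≤ M := by
      rw [Nat.cast_one, div_one]
      rwa [le_div_iff₀ hNp] at ha1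
    have hH : (20 * (a : ℝ)) ^ (d + 1) * Ed d ≤ Real.sqrt (M / 2) := by
      have hMpow : (Bd d : ℝ) * M ^ ((d : ℝ) + 1 / 2) = F := by
        rw [hM, ← Real.rpow_mul (by positivity), one_div_mul_cancel hd0.ne', Real.rpow_one]
        field_simp
      have h3 : M ^ (d + 1) = M ^ ((d : ℝ) + 1 / 2) * Real.sqrt M := by
        rw [Real.sqrt_eq_rpow, ← Real.rpow_add hMp, ← Real.rpow_natCast]
        congr 1
        push_cast
        ring
      have h4 : M ^ (d + 1) ≤ F * Real.sqrt M := by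
        rw [h3]
        have h5 : M ^ ((d : ℝ) + 1 / 2) ≤ F := by
          rw [← hMpow]
          have : 0 < M ^ ((d : ℝ) + 1 / 2) := by positivity
          nlinarith
        gcongr
      have hNd : 0 < N ^ (d + 1) := by positivity
      have h5 : Real.sqrt M ≤ 2 * Real.sqrt (M / 2) := by
        have h6 : Real.sqrt M = Real.sqrt 2 * Real.sqrt (M / 2) := by
          rw [← Real.sqrt_mul (by norm_num)]
          congr 1
          ring
        rw [h6]
        have h7 : Real.sqrt 2 ≤ 2 := by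
          rw [Real.sqrt_le_left (by norm_num)]
          norm_num
        gcongr
      calc (20 * (a : ℝ)) ^ (d + 1) * Ed d ≤ (20 * (M / N)) ^ (d + 1) * Ed d := by gcongr
        _ = 20 ^ (d + 1) * Ed d * (M ^ (d + 1) / N ^ (d + 1)) := by rw [mul_pow, div_pow]; ring
        _ ≤ 20 ^ (d + 1) * Ed d * ((F * Real.sqrt M) / N ^ (d + 1)) := by gcongr
        _ ≤ 20 ^ (d + 1) * Ed d * (((c₀ * N ^ (d + 1)) * (2 * Real.sqrt (M / 2))) / N ^ (d + 1)) := by gcongr
        _ = (20 ^ (d + 1) * Ed d * c₀ * 2) * Real.sqrt (M / 2) := by field_simp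
        _ ≤ 1 * Real.sqrt (M / 2) := by
            gcongr
            rw [hc₀]
            have h6 : 20 ^ (d + 1) * Ed d * (3 / (8000 * Ed d * Bd d * 20 ^ (d + 1))) * 2 = 6 / (8000 * Bd d) := by
              field_simp
              ring
            rw [h6, div_le_one (by positivity)]
            linarith
        _ = _ := one_mul _
    obtain ⟨f, hf, N', hN'1, hN'2, hlarge⟩ := gen (a := a) (b := 1) hd ha' le_rfl hN1 hNF hM h1 h2 hM1 hY0 hH
    refine ⟨f, hf, N', hN'1, hN'2, le_trans ?_ hlarge⟩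
    refine le_trans (mul_le_mul_of_nonneg_left (min_le_right _ _) hc₀0.le) ?_
    set A := M ^ (((d : ℝ) + 2) / (2 * (d + 1))) with hA
    have hA0 : 0 < A := by positivity
    have h3 : N * F ^ (-v) ≤ A / a := by
      have h4 : N / M ≤ 1 / a := by
        rw [div_le_div_iff₀ hMp (by linarith)]
        rw [le_div_iff₀ hNp] at ha1
        linarith
      have h5 : A / M = (F / Bd d) ^ (-v) := by
        rw [hMu, hM, ← Real.rpow_sub (by positivity)]
        congr 1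
        rw [hu, hv]
        field_simp
        ring
      have h6 : F ^ (-v) ≤ (F / Bd d) ^ (-v) := by
        apply Real.rpow_le_rpow_of_nonpos (by positivity) (div_le_self hF0.le hB) (by linarith)
      calc N * F ^ (-v) ≤ N * (F / Bd d) ^ (-v) := by gcongr
        _ = A * (N / M) := by rw [← h5]; ring
        _ ≤ A * (1 / a) := by gcongr
        _ = A / a := by ring
    have h20 : (1 : ℝ) ≤ 20 ^ (d + 1) := one_le_pow₀ (by norm_num)
    calc c₀ * (N * F ^ (-v)) ≤ c₀ * (A / a) := by gcongr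
      _ ≤ 3 / (8000 * Ed d) * (A / a) := by
          gcongr
          rw [hc₀, div_le_div_iff₀ (by positivity) (by positivity)]
          have h7 : 1 ≤ (Bd d : ℝ) * 20 ^ (d + 1) := by nlinarith
          nlinarith

end Pool.Agent.H502.XP
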