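import Pool.Agent.H502.XP.M7

/-!
# Failure of the bound of the pair `(0, 0)` at every power `F = N^θ`
-/

set_option autoImplicit false

open Finset Filter

namespace Pool.Agent.H502.XP

theorem at_power {θ : ℝ} (hθ : 1 < θ) : ∃ δ : ℝ, 0 < δ ∧ ∃ c C : ℕ → ℝ, (∀ j, 0 < c j) ∧ (∀ j, 0 < C j) ∧
    ∃ N₀ : ℝ, ∀ N : ℝ, N₀ ≤ N → ∃ f : ℝ → ℝ, Admissible c C N (N ^ θ) f ∧ ∃ N' : ℝ, N ≤ N' ∧ N' ≤ 2 * N ∧
      N ^ (1 / 2 + δ) ≤ ‖expSum f N N'‖ := by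
  have h1 := Nat.floor_le (by linarith : 0 ≤ θ)
  have h2 := Nat.lt_floor_add_one θ
  have hd : 1 ≤ ⌊θ⌋₊ := Nat.le_floor (by exact_mod_cast hθ.le)
  set d := ⌊θ⌋₊ with hdd
  have hd1 : (1 : ℝ) ≤ d := by exact_mod_cast hd
  obtain ⟨c, C, hc, hC, c₀, hc₀, N₁, hmain⟩ := main d hd
  set u : ℝ := ((d : ℝ) + 2) / ((d + 1) * (2 * d + 1)) with hu
  set v : ℝ := (d : ℝ) / ((d + 1) * (2 * d + 1)) with hv
  have hD : (0 : ℝ) < (d + 1) * (2 * d + 1) := by positivity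
  have hu2 : 1 / 2 < θ * u := by
    rw [hu, ← mul_div_assoc, div_lt_div_iff₀ (by norm_num) hD]
    rcases hd.eq_or_lt with h | h
    · have : (d : ℝ) = 1 := by exact_mod_cast h.symm
      rw [this]
      linarith
    · have : (2 : ℝ) ≤ d := by exact_mod_cast h
      nlinarith
  have hv2 : 1 / 2 < 1 - θ * v := by
    have h3 : θ * v < 1 / 2 := by
      rw [hv, ← mul_div_assoc, div_lt_div_iff₀ hD (by norm_num)]
      nlinarith
    linarith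
  set δ : ℝ := min (θ * u - 1 / 2) (1 - θ * v - 1 / 2) / 2 with hδ
  have hδ0 : 0 < δ := by
    rw [hδ]
    apply div_pos _ (by norm_num)
    exact lt_min (by linarith) (by linarith)
  have hδ1 : 1 / 2 + 2 * δ ≤ θ * u := by
    have : min (θ * u - 1 / 2) (1 - θ * v - 1 / 2) ≤ θ * u - 1 / 2 := min_le_left _ _
    rw [hδ]
    linarith
  have hδ2 : 1 / 2 + 2 * δ ≤ 1 - θ * v := by
    have : min (θ * u - 1 / 2) (1 - θ * v - 1 / 2) ≤ 1 - θ * v - 1 / 2 := min_le_right _ _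
    rw [hδ]
    linarith
  have hev1 : ∀ᶠ N : ℝ in atTop, N ^ (-((d : ℝ) + 1 - θ)) < c₀ :=
    (tendsto_rpow_neg_atTop (by linarith : 0 < (d : ℝ) + 1 - θ)).eventually_lt_const hc₀
  have hev2 : ∀ᶠ N : ℝ in atTop, N ^ (-δ) < c₀ :=
    (tendsto_rpow_neg_atTop hδ0).eventually_lt_const hc₀
  obtain ⟨N₀, hN₀⟩ := eventually_atTop.mp (hev1.and (hev2.and (eventually_ge_atTop (max 1 N₁))))
  refine ⟨δ, hδ0, c, C, hc, hC, N₀, fun N hN => ?_⟩
  obtain ⟨h3, h4, h5⟩ := hN₀ N hN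
  have hN1 : 1 ≤ N := (le_max_left _ _).trans h5
  have hNp : 0 < N := by linarith
  obtain ⟨f, hf, N', h6, h7, h8⟩ := hmain N (N ^ θ) ((le_max_right _ _).trans h5)
    (by
      calc N = N ^ (1 : ℝ) := (Real.rpow_one N).symm
        _ ≤ N ^ θ := Real.rpow_le_rpow_of_exponent_le hN1 hθ.le)
    (by
      have h9 : N ^ θ = N ^ (-((d : ℝ) + 1 - θ)) * N ^ (d + 1) := by
        rw [← Real.rpow_natCast N (d + 1), ← Real.rpow_add hNp]
        congr 1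
        push_cast
        ring
      rw [h9]
      gcongr)
  refine ⟨f, hf, N', h6, h7, le_trans ?_ h8⟩
  have h9 : N ^ (1 / 2 + 2 * δ) ≤ min ((N ^ θ) ^ u) (N * (N ^ θ) ^ (-v)) := by
    apply le_min
    · rw [← Real.rpow_mul hNp.le]
      exact Real.rpow_le_rpow_of_exponent_le hN1 hδ1
    · have h10 : N * (N ^ θ) ^ (-v) = N ^ (1 - θ * v) := by
        rw [← Real.rpow_mul hNp.le]
        nth_rewrite 1 [← Real.rpow_one N]
        rw [← Real.rpow_add hNp]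
        congr 1
        ring
      rw [h10]
      exact Real.rpow_le_rpow_of_exponent_le hN1 hδ2
  calc N ^ (1 / 2 + δ) = N ^ (-δ) * N ^ (1 / 2 + 2 * δ) := by
        rw [← Real.rpow_add hNp]
        congr 1
        ring
    _ ≤ c₀ * min ((N ^ θ) ^ u) (N * (N ^ θ) ^ (-v)) := by
        apply mul_le_mul h4.le h9 (by positivity) hc₀.le

theorem fails {θ : ℝ} (hθ : 1 < θ) : ¬ (∀ ε : ℝ, 0 < ε → ∀ c C : ℕ → ℝ, (∀ j, 0 < c j) → (∀ j, 0 < C j) →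
    ∃ K : ℝ, ∀ N N' : ℝ, ∀ f : ℝ → ℝ, 2 ≤ N → N ≤ N' → N' ≤ 2 * N → Admissible c C N (N ^ θ) f →
      ‖expSum f N N'‖ ≤ K * N ^ (1 / 2 : ℝ) * (N ^ θ) ^ ε) := by
  intro hcon
  obtain ⟨δ, hδ, c, C, hc, hC, N₀, h⟩ := at_power hθ
  obtain ⟨K, hK⟩ := hcon (δ / (2 * θ)) (by positivity) c C hc hC
  have hev : ∀ᶠ N : ℝ in atTop, K < N ^ (δ / 2) :=
    (tendsto_rpow_atTop (by positivity : 0 < δ / 2)).eventually_gt_atTop K
  obtain ⟨N, h1, h2⟩ := (hev.and (eventually_ge_atTop (max 2 N₀))).exists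
  have hN2 : 2 ≤ N := (le_max_left _ _).trans h2
  have hNp : 0 < N := by linarith
  obtain ⟨f, hf, N', h3, h4, h5⟩ := h N ((le_max_right _ _).trans h2)
  have h6 := hK N N' f hN2 h3 h4 hf
  have h7 : (N ^ θ) ^ (δ / (2 * θ)) = N ^ (δ / 2) := by
    rw [← Real.rpow_mul hNp.le]
    congr 1
    field_simp
  rw [h7] at h6
  have h8 : N ^ (1 / 2 + δ) = N ^ (δ / 2) * N ^ (1 / 2 : ℝ) * N ^ (δ / 2) := by
    rw [← Real.rpow_add hNp, ← Real.rpow_add hNp]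
    congr 1
    ring
  have h9 : K * N ^ (1 / 2 : ℝ) * N ^ (δ / 2) < N ^ (δ / 2) * N ^ (1 / 2 : ℝ) * N ^ (δ / 2) := by
    have : 0 < N ^ (1 / 2 : ℝ) := by positivity
    have : 0 < N ^ (δ / 2) := by positivity
    gcongr
  linarith

end Pool.Agent.H502.XP
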